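import Mathlib

/-!
# Angles between intersections of three subspaces
-/

set_option autoImplicit false

namespace Pool.Agent.Lib.MP_dbb15e_gt

open Finset

section

variable {E : Type*} [NormedAddCommGroup E] [InnerProductSpace ℝ E] [FiniteDimensional ℝ E]

/-- Two subspaces of a finite dimensional space with trivial intersection have a positive angle. -/
lemma exists_angle (P Q : Submodule ℝ E) (h : P ⊓ Q = ⊥) :
    ∃ α : ℝ, 0 ≤ α ∧ α < 1 ∧ ∀ u ∈ P, ∀ w ∈ Q, inner ℝ u w ≤ α * (‖u‖ * ‖w‖) := by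
  classical
  set K : Set (E × E) := {x | x.1 ∈ P ∧ x.2 ∈ Q ∧ ‖x.1‖ = 1 ∧ ‖x.2‖ = 1} with hK
  have hKc : IsCompact K := by
    have h1 : IsCompact ((Metric.sphere (0 : E) 1) ×ˢ (Metric.sphere (0 : E) 1)) :=
      (isCompact_sphere _ _).prod (isCompact_sphere _ _)
    refine h1.of_isClosed_subset ?_ ?_
    · have hP : IsClosed (P : Set E) := P.closed_of_finiteDimensional
      have hQ : IsClosed (Q : Set E) := Q.closed_of_finiteDimensional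
      have e : K = (Prod.fst ⁻¹' (P : Set E)) ∩ ((Prod.snd ⁻¹' (Q : Set E)) ∩
          ({x | ‖x.1‖ = 1} ∩ {x | ‖x.2‖ = 1})) := by
        ext x; simp [hK]
      rw [e]
      refine (hP.preimage continuous_fst).inter ((hQ.preimage continuous_snd).inter
        (IsClosed.inter ?_ ?_))
      · exact isClosed_eq (continuous_fst.norm) continuous_const
      · exact isClosed_eq (continuous_snd.norm) continuous_const
    · intro x hx
      simp only [Set.mem_prod, mem_sphere_iff_norm, sub_zero]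
      exact ⟨hx.2.2.1, hx.2.2.2⟩
  have hcont : ContinuousOn (fun x : E × E => inner ℝ x.1 x.2) K :=
    (continuous_fst.inner continuous_snd).continuousOn
  by_cases hne : K.Nonempty
  · obtain ⟨x, hx, hmax⟩ := hKc.exists_isMaxOn hne hcont
    have hlt : inner ℝ x.1 x.2 < (1 : ℝ) := by
      refine lt_of_le_of_ne ?_ ?_
      · have := real_inner_le_norm x.1 x.2
        rwa [hx.2.2.1, hx.2.2.2, mul_one] at this
      · intro h1
        have h2 := (inner_eq_one_iff_of_norm_eq_one hx.2.2.1 hx.2.2.2).1 h1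
        have h3 : x.1 ∈ P ⊓ Q := ⟨hx.1, by rw [h2]; exact hx.2.1⟩
        rw [h, Submodule.mem_bot] at h3
        have h4 := hx.2.2.1
        rw [h3, norm_zero] at h4
        exact zero_ne_one h4
    refine ⟨max (inner ℝ x.1 x.2) 0, le_max_right _ _, max_lt hlt one_pos, ?_⟩
    intro u hu w hw
    by_cases hu0 : u = 0
    · simp [hu0]
    by_cases hw0 : w = 0
    · simp [hw0]
    have hu1 : 0 < ‖u‖ := norm_pos_iff.2 hu0
    have hw1 : 0 < ‖w‖ := norm_pos_iff.2 hw0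
    have h5 : ((‖u‖⁻¹ • u, ‖w‖⁻¹ • w) : E × E) ∈ K := by
      refine ⟨P.smul_mem _ hu, Q.smul_mem _ hw, ?_, ?_⟩
      · simp [norm_smul, hu1.ne']
      · simp [norm_smul, hw1.ne']
    have h6 : inner ℝ (‖u‖⁻¹ • u) (‖w‖⁻¹ • w) ≤ inner ℝ x.1 x.2 := hmax h5
    rw [real_inner_smul_left, real_inner_smul_right] at h6
    have h7 : inner ℝ u w = (‖u‖ * ‖w‖) * (‖u‖⁻¹ * (‖w‖⁻¹ * inner ℝ u w)) := by
      field_simp
    rw [h7, mul_comm (max _ _)]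
    exact mul_le_mul_of_nonneg_left (h6.trans (le_max_left _ _)) (by positivity)
  · refine ⟨0, le_rfl, one_pos, ?_⟩
    intro u hu w hw
    by_cases hu0 : u = 0
    · simp [hu0]
    by_cases hw0 : w = 0
    · simp [hw0]
    exfalso
    apply hne
    have hu1 : 0 < ‖u‖ := norm_pos_iff.2 hu0
    have hw1 : 0 < ‖w‖ := norm_pos_iff.2 hw0
    refine ⟨(‖u‖⁻¹ • u, ‖w‖⁻¹ • w), P.smul_mem _ hu, Q.smul_mem _ hw, ?_, ?_⟩
    · simp [norm_smul, hu1.ne']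
    · simp [norm_smul, hw1.ne']

/-- One improvement step. -/
lemma angle_step (V1 V2 V3 K : Submodule ℝ E) (ε α : ℝ) (hε : 0 ≤ ε) (hε1 : ε ≤ 1)
    (hK : ∀ z ∈ V1 ⊓ V2 ⊓ V3, ∀ k ∈ K, inner ℝ k z = (0 : ℝ))
    (hK2 : ∀ k, (∀ z ∈ V1 ⊓ V2 ⊓ V3, inner ℝ k z = (0 : ℝ)) → k ∈ K)
    (h23 : ∀ u ∈ V2, ∀ w ∈ V3, (∀ z ∈ V2 ⊓ V3, inner ℝ u z = (0 : ℝ)) →
      |inner ℝ u w| ≤ ε * (‖u‖ * ‖w‖))
    (hα : 0 ≤ α)
    (hA : ∀ u ∈ V1 ⊓ V2 ⊓ K, ∀ w ∈ V2 ⊓ V3 ⊓ K, inner ℝ u w ≤ α * (‖u‖ * ‖w‖))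
    (hB : ∀ u ∈ V1 ⊓ V3 ⊓ K, ∀ w ∈ V2 ⊓ V3 ⊓ K, inner ℝ u w ≤ α * (‖u‖ * ‖w‖)) :
    ∀ u ∈ V1 ⊓ V2 ⊓ K, ∀ w ∈ V1 ⊓ V3 ⊓ K,
      inner ℝ u w ≤ (ε + (1 - ε) * α ^ 2) * (‖u‖ * ‖w‖) := by
  intro u hu w hw
  set P := V2 ⊓ V3 with hP
  have key : ∀ x : E, (∀ z ∈ V1 ⊓ V2 ⊓ V3, inner ℝ x z = (0 : ℝ)) →
      ((P.starProjection x : E) ∈ V2 ⊓ V3 ⊓ K) ∧
      (∀ z ∈ P, inner ℝ (x - P.starProjection x) z = (0 : ℝ)) := by
    intro x hx
    have h1 : ∀ z ∈ P, inner ℝ (x - P.starProjection x) z = (0 : ℝ) :=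
      fun z hz => P.starProjection_inner_eq_zero x z hz
    refine ⟨⟨P.starProjection_apply_mem x, hK2 _ ?_⟩, h1⟩
    intro z hz
    have h2 : z ∈ P := ⟨hz.1.2, hz.2⟩
    have h3 := h1 z h2
    rw [inner_sub_left, hx z hz] at h3
    linarith
  obtain ⟨hu1, hu2⟩ := key u (fun z hz => hK z hz u hu.2)
  obtain ⟨hw1, hw2⟩ := key w (fun z hz => hK z hz w hw.2)
  set u' := P.starProjection u
  set w' := P.starProjection w
  -- norms
  have hun : ‖u‖ ^ 2 = ‖u'‖ ^ 2 + ‖u - u'‖ ^ 2 := by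
    have h1 : inner ℝ (u - u') u' = (0 : ℝ) := hu2 u' hu1.1
    have h2 : u = u' + (u - u') := by abel
    conv_lhs => rw [h2]
    rw [norm_add_sq_real, real_inner_comm, h1]; ring
  have hwn : ‖w‖ ^ 2 = ‖w'‖ ^ 2 + ‖w - w'‖ ^ 2 := by
    have h1 : inner ℝ (w - w') w' = (0 : ℝ) := hw2 w' hw1.1
    have h2 : w = w' + (w - w') := by abel
    conv_lhs => rw [h2]
    rw [norm_add_sq_real, real_inner_comm, h1]; ring
  have huu : ‖u'‖ ^ 2 = inner ℝ u u' := by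
    have h1 : inner ℝ (u - u') u' = (0 : ℝ) := hu2 u' hu1.1
    rw [inner_sub_left, real_inner_self_eq_norm_sq] at h1
    linarith
  have hww : ‖w'‖ ^ 2 = inner ℝ w w' := by
    have h1 : inner ℝ (w - w') w' = (0 : ℝ) := hw2 w' hw1.1
    rw [inner_sub_left, real_inner_self_eq_norm_sq] at h1
    linarith
  have hub : ‖u'‖ ≤ α * ‖u‖ := by
    have h1 := hA u hu u' hu1
    rw [← huu] at h1
    by_cases h0 : ‖u'‖ = 0
    · rw [h0]; positivity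
    · have h2 : 0 < ‖u'‖ := lt_of_le_of_ne (norm_nonneg _) (Ne.symm h0)
      have h3 : ‖u'‖ * ‖u'‖ ≤ (α * ‖u‖) * ‖u'‖ := by nlinarith
      exact le_of_mul_le_mul_right h3 h2
  have hwb : ‖w'‖ ≤ α * ‖w‖ := by
    have h1 := hB w hw w' hw1
    rw [← hww] at h1
    by_cases h0 : ‖w'‖ = 0
    · rw [h0]; positivity
    · have h2 : 0 < ‖w'‖ := lt_of_le_of_ne (norm_nonneg _) (Ne.symm h0)
      have h3 : ‖w'‖ * ‖w'‖ ≤ (α * ‖w‖) * ‖w'‖ := by nlinarith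
      exact le_of_mul_le_mul_right h3 h2
  -- split the inner product
  have hsplit : inner ℝ u w = inner ℝ u' w' + inner ℝ (u - u') (w - w') := by
    have h1 : inner ℝ (u - u') w' = (0 : ℝ) := hu2 w' hw1.1
    have h2 : inner ℝ (w - w') u' = (0 : ℝ) := hw2 u' hu1.1
    have h3 : u = u' + (u - u') := by abel
    have h4 : w = w' + (w - w') := by abel
    conv_lhs => rw [h3, h4]
    rw [inner_add_left, inner_add_right, inner_add_right, h1]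
    rw [real_inner_comm] at h2
    rw [h2]; ring
  have h1 : inner ℝ u' w' ≤ ‖u'‖ * ‖w'‖ := real_inner_le_norm _ _
  have h2 : inner ℝ (u - u') (w - w') ≤ ε * (‖u - u'‖ * ‖w - w'‖) := by
    refine (le_abs_self _).trans (h23 _ ?_ _ ?_ hu2)
    · exact V2.sub_mem hu.1.2 hu1.1.1
    · exact V3.sub_mem hw.1.2 hw1.1.2
  have h3 : ‖u'‖ * ‖w'‖ + ‖u - u'‖ * ‖w - w'‖ ≤ ‖u‖ * ‖w‖ := by
    have ha := norm_nonneg u'
    have hb := norm_nonneg w'
    have hc := norm_nonneg (u - u')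
    have hd := norm_nonneg (w - w')
    apply le_of_sq_le_sq _ (by positivity)
    rw [mul_pow ‖u‖, hun, hwn]
    nlinarith [sq_nonneg (‖u'‖ * ‖w - w'‖ - ‖u - u'‖ * ‖w'‖)]
  have h4 : ‖u'‖ * ‖w'‖ ≤ α ^ 2 * (‖u‖ * ‖w‖) := by
    calc ‖u'‖ * ‖w'‖ ≤ (α * ‖u‖) * (α * ‖w‖) :=
          mul_le_mul hub hwb (norm_nonneg _) (by positivity)
      _ = _ := by ring
  rw [hsplit]
  nlinarith [mul_nonneg (norm_nonneg u) (norm_nonneg w)]

/-- If three subspaces are pairwise `1/4`-orthogonal modulo intersections, then the pairwise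
intersections are `1/3`-orthogonal modulo the triple intersection. -/
theorem three_subspaces (V1 V2 V3 : Submodule ℝ E)
    (h12 : ∀ u ∈ V1, ∀ w ∈ V2, (∀ z ∈ V1 ⊓ V2, inner ℝ u z = (0 : ℝ)) →
      |inner ℝ u w| ≤ (1 / 4) * (‖u‖ * ‖w‖))
    (h23 : ∀ u ∈ V2, ∀ w ∈ V3, (∀ z ∈ V2 ⊓ V3, inner ℝ u z = (0 : ℝ)) →
      |inner ℝ u w| ≤ (1 / 4) * (‖u‖ * ‖w‖))
    (h31 : ∀ u ∈ V3, ∀ w ∈ V1, (∀ z ∈ V3 ⊓ V1, inner ℝ u z = (0 : ℝ)) →
      |inner ℝ u w| ≤ (1 / 4) * (‖u‖ * ‖w‖)) :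
    ∀ u ∈ V1 ⊓ V2, ∀ w ∈ V2 ⊓ V3, (∀ z ∈ V1 ⊓ V2 ⊓ V3, inner ℝ u z = (0 : ℝ)) →
      inner ℝ u w ≤ (1 / 3) * (‖u‖ * ‖w‖) := by
  classical
  set T := V1 ⊓ V2 ⊓ V3 with hT
  set K := Tᗮ with hKdef
  have hK : ∀ z ∈ T, ∀ k ∈ K, inner ℝ k z = (0 : ℝ) := by
    intro z hz k hk
    rw [real_inner_comm]
    exact (Submodule.mem_orthogonal T k).1 hk z hz
  have hK2 : ∀ k, (∀ z ∈ T, inner ℝ k z = (0 : ℝ)) → k ∈ K := by
    intro k hk
    rw [Submodule.mem_orthogonal]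
    intro z hz
    rw [real_inner_comm]
    exact hk z hz
  have hbot : ∀ x, x ∈ T → x ∈ K → x = 0 := by
    intro x hx hx2
    have := hK x hx x hx2
    rwa [inner_self_eq_zero] at this
  set A12 := V1 ⊓ V2 ⊓ K
  set A23 := V2 ⊓ V3 ⊓ K
  set A13 := V1 ⊓ V3 ⊓ K
  let M : ℝ → Prop := fun α =>
    (∀ u ∈ A12, ∀ w ∈ A23, inner ℝ u w ≤ α * (‖u‖ * ‖w‖)) ∧
    (∀ u ∈ A12, ∀ w ∈ A13, inner ℝ u w ≤ α * (‖u‖ * ‖w‖)) ∧
    (∀ u ∈ A13, ∀ w ∈ A23, inner ℝ u w ≤ α * (‖u‖ * ‖w‖))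
  have hMmono : ∀ α β, α ≤ β → M α → M β := by
    intro α β hαβ hM
    refine ⟨fun u hu w hw => (hM.1 u hu w hw).trans ?_,
      fun u hu w hw => (hM.2.1 u hu w hw).trans ?_,
      fun u hu w hw => (hM.2.2 u hu w hw).trans ?_⟩ <;>
    exact mul_le_mul_of_nonneg_right hαβ (by positivity)
  -- starting point
  obtain ⟨α0, hα00, hα01, hα0⟩ : ∃ α : ℝ, 0 ≤ α ∧ α < 1 ∧ M α := by
    obtain ⟨a, ha0, ha1, ha⟩ := exists_angle A12 A23 (by
      rw [eq_bot_iff]; intro x hx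
      rw [Submodule.mem_bot]
      exact hbot x ⟨⟨hx.1.1.1, hx.1.1.2⟩, hx.2.1.2⟩ hx.1.2)
    obtain ⟨b, hb0, hb1, hb⟩ := exists_angle A12 A13 (by
      rw [eq_bot_iff]; intro x hx
      rw [Submodule.mem_bot]
      exact hbot x ⟨⟨hx.1.1.1, hx.1.1.2⟩, hx.2.1.2⟩ hx.1.2)
    obtain ⟨c, hc0, hc1, hc⟩ := exists_angle A13 A23 (by
      rw [eq_bot_iff]; intro x hx
      rw [Submodule.mem_bot]
      exact hbot x ⟨⟨hx.1.1.1, hx.2.1.1⟩, hx.1.1.2⟩ hx.1.2)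
    refine ⟨max a (max b c), le_max_of_le_left ha0, max_lt ha1 (max_lt hb1 hc1), ?_, ?_, ?_⟩
    · intro u hu w hw
      exact (ha u hu w hw).trans (mul_le_mul_of_nonneg_right (le_max_left _ _) (by positivity))
    · intro u hu w hw
      exact (hb u hu w hw).trans (mul_le_mul_of_nonneg_right
        ((le_max_left _ _).trans (le_max_right _ _)) (by positivity))
    · intro u hu w hw
      exact (hc u hu w hw).trans (mul_le_mul_of_nonneg_right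
        ((le_max_right _ _).trans (le_max_right _ _)) (by positivity))
  -- improvement
  have hstep : ∀ α, 0 ≤ α → M α → M (1 / 4 + (1 - 1 / 4) * α ^ 2) := by
    intro α hα hM
    refine ⟨?_, ?_, ?_⟩
    · -- common index 2, uses the pair (3,1)
      have e := angle_step V2 V3 V1 K (1 / 4) α (by norm_num) (by norm_num)
        (fun z hz => hK z ⟨⟨hz.2, hz.1.1⟩, hz.1.2⟩)
        (fun k hk => hK2 k (fun z hz => hk z ⟨⟨hz.1.2, hz.2⟩, hz.1.1⟩))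
        h31 hα
        (fun u hu w hw => by
          have := hM.2.2 w ⟨⟨hw.1.2, hw.1.1⟩, hw.2⟩ u hu
          rw [real_inner_comm, mul_comm ‖u‖]; exact this)
        (fun u hu w hw => by
          exact hM.2.1 u ⟨⟨hu.1.2, hu.1.1⟩, hu.2⟩ w ⟨⟨hw.1.2, hw.1.1⟩, hw.2⟩)
      intro u hu w hw
      have := e w hw u ⟨⟨hu.1.2, hu.1.1⟩, hu.2⟩
      rw [real_inner_comm, mul_comm ‖u‖]; exact this
    · -- common index 1, uses the pair (2,3)
      exact angle_step V1 V2 V3 K (1 / 4) α (by norm_num) (by norm_num) hK hK2 h23 hα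
        hM.1 hM.2.2
    · -- common index 3, uses the pair (1,2)
      have e := angle_step V3 V1 V2 K (1 / 4) α (by norm_num) (by norm_num)
        (fun z hz => hK z ⟨⟨hz.1.2, hz.2⟩, hz.1.1⟩)
        (fun k hk => hK2 k (fun z hz => hk z ⟨⟨hz.2, hz.1.1⟩, hz.1.2⟩))
        h12 hα
        (fun u hu w hw => by
          have := hM.2.1 w hw u ⟨⟨hu.1.2, hu.1.1⟩, hu.2⟩
          rw [real_inner_comm, mul_comm ‖u‖]; exact this)
        (fun u hu w hw => by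
          have := hM.1 w hw u ⟨⟨hu.1.2, hu.1.1⟩, hu.2⟩
          rw [real_inner_comm, mul_comm ‖u‖]; exact this)
      intro u hu w hw
      exact e u ⟨⟨hu.1.2, hu.1.1⟩, hu.2⟩ w ⟨⟨hw.1.2, hw.1.1⟩, hw.2⟩
  -- the optimal constant
  set S : Set ℝ := {α | 0 ≤ α ∧ M α} with hS
  have hSne : S.Nonempty := ⟨α0, hα00, hα0⟩
  have hSbdd : BddBelow S := ⟨0, fun x hx => hx.1⟩
  set β := sInf S with hβ
  have hβ0 : 0 ≤ β := le_csInf hSne (fun x hx => hx.1)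
  have hβ1 : β < 1 := lt_of_le_of_lt (csInf_le hSbdd ⟨hα00, hα0⟩) hα01
  have hlim : ∀ x y : ℝ, 0 ≤ y → (∀ α ∈ S, x ≤ α * y) → x ≤ β * y := by
    intro x y hy hxy
    rcases hy.eq_or_lt with h0 | h0
    · have := hxy α0 ⟨hα00, hα0⟩
      rw [← h0] at this ⊢; simpa using this
    · rw [← div_le_iff₀ h0]
      exact le_csInf hSne (fun α hα => by rw [div_le_iff₀ h0]; exact hxy α hα)
  have hMβ : M β := by
    refine ⟨?_, ?_, ?_⟩
    · intro u hu w hw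
      exact hlim _ _ (by positivity) (fun α hα => hα.2.1 u hu w hw)
    · intro u hu w hw
      exact hlim _ _ (by positivity) (fun α hα => hα.2.2.1 u hu w hw)
    · intro u hu w hw
      exact hlim _ _ (by positivity) (fun α hα => hα.2.2.2 u hu w hw)
  have hβ2 : β ≤ 1 / 4 + (1 - 1 / 4) * β ^ 2 :=
    csInf_le hSbdd ⟨by positivity, hstep β hβ0 hMβ⟩
  have hβ3 : β ≤ 1 / 3 := by nlinarith
  have hM3 : M (1 / 3) := hMmono β _ hβ3 hMβ
  -- conclusion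
  intro u hu w hw huT
  have huK : u ∈ K := hK2 u huT
  set w0 := T.starProjection w with hw0
  have h1 : ∀ z ∈ T, inner ℝ (w - w0) z = (0 : ℝ) := fun z hz =>
    T.starProjection_inner_eq_zero w z hz
  have hw0T : w0 ∈ T := T.starProjection_apply_mem w
  have h2 : w - w0 ∈ A23 :=
    ⟨Submodule.sub_mem _ hw ⟨hw0T.1.2, hw0T.2⟩, hK2 _ h1⟩
  have h3 : inner ℝ u w = inner ℝ u (w - w0) := by
    rw [inner_sub_right, huT w0 hw0T, sub_zero]
  have h4 : ‖w - w0‖ ≤ ‖w‖ := by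
    have h5 : inner ℝ (w - w0) w0 = (0 : ℝ) := h1 w0 hw0T
    have h6 : w = w0 + (w - w0) := by abel
    have h7 : ‖w‖ ^ 2 = ‖w0‖ ^ 2 + ‖w - w0‖ ^ 2 := by
      conv_lhs => rw [h6]
      rw [norm_add_sq_real, real_inner_comm, h5]; ring
    apply le_of_sq_le_sq _ (norm_nonneg _)
    nlinarith [sq_nonneg ‖w0‖]
  rw [h3]
  refine (hM3.1 u ⟨hu, huK⟩ _ h2).trans ?_
  have := mul_le_mul_of_nonneg_left h4 (norm_nonneg u)
  linarith

end

end Pool.Agent.Lib.MP_dbb15e_gt
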