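import Mathlib

/-!
# Gluing two metric spaces along approximate identifications
-/

set_option autoImplicit false

namespace Pool.Agent.Lib.MP_dbb15e_gt

/-- A metric given by a function. -/
structure IsMet {E : Type*} (d : E → E → ℝ) : Prop where
  self : ∀ x, d x x = 0
  symm : ∀ x y, d x y = d y x
  tri : ∀ x y z, d x z ≤ d x y + d y z
  pos : ∀ x y, d x y = 0 → x = y

lemma IsMet.nonneg {E : Type*} {d : E → E → ℝ} (h : IsMet d) (x y : E) : 0 ≤ d x y := by
  have h1 := h.tri x y x
  rw [h.self, h.symm y x] at h1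
  linarith

section

variable {EA EB S : Type*} (dA : EA → EA → ℝ) (dB : EB → EB → ℝ) (iA : S → EA) (iB : S → EB)

/-- Test functions. -/
structure Compat (F : EA ⊕ EB → ℝ) : Prop where
  lipA : ∀ a a', |F (Sum.inl a) - F (Sum.inl a')| ≤ dA a a'
  lipB : ∀ b b', |F (Sum.inr b) - F (Sum.inr b')| ≤ dB b b'
  close : ∀ s, |F (Sum.inl (iA s)) - F (Sum.inr (iB s))| ≤ 1

/-- The glued metric. -/
noncomputable def gdist (x y : EA ⊕ EB) : ℝ :=
  ⨆ F : {F : EA ⊕ EB → ℝ // Compat dA dB iA iB F}, |F.1 x - F.1 y|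

variable {dA dB iA iB}

lemma gdist_bdd (s0 : S) (x y : EA ⊕ EB) :
    BddAbove (Set.range (fun F : {F : EA ⊕ EB → ℝ // Compat dA dB iA iB F} => |F.1 x - F.1 y|)) := by
  have h : ∀ x : EA ⊕ EB, ∃ C : ℝ, ∀ F : {F : EA ⊕ EB → ℝ // Compat dA dB iA iB F},
      |F.1 x - F.1 (Sum.inl (iA s0))| ≤ C := by
    rintro (a | b)
    · exact ⟨dA a (iA s0), fun F => F.2.lipA _ _⟩
    · refine ⟨dB b (iB s0) + 1, fun F => ?_⟩
      have h1 := F.2.lipB b (iB s0)
      have h2 := F.2.close s0
      rw [abs_le] at h1 h2 ⊢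
      constructor <;> linarith
  obtain ⟨C1, h1⟩ := h x
  obtain ⟨C2, h2⟩ := h y
  refine ⟨C1 + C2, ?_⟩
  rintro _ ⟨F, rfl⟩
  have h3 := h1 F
  have h4 := h2 F
  simp only
  rw [abs_le] at h3 h4 ⊢
  constructor <;> linarith

lemma le_gdist (s0 : S) (F : EA ⊕ EB → ℝ) (hF : Compat dA dB iA iB F) (x y : EA ⊕ EB) :
    |F x - F y| ≤ gdist dA dB iA iB x y :=
  le_ciSup (gdist_bdd s0 x y) (⟨F, hF⟩ : {F : EA ⊕ EB → ℝ // Compat dA dB iA iB F})

lemma compat_zero (hA : IsMet dA) (hB : IsMet dB) : Compat dA dB iA iB (fun _ => 0) where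
  lipA a a' := by simpa using hA.nonneg a a'
  lipB b b' := by simpa using hB.nonneg b b'
  close s := by simp

lemma gdist_le (hA : IsMet dA) (hB : IsMet dB) (x y : EA ⊕ EB) (C : ℝ)
    (h : ∀ F, Compat dA dB iA iB F → |F x - F y| ≤ C) : gdist dA dB iA iB x y ≤ C := by
  have : Nonempty {F : EA ⊕ EB → ℝ // Compat dA dB iA iB F} := ⟨⟨_, compat_zero hA hB⟩⟩
  exact ciSup_le fun F => h F.1 F.2

lemma gdist_isMet (s0 : S) (hA : IsMet dA) (hB : IsMet dB) : IsMet (gdist dA dB iA iB) where
  self x := by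
    apply le_antisymm
    · exact gdist_le hA hB x x 0 (fun F _ => by simp)
    · refine le_trans ?_ (le_gdist s0 _ (compat_zero hA hB) x x)
      simp
  symm x y := by
    unfold gdist
    congr 1
    funext F
    rw [abs_sub_comm]
  tri x y z := by
    apply gdist_le hA hB
    intro F hF
    have h1 := le_gdist s0 F hF x y
    have h2 := le_gdist s0 F hF y z
    have h3 : |F x - F z| ≤ |F x - F y| + |F y - F z| := abs_sub_le _ _ _
    linarith
  pos x y h := by
    rcases x with a | b <;> rcases y with a' | b'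
    · have hc : Compat dA dB iA iB (Sum.elim (fun z => min (dA z a) 1) (fun _ => 0)) := by
        constructor
        · intro z z'
          simp only [Sum.elim_inl]
          have h1 := hA.tri z z' a
          have h2 := hA.tri z' z a
          rw [hA.symm z' z] at h2
          have h3 := hA.nonneg z z'
          rw [abs_le]
          constructor
          · rcases min_cases (dA z a) 1 with ⟨e1, _⟩ | ⟨e1, _⟩ <;>
            rcases min_cases (dA z' a) 1 with ⟨e2, _⟩ | ⟨e2, _⟩ <;> rw [e1, e2] <;> linarith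
          · rcases min_cases (dA z a) 1 with ⟨e1, _⟩ | ⟨e1, _⟩ <;>
            rcases min_cases (dA z' a) 1 with ⟨e2, _⟩ | ⟨e2, _⟩ <;> rw [e1, e2] <;> linarith
        · intro z z'
          simpa using hB.nonneg z z'
        · intro s
          simp only [Sum.elim_inl, Sum.elim_inr, sub_zero]
          have h1 := hA.nonneg (iA s) a
          rw [abs_of_nonneg (le_min h1 zero_le_one)]
          exact min_le_right _ _
      have h1 := le_gdist s0 _ hc (Sum.inl a) (Sum.inl a')
      rw [h] at h1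
      simp only [Sum.elim_inl, hA.self] at h1
      have h2 : min (dA a' a) 1 = 0 := by
        have h3 := abs_nonpos_iff.1 h1
        have h4 : min (0:ℝ) 1 = 0 := by norm_num
        rw [h4] at h3
        linarith
      have h3 : dA a' a = 0 := by
        rcases min_cases (dA a' a) 1 with ⟨e1, _⟩ | ⟨e1, _⟩
        · rw [e1] at h2; exact h2
        · rw [e1] at h2; norm_num at h2
      rw [hA.pos _ _ h3]
    · exfalso
      have hc : Compat dA dB iA iB (Sum.elim (fun _ => 0) (fun _ => 1)) := by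
        constructor
        · intro z z'; simpa using hA.nonneg z z'
        · intro z z'; simpa using hB.nonneg z z'
        · intro s; simp
      have h1 := le_gdist s0 _ hc (Sum.inl a) (Sum.inr b')
      rw [h] at h1
      norm_num at h1
    · exfalso
      have hc : Compat dA dB iA iB (Sum.elim (fun _ => 0) (fun _ => 1)) := by
        constructor
        · intro z z'; simpa using hA.nonneg z z'
        · intro z z'; simpa using hB.nonneg z z'
        · intro s; simp
      have h1 := le_gdist s0 _ hc (Sum.inr b) (Sum.inl a')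
      rw [h] at h1
      norm_num at h1
    · have hc : Compat dA dB iA iB (Sum.elim (fun _ => 0) (fun z => min (dB z b) 1)) := by
        constructor
        · intro z z'
          simpa using hA.nonneg z z'
        · intro z z'
          simp only [Sum.elim_inr]
          have h1 := hB.tri z z' b
          have h2 := hB.tri z' z b
          rw [hB.symm z' z] at h2
          have h3 := hB.nonneg z z'
          rw [abs_le]
          constructor
          · rcases min_cases (dB z b) 1 with ⟨e1, _⟩ | ⟨e1, _⟩ <;>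
            rcases min_cases (dB z' b) 1 with ⟨e2, _⟩ | ⟨e2, _⟩ <;> rw [e1, e2] <;> linarith
          · rcases min_cases (dB z b) 1 with ⟨e1, _⟩ | ⟨e1, _⟩ <;>
            rcases min_cases (dB z' b) 1 with ⟨e2, _⟩ | ⟨e2, _⟩ <;> rw [e1, e2] <;> linarith
        · intro s
          simp only [Sum.elim_inl, Sum.elim_inr, zero_sub, abs_neg]
          have h1 := hB.nonneg (iB s) b
          rw [abs_of_nonneg (le_min h1 zero_le_one)]
          exact min_le_right _ _
      have h1 := le_gdist s0 _ hc (Sum.inr b) (Sum.inr b')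
      rw [h] at h1
      simp only [Sum.elim_inr, hB.self] at h1
      have h2 : min (dB b' b) 1 = 0 := by
        have h3 := abs_nonpos_iff.1 h1
        have h4 : min (0:ℝ) 1 = 0 := by norm_num
        rw [h4] at h3
        linarith
      have h3 : dB b' b = 0 := by
        rcases min_cases (dB b' b) 1 with ⟨e1, _⟩ | ⟨e1, _⟩
        · rw [e1] at h2; exact h2
        · rw [e1] at h2; norm_num at h2
      rw [hB.pos _ _ h3]

lemma gdist_inl_le (hA : IsMet dA) (hB : IsMet dB) (a a' : EA) :
    gdist dA dB iA iB (Sum.inl a) (Sum.inl a') ≤ dA a a' :=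
  gdist_le hA hB _ _ _ fun _ hF => hF.lipA _ _

lemma gdist_inr_le (hA : IsMet dA) (hB : IsMet dB) (b b' : EB) :
    gdist dA dB iA iB (Sum.inr b) (Sum.inr b') ≤ dB b b' :=
  gdist_le hA hB _ _ _ fun _ hF => hF.lipB _ _

lemma gdist_close (hA : IsMet dA) (hB : IsMet dB) (s : S) :
    gdist dA dB iA iB (Sum.inl (iA s)) (Sum.inr (iB s)) ≤ 1 :=
  gdist_le hA hB _ _ _ fun _ hF => hF.close _

/-- McShane extension along a map. -/
lemma mcshane {E : Type*} {d : E → E → ℝ} (hd : IsMet d) (s0 : S) (i : S → E) (ψ : S → ℝ)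
    (h : ∀ s s', |ψ s - ψ s'| ≤ d (i s) (i s')) :
    ∃ f : E → ℝ, (∀ x y, |f x - f y| ≤ d x y) ∧ ∀ s, f (i s) = ψ s := by
  have hne : Nonempty S := ⟨s0⟩
  have hbdd : ∀ x, BddBelow (Set.range (fun s => ψ s + d x (i s))) := by
    intro x
    refine ⟨ψ s0 - d x (i s0), ?_⟩
    rintro _ ⟨s, rfl⟩
    simp only
    have h1 := h s s0
    have h2 := hd.tri (i s) x (i s0)
    rw [hd.symm (i s) x] at h2
    rw [abs_le] at h1
    linarith
  have key : ∀ x y, (⨅ s, (ψ s + d x (i s))) - (⨅ s, (ψ s + d y (i s))) ≤ d x y := by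
    intro x y
    have : (⨅ s, (ψ s + d x (i s))) - d x y ≤ ⨅ s, (ψ s + d y (i s)) := by
      apply le_ciInf
      intro s
      have h1 := ciInf_le (hbdd x) s
      have h2 := hd.tri x y (i s)
      linarith
    linarith
  refine ⟨fun x => ⨅ s, (ψ s + d x (i s)), fun x y => ?_, fun s => ?_⟩
  · rw [abs_le]
    have h1 := key x y
    have h2 := key y x
    rw [hd.symm y x] at h2
    constructor <;> linarith
  · apply le_antisymm
    · have h1 := ciInf_le (hbdd (i s)) s
      rw [hd.self, add_zero] at h1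
      exact h1
    · apply le_ciInf
      intro s'
      have h1 := h s s'
      rw [abs_le] at h1
      linarith

/-- Lower bound for the glued metric from a function on the first side. -/
lemma le_gdist_left (s0 : S) (hB : IsMet dB) (f : EA → ℝ)
    (h1 : ∀ a a', |f a - f a'| ≤ dA a a') (h2 : ∀ s s', |f (iA s) - f (iA s')| ≤ dB (iB s) (iB s'))
    (a a' : EA) : |f a - f a'| ≤ gdist dA dB iA iB (Sum.inl a) (Sum.inl a') := by
  obtain ⟨g, hg1, hg2⟩ := mcshane hB s0 iB (fun s => f (iA s)) h2
  have hc : Compat dA dB iA iB (Sum.elim f g) :=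
    ⟨h1, hg1, fun s => by simp only [Sum.elim_inl, Sum.elim_inr, hg2]; simp⟩
  exact le_gdist s0 _ hc (Sum.inl a) (Sum.inl a')

/-- Lower bound for the glued metric from a function on the second side. -/
lemma le_gdist_right (s0 : S) (hA : IsMet dA) (f : EB → ℝ)
    (h1 : ∀ b b', |f b - f b'| ≤ dB b b') (h2 : ∀ s s', |f (iB s) - f (iB s')| ≤ dA (iA s) (iA s'))
    (b b' : EB) : |f b - f b'| ≤ gdist dA dB iA iB (Sum.inr b) (Sum.inr b') := by
  obtain ⟨g, hg1, hg2⟩ := mcshane hA s0 iA (fun s => f (iB s)) h2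
  have hc : Compat dA dB iA iB (Sum.elim g f) :=
    ⟨hg1, h1, fun s => by simp only [Sum.elim_inl, Sum.elim_inr, hg2]; simp⟩
  exact le_gdist s0 _ hc (Sum.inr b) (Sum.inr b')

/-- Lower bound for the glued metric from a function on the common part. -/
lemma le_gdist_common (s0 : S) (hA : IsMet dA) (hB : IsMet dB) (ψ : S → ℝ)
    (h1 : ∀ s s', |ψ s - ψ s'| ≤ dA (iA s) (iA s')) (h2 : ∀ s s', |ψ s - ψ s'| ≤ dB (iB s) (iB s'))
    (s s' : S) : |ψ s - ψ s'| ≤ gdist dA dB iA iB (Sum.inl (iA s)) (Sum.inl (iA s')) := by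
  obtain ⟨f, hf1, hf2⟩ := mcshane hA s0 iA ψ h1
  obtain ⟨g, hg1, hg2⟩ := mcshane hB s0 iB ψ h2
  have hc : Compat dA dB iA iB (Sum.elim f g) :=
    ⟨hf1, hg1, fun s => by simp only [Sum.elim_inl, Sum.elim_inr, hg2, hf2]; simp⟩
  have := le_gdist s0 _ hc (Sum.inl (iA s)) (Sum.inl (iA s'))
  simpa only [Sum.elim_inl, hf2] using this

end

end Pool.Agent.Lib.MP_dbb15e_gt
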