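import Mathlib

/-!
# One site geometry
-/

set_option autoImplicit false

namespace Pool.Agent.Lib.MP_dbb15e_gt

open Finset

/-- Squared distance of two multiples of basis vectors, `P` meaning that the basis vectors agree. -/
noncomputable def sqd (P : Prop) (α α' : ℝ) : ℝ := by
  classical exact if P then (α - α') ^ 2 else α ^ 2 + α' ^ 2

lemma sqd_pos {P : Prop} (h : P) (α α' : ℝ) : sqd P α α' = (α - α') ^ 2 := by
  unfold sqd; exact if_pos h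

lemma sqd_neg {P : Prop} (h : ¬ P) (α α' : ℝ) : sqd P α α' = α ^ 2 + α' ^ 2 := by
  unfold sqd; exact if_neg h

lemma sqd_nonneg (P : Prop) (α α' : ℝ) : 0 ≤ sqd P α α' := by
  by_cases h : P
  · rw [sqd_pos h]; positivity
  · rw [sqd_neg h]; positivity

lemma sum_ite_sq {U : Type*} [Fintype U] [DecidableEq U] (a a' : U) (α α' : ℝ) :
    ∑ u, ((if a = u then α else 0) - (if a' = u then α' else 0)) ^ 2 = sqd (a = a') α α' := by
  by_cases h : a = a'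
  · subst h
    rw [sqd_pos rfl]
    have : ∀ u, ((if a = u then α else 0) - (if a = u then α' else 0)) ^ 2
        = if a = u then (α - α') ^ 2 else 0 := by
      intro u; by_cases hu : a = u <;> simp [hu]
    rw [Finset.sum_congr rfl (fun u _ => this u)]
    simp
  · rw [sqd_neg h]
    have : ∀ u, ((if a = u then α else 0) - (if a' = u then α' else 0)) ^ 2
        = (if a = u then α ^ 2 else 0) + (if a' = u then α' ^ 2 else 0) := by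
      intro u
      by_cases hu : a = u
      · have hu' : ¬ a' = u := fun h' => h (hu.trans h'.symm)
        simp [hu, hu']
      · by_cases hu' : a' = u <;> simp [hu, hu']
    rw [Finset.sum_congr rfl (fun u _ => this u), Finset.sum_add_distrib]
    simp

/-- comparison of the two sides at one site -/
lemma site_compare (P Q R T : Prop) (h1 : P → R → (Q ∧ T)) (p n p' n' : ℝ) (_hp : 0 ≤ p) (hn : 0 ≤ n)
    (_hp' : 0 ≤ p') (hn' : 0 ≤ n') (hpn : p + n ≤ 1) (hpn' : p' + n' ≤ 1) :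
    sqd Q (1 - n) (1 - n') + sqd P n n' + sqd T (1 - p - n) (1 - p' - n')
      ≤ 5 * (sqd P (1 - p) (1 - p') + sqd Q p p' + sqd R (1 - p - n) (1 - p' - n')) := by
  have ht : 0 ≤ 1 - p - n := by linarith
  have ht' : 0 ≤ 1 - p' - n' := by linarith
  by_cases hP : P
  · by_cases hR : R
    · obtain ⟨hQ, hT⟩ := h1 hP hR
      rw [sqd_pos hP, sqd_pos hQ, sqd_pos hT, sqd_pos hP, sqd_pos hQ, sqd_pos hR]
      nlinarith [sq_nonneg ((p - p') - ((1 - p - n) - (1 - p' - n'))), sq_nonneg (p - p'),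
        sq_nonneg ((1 - p - n) - (1 - p' - n'))]
    · by_cases hQ : Q
      · have hT' : sqd T (1 - p - n) (1 - p' - n') ≤ (1 - p - n) ^ 2 + (1 - p' - n') ^ 2 := by
          by_cases hT : T
          · rw [sqd_pos hT]; nlinarith [mul_nonneg ht ht']
          · rw [sqd_neg hT]
        rw [sqd_pos hP, sqd_pos hQ, sqd_pos hP, sqd_pos hQ, sqd_neg hR]
        nlinarith [sq_nonneg ((p - p') - ((1 - p - n) - (1 - p' - n'))), sq_nonneg (p - p'),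
          sq_nonneg ((1 - p - n) - (1 - p' - n')), mul_nonneg ht ht']
      · have hT' : sqd T (1 - p - n) (1 - p' - n') ≤ (1 - p - n) ^ 2 + (1 - p' - n') ^ 2 := by
          by_cases hT : T
          · rw [sqd_pos hT]; nlinarith [mul_nonneg ht ht']
          · rw [sqd_neg hT]
        rw [sqd_pos hP, sqd_neg hQ, sqd_pos hP, sqd_neg hQ, sqd_neg hR]
        have e1 : (1 - n) ^ 2 ≤ 2 * (1 - p - n) ^ 2 + 2 * p ^ 2 := by
          nlinarith [sq_nonneg ((1 - p - n) - p)]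
        have e2 : (1 - n') ^ 2 ≤ 2 * (1 - p' - n') ^ 2 + 2 * p' ^ 2 := by
          nlinarith [sq_nonneg ((1 - p' - n') - p')]
        have e3 : (n - n') ^ 2 ≤ 2 * (p - p') ^ 2 + 2 * ((1 - p - n) ^ 2 + (1 - p' - n') ^ 2) := by
          nlinarith [sq_nonneg ((p - p') - ((1 - p - n) - (1 - p' - n'))), mul_nonneg ht ht']
        nlinarith [sq_nonneg (p - p'), sq_nonneg (1 - p - n), sq_nonneg (1 - p' - n'),
          sq_nonneg p, sq_nonneg p']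
  · have hT' : sqd T (1 - p - n) (1 - p' - n') ≤ (1 - p - n) ^ 2 + (1 - p' - n') ^ 2 := by
      by_cases hT : T
      · rw [sqd_pos hT]; nlinarith [mul_nonneg ht ht']
      · rw [sqd_neg hT]
    have hR0 := sqd_nonneg R (1 - p - n) (1 - p' - n')
    have a1 : (1 - p - n) ^ 2 + n ^ 2 ≤ (1 - p) ^ 2 := by nlinarith [mul_nonneg ht hn]
    have a2 : (1 - p' - n') ^ 2 + n' ^ 2 ≤ (1 - p') ^ 2 := by nlinarith [mul_nonneg ht' hn']
    by_cases hQ : Q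
    · rw [sqd_neg hP, sqd_pos hQ, sqd_neg hP, sqd_pos hQ]
      nlinarith [mul_nonneg hn hn', sq_nonneg (p - p'), sq_nonneg (1 - p), sq_nonneg (1 - p')]
    · rw [sqd_neg hP, sqd_neg hQ, sqd_neg hP, sqd_neg hQ]
      have e1 : (1 - n) ^ 2 ≤ 2 * (1 - p - n) ^ 2 + 2 * p ^ 2 := by
        nlinarith [sq_nonneg ((1 - p - n) - p)]
      have e2 : (1 - n') ^ 2 ≤ 2 * (1 - p' - n') ^ 2 + 2 * p' ^ 2 := by
        nlinarith [sq_nonneg ((1 - p' - n') - p')]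
      nlinarith [sq_nonneg (1 - p), sq_nonneg (1 - p'), sq_nonneg p, sq_nonneg p']

/-- Lipschitz property of multiples -/
lemma sqd_lip (P : Prop) (α α' κ φ φ' : ℝ) (hα : 0 ≤ α) (hα' : 0 ≤ α') (hφ : 0 ≤ φ) (hφ' : 0 ≤ φ')
    (hκ : φ ≤ κ) (hκ' : φ' ≤ κ) (h : P → φ = φ') :
    (α * φ - α' * φ') ^ 2 ≤ κ ^ 2 * sqd P α α' := by
  by_cases hP : P
  · rw [sqd_pos hP, ← h hP]
    have : (α * φ - α' * φ) ^ 2 = φ ^ 2 * (α - α') ^ 2 := by ring
    rw [this]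
    gcongr
  · rw [sqd_neg hP]
    have e1 : (α * φ) ^ 2 ≤ κ ^ 2 * α ^ 2 := by
      have : (α * φ) ^ 2 = φ ^ 2 * α ^ 2 := by ring
      rw [this]; gcongr
    have e2 : (α' * φ') ^ 2 ≤ κ ^ 2 * α' ^ 2 := by
      have : (α' * φ') ^ 2 = φ' ^ 2 * α' ^ 2 := by ring
      rw [this]; gcongr
    have e3 : (α * φ - α' * φ') ^ 2 ≤ (α * φ) ^ 2 + (α' * φ') ^ 2 := by
      nlinarith [mul_nonneg (mul_nonneg hα hφ) (mul_nonneg hα' hφ')]
    rw [mul_add]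
    linarith

lemma aux_mul_sq (t δ : ℝ) (h0 : 0 ≤ δ) (h1 : δ ≤ 1) : (t * δ) ^ 2 ≤ t ^ 2 := by
  have e : δ ^ 2 ≤ 1 := pow_le_one₀ h0 h1
  rw [mul_pow]
  exact mul_le_of_le_one_right (sq_nonneg t) e

lemma aux_sub_sq (a b : ℝ) (ha : 0 ≤ a) (hb : 0 ≤ b) : (a - b) ^ 2 ≤ a ^ 2 + b ^ 2 := by
  nlinarith [mul_nonneg ha hb]

lemma aux_sq_mono (a b : ℝ) (ha : 0 ≤ a) (hb : a ≤ b) : a ^ 2 ≤ b ^ 2 := pow_le_pow_left₀ ha hb 2

lemma aux_kappa (κ a : ℝ) (hκ : 1 ≤ κ) (ha : 0 ≤ a) : a ≤ κ ^ 2 * a := by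
  have : 1 ≤ κ ^ 2 := one_le_pow₀ hκ
  exact le_mul_of_one_le_left ha this

lemma aux_three (a b c : ℝ) : (a + b + c) ^ 2 ≤ 3 * (a ^ 2 + b ^ 2 + c ^ 2) := by
  nlinarith [sq_nonneg (a - b), sq_nonneg (b - c), sq_nonneg (a - c)]

lemma aux_two (a b : ℝ) : (a + b) ^ 2 ≤ 2 * a ^ 2 + 2 * b ^ 2 := by
  nlinarith [sq_nonneg (a - b)]

/-- The potential is Lipschitz on the second side. -/
lemma psi_lipB (P Q : Prop) (κ ψ ψ' χ χ' n n' : ℝ) (hn : 0 ≤ n) (hn' : 0 ≤ n') (hn1 : n ≤ 1)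
    (hn1' : n' ≤ 1) (hψ : 0 ≤ ψ) (hψ' : 0 ≤ ψ') (hχ : 0 ≤ χ) (hχ' : 0 ≤ χ')
    (k1 : ψ ≤ κ) (k2 : ψ' ≤ κ) (k3 : χ ≤ κ) (k4 : χ' ≤ κ)
    (hQ : Q → ψ = ψ') (hP : P → χ = χ') :
    (((1 - n) * ψ + n * χ) - ((1 - n') * ψ' + n' * χ')) ^ 2
      ≤ 2 * κ ^ 2 * (sqd Q (1 - n) (1 - n') + sqd P n n') := by
  have h1 := sqd_lip Q (1 - n) (1 - n') κ ψ ψ' (by linarith) (by linarith) hψ hψ' k1 k2 hQ
  have h2 := sqd_lip P n n' κ χ χ' hn hn' hχ hχ' k3 k4 hP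
  have h3 := aux_two ((1 - n) * ψ - (1 - n') * ψ') (n * χ - n' * χ')
  have h4 : ((1 - n) * ψ - (1 - n') * ψ') + (n * χ - n' * χ') =
      ((1 - n) * ψ + n * χ) - ((1 - n') * ψ' + n' * χ') := by ring
  rw [h4] at h3
  rw [mul_add]
  linarith

/-- The potential is Lipschitz on the first side. -/
lemma psi_lipA (P Q R : Prop) (κ ψ ψ' χ χ' p p' n n' : ℝ) (hp : 0 ≤ p) (hp' : 0 ≤ p')
    (hn : 0 ≤ n) (hn' : 0 ≤ n') (hpn : p + n ≤ 1) (hpn' : p' + n' ≤ 1)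
    (hψ : 0 ≤ ψ) (hψ' : 0 ≤ ψ') (hχ : 0 ≤ χ) (hχ' : 0 ≤ χ')
    (k1 : ψ ≤ κ) (k2 : ψ' ≤ κ) (k3 : χ ≤ κ) (k4 : χ' ≤ κ) (hκ : 1 ≤ κ)
    (c1 : χ ≤ ψ) (c2 : ψ ≤ χ + 1) (c1' : χ' ≤ ψ') (c2' : ψ' ≤ χ' + 1)
    (hQ : Q → ψ = ψ') (hP : P → χ = χ') (hPR : P → R → ψ = ψ') :
    (((1 - n) * ψ + n * χ) - ((1 - n') * ψ' + n' * χ')) ^ 2
      ≤ 6 * (κ ^ 2 * (sqd P (1 - p) (1 - p') + sqd Q p p') + sqd R (1 - p - n) (1 - p' - n')) := by
  have ht : 0 ≤ 1 - p - n := by linarith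
  have ht' : 0 ≤ 1 - p' - n' := by linarith
  have h1 := sqd_lip P (1 - p) (1 - p') κ χ χ' (by linarith) (by linarith) hχ hχ' k3 k4 hP
  have h2 := sqd_lip Q p p' κ ψ ψ' hp hp' hψ hψ' k1 k2 hQ
  set t : ℝ := 1 - p - n with htdef
  set t' : ℝ := 1 - p' - n' with htdef'
  set δ : ℝ := ψ - χ with hδ
  set δ' : ℝ := ψ' - χ' with hδ'
  have d0 : 0 ≤ δ := by linarith
  have d1 : δ ≤ 1 := by linarith
  have d0' : 0 ≤ δ' := by linarith
  have d1' : δ' ≤ 1 := by linarith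
  have hsP := sqd_nonneg P (1 - p) (1 - p')
  have hsQ := sqd_nonneg Q p p'
  have hsR := sqd_nonneg R t t'
  have h3 : (t * δ - t' * δ') ^ 2 ≤ sqd R t t' + κ ^ 2 * sqd P (1 - p) (1 - p') := by
    have b1 : (t * δ) ^ 2 ≤ t ^ 2 := aux_mul_sq t δ d0 d1
    have b2 : (t' * δ') ^ 2 ≤ t' ^ 2 := aux_mul_sq t' δ' d0' d1'
    have b3 : (t * δ - t' * δ') ^ 2 ≤ t ^ 2 + t' ^ 2 :=
      (aux_sub_sq _ _ (mul_nonneg ht d0) (mul_nonneg ht' d0')).trans (add_le_add b1 b2)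
    by_cases hR : R
    · by_cases hP' : P
      · have e : δ = δ' := by rw [hδ, hδ', hPR hP' hR, hP hP']
        have h4 := sqd_lip R t t' 1 δ δ' ht ht' d0 d0' d1 d1' (fun _ => e)
        have h6 : 0 ≤ κ ^ 2 * sqd P (1 - p) (1 - p') := by positivity
        linarith
      · have e : sqd P (1 - p) (1 - p') = (1 - p) ^ 2 + (1 - p') ^ 2 := sqd_neg hP' _ _
        have e1 : t ^ 2 ≤ (1 - p) ^ 2 := aux_sq_mono _ _ ht (by rw [htdef]; linarith)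
        have e2 : t' ^ 2 ≤ (1 - p') ^ 2 := aux_sq_mono _ _ ht' (by rw [htdef']; linarith)
        have e3 : (1 - p) ^ 2 + (1 - p') ^ 2 ≤ κ ^ 2 * ((1 - p) ^ 2 + (1 - p') ^ 2) :=
          aux_kappa _ _ hκ (by positivity)
        rw [e]
        linarith
    · rw [sqd_neg hR]
      have h6 : 0 ≤ κ ^ 2 * sqd P (1 - p) (1 - p') := by positivity
      linarith
  have h4 : ((1 - n) * ψ + n * χ) - ((1 - n') * ψ' + n' * χ')
      = ((1 - p) * χ - (1 - p') * χ') + (p * ψ - p' * ψ') + (t * δ - t' * δ') := by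
    rw [htdef, htdef', hδ, hδ']; ring
  rw [h4]
  refine (aux_three _ _ _).trans ?_
  have h6 : 0 ≤ κ ^ 2 * sqd Q p p' := by positivity
  rw [mul_add (κ ^ 2)]
  linarith

end Pool.Agent.Lib.MP_dbb15e_gt
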