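import Mathlib
import Pool.Agent.Lib.MP_dbb15e_gt.Site
import Pool.Agent.Lib.MP_dbb15e_gt.Glue

/-!
# One side of the construction
-/

set_option autoImplicit false

namespace Pool.Agent.Lib.MP_dbb15e_gt

open Finset

section norms

variable {N : ℕ}

/-- The norm on the second component. -/
noncomputable def nn (θ : ℝ) (w : Fin N → ℝ) : ℝ :=
  max (θ * (∑ j, |w j|) / (N * Real.sqrt N)) (Real.sqrt (∑ j, w j ^ 2) / N)

lemma nn_nonneg (θ : ℝ) (w : Fin N → ℝ) : 0 ≤ nn θ w :=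
  le_max_of_le_right (by positivity)

lemma nn_zero (θ : ℝ) : nn θ (0 : Fin N → ℝ) = 0 := by
  simp [nn]

lemma nn_neg (θ : ℝ) (w : Fin N → ℝ) : nn θ (-w) = nn θ w := by
  simp [nn]

lemma sqrt_sum_sq_add (w w' : Fin N → ℝ) :
    Real.sqrt (∑ j, (w j + w' j) ^ 2) ≤ Real.sqrt (∑ j, w j ^ 2) + Real.sqrt (∑ j, w' j ^ 2) := by
  have h := norm_add_le (WithLp.toLp 2 w : EuclideanSpace ℝ (Fin N)) (WithLp.toLp 2 w')
  rw [EuclideanSpace.norm_eq, EuclideanSpace.norm_eq, EuclideanSpace.norm_eq] at h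
  simpa [Real.norm_eq_abs, sq_abs] using h

lemma nn_add (θ : ℝ) (hθ : 0 ≤ θ) (w w' : Fin N → ℝ) : nn θ (w + w') ≤ nn θ w + nn θ w' := by
  unfold nn
  apply max_le
  · have h1 : θ * (∑ j, |(w + w') j|) / (N * Real.sqrt N)
        ≤ θ * (∑ j, |w j|) / (N * Real.sqrt N) + θ * (∑ j, |w' j|) / (N * Real.sqrt N) := by
      rw [← add_div, ← mul_add, ← Finset.sum_add_distrib]
      gcongr with j
      exact abs_add_le _ _
    exact h1.trans (add_le_add (le_max_left _ _) (le_max_left _ _))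
  · have h1 : Real.sqrt (∑ j, (w + w') j ^ 2) / N
        ≤ Real.sqrt (∑ j, w j ^ 2) / N + Real.sqrt (∑ j, w' j ^ 2) / N := by
      rw [← add_div]
      gcongr
      exact sqrt_sum_sq_add w w'
    exact h1.trans (add_le_add (le_max_right _ _) (le_max_right _ _))

lemma nn_eq_zero (hN : 0 < N) (θ : ℝ) (w : Fin N → ℝ) (h : nn θ w = 0) : w = 0 := by
  have hN0 : (0 : ℝ) < N := by exact_mod_cast hN
  have h1 : Real.sqrt (∑ j, w j ^ 2) / N ≤ 0 := by rw [← h]; exact le_max_right _ _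
  have h2 : Real.sqrt (∑ j, w j ^ 2) ≤ 0 := by
    rw [div_le_iff₀ hN0] at h1; linarith
  have h3 : ∑ j, w j ^ 2 = 0 := by
    have h4 := Real.sqrt_eq_zero'.1 (le_antisymm h2 (Real.sqrt_nonneg _))
    exact le_antisymm h4 (Finset.sum_nonneg fun j _ => sq_nonneg _)
  funext j
  have h5 := (Finset.sum_eq_zero_iff_of_nonneg (fun j _ => sq_nonneg (w j))).1 h3 j (mem_univ j)
  simpa using h5

/-- l1 against l2 -/
lemma sum_abs_le (w : Fin N → ℝ) : ∑ j, |w j| ≤ Real.sqrt N * Real.sqrt (∑ j, w j ^ 2) := by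
  rw [← Real.sqrt_mul (Nat.cast_nonneg N)]
  apply Real.le_sqrt_of_sq_le
  have h := Finset.sum_mul_sq_le_sq_mul_sq Finset.univ (fun _ : Fin N => (1 : ℝ)) (fun j => |w j|)
  simpa using h

lemma nn_le (hN : 0 < N) (θ : ℝ) (hθ : 1 ≤ θ) (w : Fin N → ℝ) :
    nn θ w ≤ θ / N * Real.sqrt (∑ j, w j ^ 2) := by
  have hN0 : (0 : ℝ) < N := by exact_mod_cast hN
  have hs : 0 < Real.sqrt N := Real.sqrt_pos.2 hN0
  unfold nn
  apply max_le
  · rw [div_le_iff₀ (by positivity)]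
    calc θ * (∑ j, |w j|) ≤ θ * (Real.sqrt N * Real.sqrt (∑ j, w j ^ 2)) := by
          gcongr; exact sum_abs_le w
      _ = θ / N * Real.sqrt (∑ j, w j ^ 2) * (N * Real.sqrt N) := by
          field_simp
  · rw [div_eq_mul_inv, div_eq_mul_inv, mul_comm]
    have : 0 ≤ (N : ℝ)⁻¹ * Real.sqrt (∑ j, w j ^ 2) := by positivity
    calc (N : ℝ)⁻¹ * Real.sqrt (∑ j, w j ^ 2)
        ≤ θ * ((N : ℝ)⁻¹ * Real.sqrt (∑ j, w j ^ 2)) := by nlinarith
      _ = _ := by ring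

lemma le_nn_two (θ : ℝ) (w : Fin N → ℝ) : Real.sqrt (∑ j, w j ^ 2) / N ≤ nn θ w := le_max_right _ _

lemma le_nn_one (θ : ℝ) (w : Fin N → ℝ) : θ * (∑ j, |w j|) / (N * Real.sqrt N) ≤ nn θ w :=
  le_max_left _ _

lemma nn_single (hN : 0 < N) (θ : ℝ) (hθ0 : 0 ≤ θ) (hθ : θ ≤ Real.sqrt N) (j : Fin N) (t : ℝ)
    (ht : 0 ≤ t) : nn θ (Pi.single j t) ≤ t / N := by
  have hN0 : (0 : ℝ) < N := by exact_mod_cast hN
  have hs : 0 < Real.sqrt N := Real.sqrt_pos.2 hN0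
  have h1 : ∑ k, |(Pi.single j t : Fin N → ℝ) k| = t := by
    have : ∀ k, |(Pi.single j t : Fin N → ℝ) k| = if k = j then t else 0 := by
      intro k
      rw [Pi.single_apply]
      split_ifs with h
      · exact abs_of_nonneg ht
      · exact abs_zero
    rw [Finset.sum_congr rfl (fun k _ => this k)]
    simp
  have h2 : ∑ k, (Pi.single j t : Fin N → ℝ) k ^ 2 = t ^ 2 := by
    have : ∀ k, (Pi.single j t : Fin N → ℝ) k ^ 2 = if k = j then t ^ 2 else 0 := by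
      intro k
      rw [Pi.single_apply]
      split_ifs with h
      · rfl
      · ring
    rw [Finset.sum_congr rfl (fun k _ => this k)]
    simp
  unfold nn
  rw [h1, h2, Real.sqrt_sq ht]
  apply max_le _ le_rfl
  rw [div_le_div_iff₀ (by positivity) hN0]
  calc θ * t * N ≤ Real.sqrt N * t * N := by gcongr
    _ = t * (N * Real.sqrt N) := by ring

lemma nn_box (hN : 0 < N) (θ : ℝ) (hθ0 : 0 ≤ θ) (hθ : θ ≤ Real.sqrt N) (z : Fin N → ℝ)
    (h0 : ∀ j, 0 ≤ z j) (h1 : ∀ j, z j ≤ 1) : nn θ z ≤ 1 := by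
  have hN0 : (0 : ℝ) < N := by exact_mod_cast hN
  have hN1 : (1 : ℝ) ≤ N := by exact_mod_cast hN
  have hs : 0 < Real.sqrt N := Real.sqrt_pos.2 hN0
  unfold nn
  apply max_le
  · rw [div_le_one (by positivity)]
    have : ∑ j, |z j| ≤ N := by
      have : ∑ j, |z j| ≤ ∑ j : Fin N, (1 : ℝ) :=
        Finset.sum_le_sum fun j _ => by rw [abs_of_nonneg (h0 j)]; exact h1 j
      simpa using this
    calc θ * (∑ j, |z j|) ≤ Real.sqrt N * N := by gcongr
      _ = N * Real.sqrt N := by ring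
  · rw [div_le_one hN0]
    have : ∑ j, z j ^ 2 ≤ N := by
      have : ∑ j, z j ^ 2 ≤ ∑ j : Fin N, (1 : ℝ) :=
        Finset.sum_le_sum fun j _ => by nlinarith [h0 j, h1 j]
      simpa using this
    calc Real.sqrt (∑ j, z j ^ 2) ≤ Real.sqrt N := Real.sqrt_le_sqrt this
      _ ≤ N := by
        rw [Real.sqrt_le_left hN0.le]
        nlinarith

end norms

section metric

variable {E : Type*} [NormedAddCommGroup E] {N : ℕ}

/-- The metric of a side. -/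
noncomputable def dS (K θ : ℝ) (z z' : E × (Fin N → ℝ)) : ℝ := K * ‖z.1 - z'.1‖ + nn θ (z.2 - z'.2)

lemma dS_isMet (hN : 0 < N) (K θ : ℝ) (hK : 0 < K) (hθ : 0 ≤ θ) :
    IsMet (dS (E := E) (N := N) K θ) where
  self x := by simp [dS, nn_zero]
  symm x y := by
    unfold dS
    rw [norm_sub_rev, ← nn_neg, neg_sub]
  tri x y z := by
    unfold dS
    have h1 : ‖x.1 - z.1‖ ≤ ‖x.1 - y.1‖ + ‖y.1 - z.1‖ := norm_sub_le_norm_sub_add_norm_sub _ _ _
    have h2 := nn_add θ hθ (x.2 - y.2) (y.2 - z.2)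
    rw [sub_add_sub_cancel] at h2
    nlinarith
  pos x y h := by
    unfold dS at h
    have h1 := nn_nonneg θ (x.2 - y.2)
    have h2 : 0 ≤ K * ‖x.1 - y.1‖ := by positivity
    have h3 : K * ‖x.1 - y.1‖ = 0 := by linarith
    have h4 : nn θ (x.2 - y.2) = 0 := by linarith
    have h5 : ‖x.1 - y.1‖ = 0 := by
      rcases mul_eq_zero.1 h3 with h | h
      · exact absurd h hK.ne'
      · exact h
    have h6 := nn_eq_zero hN θ _ h4
    apply Prod.ext
    · exact sub_eq_zero.1 (norm_eq_zero.1 h5)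
    · exact sub_eq_zero.1 h6

end metric

section embedding

variable {I : Type*} [Fintype I] {N : ℕ}

/-- The Euclidean embedding of a side. -/
noncomputable def FS (K θ : ℝ) (z : EuclideanSpace ℝ I × (Fin N → ℝ)) :
    EuclideanSpace ℝ (I ⊕ Fin N) :=
  WithLp.toLp 2 (Sum.elim (fun k => K * z.1 k) (fun j => θ / N * z.2 j))

lemma FS_norm_sq (K θ : ℝ) (z z' : EuclideanSpace ℝ I × (Fin N → ℝ)) :
    ‖FS K θ z - FS K θ z'‖ ^ 2 =
      K ^ 2 * ‖z.1 - z'.1‖ ^ 2 + (θ / N) ^ 2 * ∑ j, (z.2 j - z'.2 j) ^ 2 := by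
  rw [EuclideanSpace.norm_sq_eq, EuclideanSpace.norm_sq_eq, Fintype.sum_sum_type]
  congr 1
  · rw [Finset.mul_sum]
    refine Finset.sum_congr rfl fun k _ => ?_
    simp only [FS, PiLp.sub_apply, Sum.elim_inl, Real.norm_eq_abs, sq_abs]
    ring
  · rw [Finset.mul_sum]
    refine Finset.sum_congr rfl fun k _ => ?_
    simp only [FS, PiLp.sub_apply, Sum.elim_inr, Real.norm_eq_abs, sq_abs]
    ring

lemma FS_lower (hN : 0 < N) (K θ : ℝ) (hK : 0 < K) (hθ : 1 ≤ θ)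
    (z z' : EuclideanSpace ℝ I × (Fin N → ℝ)) :
    dS K θ z z' ≤ Real.sqrt 2 * ‖FS K θ z - FS K θ z'‖ := by
  have hN0 : (0 : ℝ) < N := by exact_mod_cast hN
  have h1 := nn_le hN θ hθ (z.2 - z'.2)
  have h2 := FS_norm_sq K θ z z'
  set A : ℝ := K * ‖z.1 - z'.1‖ with hA
  set B : ℝ := θ / N * Real.sqrt (∑ j, (z.2 - z'.2) j ^ 2) with hB
  have hA0 : 0 ≤ A := by positivity
  have hB0 : 0 ≤ B := by positivity
  have hB2 : B ^ 2 = (θ / N) ^ 2 * ∑ j, (z.2 j - z'.2 j) ^ 2 := by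
    rw [hB, mul_pow, Real.sq_sqrt (Finset.sum_nonneg fun j _ => sq_nonneg _)]
    rfl
  have h3 : ‖FS K θ z - FS K θ z'‖ ^ 2 = A ^ 2 + B ^ 2 := by
    rw [h2, hB2, hA]; ring
  have h4 : dS K θ z z' ≤ A + B := by
    unfold dS; linarith
  refine h4.trans ?_
  apply le_of_sq_le_sq _ (by positivity)
  rw [mul_pow, Real.sq_sqrt (by norm_num), h3]
  nlinarith [sq_nonneg (A - B)]

lemma FS_upper (hN : 0 < N) (K θ : ℝ) (hK : 0 < K) (hθ : 1 ≤ θ)
    (z z' : EuclideanSpace ℝ I × (Fin N → ℝ)) :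
    ‖FS K θ z - FS K θ z'‖ ≤ θ * dS K θ z z' := by
  have hN0 : (0 : ℝ) < N := by exact_mod_cast hN
  have h1 := le_nn_two θ (z.2 - z'.2)
  have h2 := FS_norm_sq K θ z z'
  set A : ℝ := K * ‖z.1 - z'.1‖ with hA
  set B : ℝ := Real.sqrt (∑ j, (z.2 - z'.2) j ^ 2) / N with hB
  have hA0 : 0 ≤ A := by positivity
  have hB0 : 0 ≤ B := by positivity
  have hB2 : B ^ 2 = (1 / N) ^ 2 * ∑ j, (z.2 j - z'.2 j) ^ 2 := by
    rw [hB, div_pow, Real.sq_sqrt (Finset.sum_nonneg fun j _ => sq_nonneg _)]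
    rw [div_pow, one_pow, div_mul_eq_mul_div, one_mul]
    rfl
  have h3 : ‖FS K θ z - FS K θ z'‖ ^ 2 = A ^ 2 + θ ^ 2 * B ^ 2 := by
    rw [h2, hB2, hA]; ring
  have h4 : A + B ≤ dS K θ z z' := by
    unfold dS; linarith
  have h5 : θ * (A + B) ≤ θ * dS K θ z z' := by gcongr
  refine le_trans ?_ h5
  apply le_of_sq_le_sq _ (by positivity)
  rw [h3]
  have : 0 ≤ θ ^ 2 * (A * B) := by positivity
  have h6 : A ^ 2 ≤ θ ^ 2 * A ^ 2 := by
    have : 1 ≤ θ ^ 2 := by nlinarith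
    nlinarith [sq_nonneg A]
  nlinarith

end embedding

end Pool.Agent.Lib.MP_dbb15e_gt
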