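import Mathlib
import Pool.Agent.Lib.MP_dbb15e_gt.Side

/-!
# The common part and its two embeddings
-/

set_option autoImplicit false

namespace Pool.Agent.Lib.MP_dbb15e_gt

open Finset

/-- positive part of the signed position -/
noncomputable def pp (σ s : ℝ) : ℝ := max (σ * s) 0

lemma pp_nonneg (σ s : ℝ) : 0 ≤ pp σ s := le_max_right _ _

lemma pp_add (σ s : ℝ) (hσ : σ = 1 ∨ σ = -1) : pp σ s + pp (-σ) s = |s| := by
  unfold pp
  rcases hσ with rfl | rfl
  · rcases le_total 0 s with h | h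
    · rw [abs_of_nonneg h, max_eq_left (by linarith), max_eq_right (by linarith)]; ring
    · rw [abs_of_nonpos h, max_eq_right (by linarith), max_eq_left (by linarith)]; ring
  · rcases le_total 0 s with h | h
    · rw [abs_of_nonneg h, max_eq_right (by linarith), max_eq_left (by linarith)]; ring
    · rw [abs_of_nonpos h, max_eq_left (by linarith), max_eq_right (by linarith)]; ring

section

variable {ι V U W Λ : Type*} [Fintype ι] [Fintype U] [Fintype W] [Fintype Λ]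
  {N : ℕ}

open Classical in
/-- first component of the embedding of the common part -/
noncomputable def phi (c : V → U) (c' : V → W) (σ : ℝ) (x : ι → V × ℝ) :
    EuclideanSpace ℝ (ι × (U ⊕ W)) :=
  WithLp.toLp 2 fun k => Sum.elim (fun u => if c (x k.1).1 = u then 1 - pp σ (x k.1).2 else 0)
    (fun w => if c' (x k.1).1 = w then pp σ (x k.1).2 else 0) k.2

open Classical in
/-- coefficients of the second component -/
noncomputable def tv (l : V → Λ) (x : ι → V × ℝ) : ι × Λ → ℝ :=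
  fun k => if l (x k.1).1 = k.2 then 1 - |(x k.1).2| else 0

/-- second component of the embedding of the common part -/
noncomputable def wv (l : V → Λ) (r : ι × Λ → Fin N → ℝ) (x : ι → V × ℝ) : Fin N → ℝ :=
  fun j => ∑ k, tv l x k * r k j

/-- the embedding of the common part -/
noncomputable def iS (c : V → U) (c' : V → W) (l : V → Λ) (σ : ℝ) (r : ι × Λ → Fin N → ℝ)
    (x : ι → V × ℝ) : EuclideanSpace ℝ (ι × (U ⊕ W)) × (Fin N → ℝ) :=
  (phi c c' σ x, wv l r x)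

lemma phi_dist (c : V → U) (c' : V → W) (σ : ℝ) (x x' : ι → V × ℝ) :
    ‖phi c c' σ x - phi c c' σ x'‖ ^ 2 =
      ∑ i, (sqd (c (x i).1 = c (x' i).1) (1 - pp σ (x i).2) (1 - pp σ (x' i).2)
        + sqd (c' (x i).1 = c' (x' i).1) (pp σ (x i).2) (pp σ (x' i).2)) := by
  classical
  rw [EuclideanSpace.norm_sq_eq, Fintype.sum_prod_type]
  refine Finset.sum_congr rfl fun i _ => ?_
  rw [Fintype.sum_sum_type]
  congr 1
  · rw [← sum_ite_sq]
    refine Finset.sum_congr rfl fun u _ => ?_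
    simp only [phi, PiLp.sub_apply, Sum.elim_inl, Real.norm_eq_abs, sq_abs]
  · rw [← sum_ite_sq]
    refine Finset.sum_congr rfl fun u _ => ?_
    simp only [phi, PiLp.sub_apply, Sum.elim_inr, Real.norm_eq_abs, sq_abs]

lemma tv_dist (l : V → Λ) (x x' : ι → V × ℝ) :
    ∑ k, (tv l x k - tv l x' k) ^ 2 =
      ∑ i, sqd (l (x i).1 = l (x' i).1) (1 - |(x i).2|) (1 - |(x' i).2|) := by
  classical
  rw [Fintype.sum_prod_type]
  refine Finset.sum_congr rfl fun i _ => ?_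
  rw [← sum_ite_sq]
  refine Finset.sum_congr rfl fun u _ => ?_
  simp only [tv]

/-- comparison of the two sides on the common part -/
lemma side_compare (cA : V → U) (cB : V → W) (lA lB : V → Λ) (σ : ℝ) (hσ : σ = 1 ∨ σ = -1)
    (hA : ∀ v v', cA v = cA v' → lA v = lA v' → v = v')
    (x x' : ι → V × ℝ) (hx : ∀ i, |(x i).2| ≤ 1) (hx' : ∀ i, |(x' i).2| ≤ 1) :
    ‖phi cB cA (-σ) x - phi cB cA (-σ) x'‖ ^ 2 + ∑ k, (tv lB x k - tv lB x' k) ^ 2 ≤
      5 * (‖phi cA cB σ x - phi cA cB σ x'‖ ^ 2 + ∑ k, (tv lA x k - tv lA x' k) ^ 2) := by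
  rw [phi_dist, phi_dist, tv_dist, tv_dist, ← Finset.sum_add_distrib, ← Finset.sum_add_distrib,
    Finset.mul_sum]
  refine Finset.sum_le_sum fun i _ => ?_
  have e1 := pp_add σ (x i).2 hσ
  have e2 := pp_add σ (x' i).2 hσ
  have h := site_compare (cA (x i).1 = cA (x' i).1) (cB (x i).1 = cB (x' i).1)
    (lA (x i).1 = lA (x' i).1) (lB (x i).1 = lB (x' i).1)
    (fun h1 h2 => by have := hA _ _ h1 h2; rw [this]; exact ⟨rfl, rfl⟩)
    (pp σ (x i).2) (pp (-σ) (x i).2) (pp σ (x' i).2) (pp (-σ) (x' i).2)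
    (pp_nonneg _ _) (pp_nonneg _ _) (pp_nonneg _ _) (pp_nonneg _ _)
    (by rw [e1]; exact hx i) (by rw [e2]; exact hx' i)
  have e3 : 1 - pp σ (x i).2 - pp (-σ) (x i).2 = 1 - |(x i).2| := by rw [← e1]; ring
  have e4 : 1 - pp σ (x' i).2 - pp (-σ) (x' i).2 = 1 - |(x' i).2| := by rw [← e2]; ring
  rw [e3, e4] at h
  exact h

/-- Properties of the matrix `r` that are used. -/
structure GoodMat (r : ι × Λ → Fin N → ℝ) : Prop where
  lower : ∀ x : ι × Λ → ℝ, (N : ℝ) / 40 * Real.sqrt (∑ l, x l ^ 2) ≤ ∑ j, |∑ l, x l * r l j|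
  upper : ∀ x : ι × Λ → ℝ, ∑ j, (∑ l, x l * r l j) ^ 2 ≤ 48 * N * ∑ l, x l ^ 2

lemma wv_sub (l : V → Λ) (r : ι × Λ → Fin N → ℝ) (x x' : ι → V × ℝ) (j : Fin N) :
    (wv l r x - wv l r x') j = ∑ k, (tv l x k - tv l x' k) * r k j := by
  simp only [Pi.sub_apply, wv]
  rw [← Finset.sum_sub_distrib]
  exact Finset.sum_congr rfl fun k _ => by ring

/-- lower bounds for the metric of a side on the common part -/
lemma dS_lower (hN : 0 < N) (c : V → U) (c' : V → W) (l : V → Λ) (σ : ℝ) (r : ι × Λ → Fin N → ℝ)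
    (hr : GoodMat r) (K θ : ℝ) (hK : 0 ≤ K) (hθ : 0 ≤ θ) (x x' : ι → V × ℝ) :
    K * ‖phi c c' σ x - phi c c' σ x'‖ ≤ dS K θ (iS c c' l σ r x) (iS c c' l σ r x') ∧
    θ / (40 * Real.sqrt N) * Real.sqrt (∑ k, (tv l x k - tv l x' k) ^ 2)
      ≤ dS K θ (iS c c' l σ r x) (iS c c' l σ r x') := by
  have hN0 : (0 : ℝ) < N := by exact_mod_cast hN
  have hs : 0 < Real.sqrt N := Real.sqrt_pos.2 hN0
  constructor
  · unfold dS iS
    simp only
    have := nn_nonneg θ (wv l r x - wv l r x')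
    linarith
  · unfold dS iS
    simp only
    have h0 : 0 ≤ K * ‖phi c c' σ x - phi c c' σ x'‖ := by positivity
    have h1 := le_nn_one θ (wv l r x - wv l r x')
    have h2 := hr.lower (fun k => tv l x k - tv l x' k)
    have h3 : ∑ j, |(wv l r x - wv l r x') j| = ∑ j, |∑ k, (tv l x k - tv l x' k) * r k j| :=
      Finset.sum_congr rfl fun j _ => by rw [wv_sub]
    rw [← h3] at h2
    have h4 : θ / (40 * Real.sqrt N) * Real.sqrt (∑ k, (tv l x k - tv l x' k) ^ 2)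
        ≤ θ * (∑ j, |(wv l r x - wv l r x') j|) / (N * Real.sqrt N) := by
      rw [le_div_iff₀ (by positivity)]
      calc θ / (40 * Real.sqrt N) * Real.sqrt (∑ k, (tv l x k - tv l x' k) ^ 2) * (N * Real.sqrt N)
          = θ * ((N : ℝ) / 40 * Real.sqrt (∑ k, (tv l x k - tv l x' k) ^ 2)) := by
            field_simp
        _ ≤ _ := by gcongr
    linarith

/-- the Euclidean embedding of one side is Lipschitz for the other metric on the common part -/
lemma FS_other (hN : 0 < N) (cA : V → U) (cB : V → W) (lA lB : V → Λ) (σ : ℝ)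
    (hσ : σ = 1 ∨ σ = -1)
    (hB : ∀ v v', cB v = cB v' → lB v = lB v' → v = v') (r : ι × Λ → Fin N → ℝ) (hr : GoodMat r)
    (K θ θ' : ℝ) (hK : 1 ≤ K) (hθ : 1 ≤ θ) (hθN : θ ≤ Real.sqrt N) (hθ' : 0 ≤ θ')
    (hθθ : θ * θ' = K * Real.sqrt N)
    (x x' : ι → V × ℝ) (hx : ∀ i, |(x i).2| ≤ 1) (hx' : ∀ i, |(x' i).2| ≤ 1) :
    ‖FS K θ (iS cA cB lA σ r x) - FS K θ (iS cA cB lA σ r x')‖ ≤
      620 * θ * dS K θ' (iS cB cA lB (-σ) r x) (iS cB cA lB (-σ) r x') := by
  have hN0 : (0 : ℝ) < N := by exact_mod_cast hN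
  have hs : 0 < Real.sqrt N := Real.sqrt_pos.2 hN0
  have hss : Real.sqrt N ^ 2 = N := Real.sq_sqrt hN0.le
  obtain ⟨l1, l2⟩ := dS_lower hN cB cA lB (-σ) r hr K θ' (by linarith) hθ' x x'
  have hcmp := side_compare cB cA lB lA (-σ) (by rcases hσ with h | h <;> simp [h]) hB x x' hx hx'
  rw [neg_neg] at hcmp
  set d : ℝ := dS K θ' (iS cB cA lB (-σ) r x) (iS cB cA lB (-σ) r x') with hd
  set a2 : ℝ := ‖phi cA cB σ x - phi cA cB σ x'‖ ^ 2 with ha2
  set as2 : ℝ := ∑ k, (tv lA x k - tv lA x' k) ^ 2 with has2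
  set b : ℝ := ‖phi cB cA (-σ) x - phi cB cA (-σ) x'‖ with hb
  set bs2 : ℝ := ∑ k, (tv lB x k - tv lB x' k) ^ 2 with hbs2
  have hbs0 : 0 ≤ bs2 := Finset.sum_nonneg fun k _ => sq_nonneg _
  have has0 : 0 ≤ as2 := Finset.sum_nonneg fun k _ => sq_nonneg _
  have ha0 : 0 ≤ a2 := by positivity
  have hb0 : 0 ≤ b := norm_nonneg _
  have hK0 : 0 < K := by linarith
  have hd0 : 0 ≤ d := le_trans (by positivity) l1
  -- upper bound of the left side
  have hF := FS_norm_sq K θ (iS cA cB lA σ r x) (iS cA cB lA σ r x')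
  have hw : ∑ j, ((iS cA cB lA σ r x).2 j - (iS cA cB lA σ r x').2 j) ^ 2 ≤ 48 * N * as2 := by
    have h := hr.upper (fun k => tv lA x k - tv lA x' k)
    refine le_trans (le_of_eq ?_) h
    refine Finset.sum_congr rfl fun j _ => ?_
    rw [← wv_sub]
    rfl
  have hF2 : ‖FS K θ (iS cA cB lA σ r x) - FS K θ (iS cA cB lA σ r x')‖ ^ 2
      ≤ 48 * K ^ 2 * (a2 + as2) := by
    rw [hF]
    have e1 : (θ / N) ^ 2 * ∑ j, ((iS cA cB lA σ r x).2 j - (iS cA cB lA σ r x').2 j) ^ 2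
        ≤ (θ / N) ^ 2 * (48 * N * as2) := by gcongr
    have e2 : (θ / N) ^ 2 * (48 * N * as2) = 48 * (θ ^ 2 / N) * as2 := by
      field_simp
    have e3 : θ ^ 2 / N ≤ 1 := by
      rw [div_le_one hN0, ← hss]
      exact pow_le_pow_left₀ (by linarith) hθN 2
    have e4 : 48 * (θ ^ 2 / N) * as2 ≤ 48 * K ^ 2 * as2 := by
      have : (1 : ℝ) ≤ K ^ 2 := by nlinarith
      have : θ ^ 2 / N ≤ K ^ 2 := e3.trans this
      gcongr
    have e5 : ‖(iS cA cB lA σ r x).1 - (iS cA cB lA σ r x').1‖ ^ 2 = a2 := rfl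
    rw [e5]
    have : 0 ≤ K ^ 2 * a2 := by positivity
    nlinarith
  have hb1 : K ^ 2 * b ^ 2 ≤ (θ * d) ^ 2 := by
    have : K * b ≤ θ * d := by nlinarith
    calc K ^ 2 * b ^ 2 = (K * b) ^ 2 := by ring
      _ ≤ _ := pow_le_pow_left₀ (by positivity) this 2
  have hb2 : K ^ 2 * bs2 ≤ 1600 * (θ * d) ^ 2 := by
    have h1 : θ * (θ' / (40 * Real.sqrt N) * Real.sqrt bs2) ≤ θ * d := by gcongr
    have h2 : θ * (θ' / (40 * Real.sqrt N) * Real.sqrt bs2) = K / 40 * Real.sqrt bs2 := by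
      calc θ * (θ' / (40 * Real.sqrt N) * Real.sqrt bs2)
          = (θ * θ') / (40 * Real.sqrt N) * Real.sqrt bs2 := by ring
        _ = (K * Real.sqrt N) / (40 * Real.sqrt N) * Real.sqrt bs2 := by rw [hθθ]
        _ = _ := by field_simp
    rw [h2] at h1
    have h3 := pow_le_pow_left₀ (by positivity) h1 2
    rw [mul_pow, Real.sq_sqrt hbs0] at h3
    nlinarith
  have hfin : ‖FS K θ (iS cA cB lA σ r x) - FS K θ (iS cA cB lA σ r x')‖ ^ 2
      ≤ (620 * θ * d) ^ 2 := by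
    have e1 : 48 * K ^ 2 * (a2 + as2) ≤ 240 * (K ^ 2 * (b ^ 2 + bs2)) := by
      have : 0 ≤ K ^ 2 := by positivity
      nlinarith
    nlinarith [sq_nonneg (θ * d)]
  exact le_of_sq_le_sq hfin (by positivity)

end

end Pool.Agent.Lib.MP_dbb15e_gt
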