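import Mathlib

/-!
# Almost orthogonality in Heisenberg actions
-/

set_option autoImplicit false

namespace Pool.Agent.Lib.MP_dbb15e_gt

open Finset

section

variable {V : Type*} [Fintype V] {p : ℕ} [hp : Fact p.Prime]

/-- An action of the additive group `ZMod p` by permutations. -/
structure Flow (X : ZMod p → Equiv.Perm V) : Prop where
  zero : ∀ v, X 0 v = v
  add : ∀ a b v, X (a + b) v = X a (X b v)

lemma flow_sq (Y : ZMod p → Equiv.Perm V) (hY : Flow Y) (u : V → ℝ) :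
    ∑ v, (∑ b, u (Y b v)) ^ 2 = (p : ℝ) * ∑ b, ∑ v, u (Y b v) * u v := by
  have h1 : ∀ b b' : ZMod p, ∑ v, u (Y b v) * u (Y b' v) = ∑ v, u (Y (b - b') v) * u v := by
    intro b b'
    rw [← Equiv.sum_comp (Y b') (fun v => u (Y (b - b') v) * u v)]
    refine Finset.sum_congr rfl (fun v _ => ?_)
    rw [← hY.add, sub_add_cancel]
  calc ∑ v, (∑ b, u (Y b v)) ^ 2
      = ∑ v, ∑ b', ∑ b, u (Y b v) * u (Y b' v) := by
        refine Finset.sum_congr rfl (fun v _ => ?_)
        rw [sq, Finset.sum_mul_sum, Finset.sum_comm]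
    _ = ∑ b', ∑ b, ∑ v, u (Y b v) * u (Y b' v) := by
        rw [Finset.sum_comm]
        refine Finset.sum_congr rfl (fun b' _ => ?_)
        rw [Finset.sum_comm]
    _ = ∑ b' : ZMod p, ∑ b, ∑ v, u (Y b v) * u v := by
        refine Finset.sum_congr rfl (fun b' _ => ?_)
        simp_rw [h1]
        exact Equiv.sum_comp (Equiv.subRight b') (fun b => ∑ v, u (Y b v) * u v)
    _ = _ := by
        rw [Finset.sum_const, Finset.card_univ, ZMod.card, nsmul_eq_mul]

/-- Almost orthogonality: a function invariant under `X` and orthogonal to all functions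
invariant under `X` and `Y` is almost orthogonal to the functions invariant under `Y`. -/
lemma heis (X Y C : ZMod p → Equiv.Perm V) (hY : Flow Y) (hC : Flow C)
    (hXC : ∀ a d v, C d (X a v) = X a (C d v)) (hYC : ∀ b d v, C d (Y b v) = Y b (C d v))
    (hrel : ∀ a b v, Y b (X a v) = X a (Y b (C (a * b) v)))
    (u w : V → ℝ) (hu : ∀ a v, u (X a v) = u v) (hw : ∀ b v, w (Y b v) = w v)
    (horth : ∀ z : V → ℝ, (∀ a v, z (X a v) = z v) → (∀ b v, z (Y b v) = z v) →
      ∑ v, z v * u v = 0) :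
    (p : ℝ) * (∑ v, u v * w v) ^ 2 ≤ (∑ v, (u v) ^ 2) * (∑ v, (w v) ^ 2) := by
  classical
  have hp0 : (0 : ℝ) < p := by exact_mod_cast hp.out.pos
  set g : ZMod p → ℝ := fun b => ∑ v, u (Y b v) * u v with hg
  set k : ZMod p → ℝ := fun b => ∑ d, ∑ v, u (Y b (C d v)) * u v with hk
  -- `p * g b`
  have h1 : ∀ b, (p : ℝ) * g b = ∑ a, ∑ v, u (Y b (C (a * b) v)) * u v := by
    intro b
    have h2 : ∀ a : ZMod p, ∑ v, u (Y b (C (a * b) v)) * u v = g b := by
      intro a
      rw [hg]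
      simp only
      rw [← Equiv.sum_comp (X a) (fun v => u (Y b v) * u v)]
      refine Finset.sum_congr rfl (fun v _ => ?_)
      rw [hrel, hu, hu]
    simp_rw [h2]
    rw [Finset.sum_const, Finset.card_univ, ZMod.card, nsmul_eq_mul]
  have h2 : ∀ b, b ≠ 0 → (p : ℝ) * g b = k b := by
    intro b hb
    rw [h1, hk]
    exact Equiv.sum_comp (Equiv.mulRight₀ b hb) (fun d => ∑ v, u (Y b (C d v)) * u v)
  have h3 : (p : ℝ) * g 0 = (p : ℝ) * ∑ v, (u v) ^ 2 := by
    rw [h1]
    simp only [mul_zero, hC.zero, hY.zero]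
    rw [Finset.sum_const, Finset.card_univ, ZMod.card, nsmul_eq_mul]
    congr 1
    exact Finset.sum_congr rfl (fun v _ => by ring)
  have h4 : ∑ b, k b = 0 := by
    have h5 : ∑ b, k b = ∑ v, (∑ b, ∑ d, u (Y b (C d v))) * u v := by
      rw [hk]
      simp only
      simp_rw [Finset.sum_mul]
      rw [Finset.sum_comm (s := (univ : Finset V))]
      refine Finset.sum_congr rfl (fun b _ => ?_)
      rw [Finset.sum_comm]
    rw [h5]
    apply horth
    · intro a v
      refine Finset.sum_congr rfl (fun b _ => ?_)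
      have h6 : ∀ d, u (Y b (C d (X a v))) = u (Y b (C (a * b + d) v)) := by
        intro d
        rw [hXC, hrel, hu, ← hC.add]
      simp_rw [h6]
      exact Equiv.sum_comp (Equiv.addLeft (a * b)) (fun d => u (Y b (C d v)))
    · intro b' v
      have h6 : ∀ b d, u (Y b (C d (Y b' v))) = u (Y (b + b') (C d v)) := by
        intro b d
        rw [hYC, hY.add]
      simp_rw [h6]
      exact Equiv.sum_comp (Equiv.addRight b') (fun b => ∑ d, u (Y b (C d v)))
  have h5 : 0 ≤ k 0 := by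
    have h6 : k 0 = ∑ d, ∑ v, u (C d v) * u v := by
      rw [hk]; simp only [hY.zero]
    have h7 := flow_sq C hC u
    rw [← h6] at h7
    have h8 : 0 ≤ (p : ℝ) * k 0 := by
      rw [← h7]; exact Finset.sum_nonneg (fun v _ => sq_nonneg _)
    exact nonneg_of_mul_nonneg_right h8 hp0
  have h6 : (p : ℝ) * ∑ b, g b ≤ (p : ℝ) * ∑ v, (u v) ^ 2 := by
    have h7 : (p : ℝ) * ∑ b, g b = (p : ℝ) * g 0 + ∑ b ∈ univ.erase (0 : ZMod p), k b := by
      rw [← Finset.add_sum_erase univ g (mem_univ (0 : ZMod p)), mul_add]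
      congr 1
      rw [Finset.mul_sum]
      exact Finset.sum_congr rfl (fun b hb => h2 b (Finset.ne_of_mem_erase hb))
    have h8 := Finset.add_sum_erase univ k (mem_univ (0 : ZMod p))
    rw [h7, h3]
    linarith
  have h7 : ∑ b, g b ≤ ∑ v, (u v) ^ 2 := le_of_mul_le_mul_left h6 hp0
  have h8 : ∑ v, (∑ b, u (Y b v)) ^ 2 ≤ (p : ℝ) * ∑ v, (u v) ^ 2 := by
    rw [flow_sq Y hY u]
    exact mul_le_mul_of_nonneg_left h7 hp0.le
  have h9 : ∑ v, (∑ b, u (Y b v)) * w v = (p : ℝ) * ∑ v, u v * w v := by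
    have h10 : ∀ b : ZMod p, ∑ v, u (Y b v) * w v = ∑ v, u v * w v := by
      intro b
      rw [← Equiv.sum_comp (Y b) (fun v => u v * w v)]
      refine Finset.sum_congr rfl (fun v _ => ?_)
      rw [hw]
    simp_rw [Finset.sum_mul]
    rw [Finset.sum_comm]
    simp_rw [h10]
    rw [Finset.sum_const, Finset.card_univ, ZMod.card, nsmul_eq_mul]
  have h10 := Finset.sum_mul_sq_le_sq_mul_sq univ (fun v => ∑ b, u (Y b v)) w
  rw [h9] at h10
  have hw0 : 0 ≤ ∑ v, (w v) ^ 2 := Finset.sum_nonneg (fun v _ => sq_nonneg _)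
  have h11 : (p : ℝ) * ((p : ℝ) * (∑ v, u v * w v) ^ 2) ≤
      (p : ℝ) * ((∑ v, (u v) ^ 2) * (∑ v, (w v) ^ 2)) := by
    calc (p : ℝ) * ((p : ℝ) * (∑ v, u v * w v) ^ 2) = ((p : ℝ) * ∑ v, u v * w v) ^ 2 := by ring
      _ ≤ _ := h10
      _ ≤ ((p : ℝ) * ∑ v, (u v) ^ 2) * (∑ v, (w v) ^ 2) := mul_le_mul_of_nonneg_right h8 hw0
      _ = _ := by ring
  exact le_of_mul_le_mul_left h11 hp0

end

end Pool.Agent.Lib.MP_dbb15e_gt
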