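import Mathlib
import Pool.Agent.Lib.MP_dbb15e_gt.Heis
import Pool.Agent.Lib.MP_dbb15e_gt.Angle

/-!
# A family of bounded degree expanders given by pairs of partitions
-/

set_option autoImplicit false

namespace Pool.Agent.Lib.MP_dbb15e_gt

open Finset

/-- the prime used -/
abbrev Fp := ZMod 17

instance fact17 : Fact (Nat.Prime 17) := ⟨by norm_num⟩

/-- Labels of points in a class. -/
abbrev Lab := Fp × Fp × Fp

section generic

variable {V : Type} [Fintype V]

/-- A Heisenberg type configuration of flows. -/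
structure HeisConf (X Y C : Fp → Equiv.Perm V) : Prop where
  hX : Flow X
  hY : Flow Y
  hC : Flow C
  hXC : ∀ a d v, C d (X a v) = X a (C d v)
  hYC : ∀ b d v, C d (Y b v) = Y b (C d v)
  hrel : ∀ a b v, Y b (X a v) = X a (Y b (C (a * b) v))

lemma HeisConf.equiv {X Y C : Fp → Equiv.Perm V} (h : HeisConf X Y C) :
    Equivalence (fun v v' : V => ∃ a b d, v' = X a (Y b (C d v))) := by
  have hcomp : ∀ a b d a' b' d' v, X a (Y b (C d (X a' (Y b' (C d' v))))) =
      X (a + a') (Y (b + b') (C (a' * b + (d + d')) v)) := by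
    intro a b d a' b' d' v
    rw [h.hXC, h.hYC, h.hrel, h.hYC, h.hX.add, h.hY.add, h.hC.add, h.hC.add]
  constructor
  · intro v
    exact ⟨0, 0, 0, by rw [h.hC.zero, h.hY.zero, h.hX.zero]⟩
  · rintro v v' ⟨a, b, d, rfl⟩
    refine ⟨-a, -b, a * b - d, ?_⟩
    rw [hcomp]
    have h1 : a * -b + (a * b - d + d) = 0 := by ring
    have h2 : -a + a = 0 := by ring
    have h3 : -b + b = 0 := by ring
    rw [h1, h2, h3, h.hX.zero, h.hY.zero, h.hC.zero]
  · rintro v v' v'' ⟨a, b, d, rfl⟩ ⟨a', b', d', rfl⟩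
    exact ⟨_, _, _, hcomp _ _ _ _ _ _ _⟩

/-- The classes of a Heisenberg configuration, with labels. -/
lemma HeisConf.classes {X Y C : Fp → Equiv.Perm V} (h : HeisConf X Y C) :
    ∃ (U : Type) (_ : Fintype U) (c : V → U) (l : V → Lab),
      (∀ v v', c v = c v' → l v = l v' → v = v') ∧
      (∀ a v, c (X a v) = c v) ∧ (∀ b v, c (Y b v) = c v) := by
  classical
  let s : Setoid V := ⟨_, h.equiv⟩
  have hrep : ∀ v : V, ∃ q : Lab, v = X q.1 (Y q.2.1 (C q.2.2 (Quotient.out (Quotient.mk s v)))) := by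
    intro v
    have h1 : s (Quotient.out (Quotient.mk s v)) v := Quotient.mk_out (s := s) v
    obtain ⟨a, b, d, hh⟩ := h1
    exact ⟨(a, b, d), hh⟩
  choose l hl using hrep
  refine ⟨Quotient s, Fintype.ofFinite _, Quotient.mk s, l, ?_, ?_, ?_⟩
  · intro v v' h1 h2
    rw [hl v, hl v', h1, h2]
  · intro a v
    symm
    apply Quotient.sound
    exact ⟨a, 0, 0, by rw [h.hC.zero, h.hY.zero]⟩
  · intro b v
    symm
    apply Quotient.sound
    exact ⟨0, b, 0, by rw [h.hC.zero, h.hX.zero]⟩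

/-- functions invariant under a flow -/
def invSub (X : Fp → Equiv.Perm V) : Submodule ℝ (EuclideanSpace ℝ V) where
  carrier := {f | ∀ a v, f (X a v) = f v}
  add_mem' := by
    intro f g hf hg a v
    simp only [PiLp.add_apply]
    rw [hf, hg]
  zero_mem' := by
    intro a v
    simp
  smul_mem' := by
    intro c f hf a v
    simp only [PiLp.smul_apply]
    rw [hf]

lemma inner_eq_sum (u w : EuclideanSpace ℝ V) : inner ℝ u w = ∑ v, u v * w v := by
  rw [PiLp.inner_apply]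
  refine Finset.sum_congr rfl (fun v _ => ?_)
  simp [mul_comm]

lemma HeisConf.quarter {X Y C : Fp → Equiv.Perm V} (h : HeisConf X Y C) :
    ∀ u ∈ invSub X, ∀ w ∈ invSub Y, (∀ z ∈ invSub X ⊓ invSub Y, inner ℝ u z = (0 : ℝ)) →
      |inner ℝ u w| ≤ (1 / 4) * (‖u‖ * ‖w‖) := by
  intro u hu w hw horth
  have h1 := heis X Y C h.hY h.hC h.hXC h.hYC h.hrel (fun v => u v) (fun v => w v) hu hw ?_
  · have h2 : ∑ v, (u v) ^ 2 = ‖u‖ ^ 2 := by
      rw [EuclideanSpace.norm_sq_eq]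
      exact Finset.sum_congr rfl (fun v _ => by rw [Real.norm_eq_abs, sq_abs])
    have h3 : ∑ v, (w v) ^ 2 = ‖w‖ ^ 2 := by
      rw [EuclideanSpace.norm_sq_eq]
      exact Finset.sum_congr rfl (fun v _ => by rw [Real.norm_eq_abs, sq_abs])
    rw [← inner_eq_sum, h2, h3] at h1
    push_cast at h1
    apply abs_le_of_sq_le_sq _ (by positivity)
    nlinarith [sq_nonneg (inner ℝ u w)]
  · intro z hzX hzY
    have h2 := horth (WithLp.toLp 2 z) ⟨fun a v => hzX a v, fun b v => hzY b v⟩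
    rw [inner_eq_sum] at h2
    rw [← h2]
    exact Finset.sum_congr rfl (fun v _ => by simp [mul_comm])

/-- The spectral gap. -/
lemma gap_of_conf {X Y Z C1 C2 C3 : Fp → Equiv.Perm V} (h1 : HeisConf X Y C1)
    (h2 : HeisConf Y Z C2) (h3 : HeisConf Z X C3)
    (htrans : ∀ f : V → ℝ, (∀ a v, f (X a v) = f v) → (∀ a v, f (Y a v) = f v) →
      (∀ a v, f (Z a v) = f v) → ∀ v v', f v = f v')
    (α β : V → ℝ) (hα1 : ∀ a v, α (X a v) = α v) (hα2 : ∀ a v, α (Y a v) = α v)
    (hβ1 : ∀ a v, β (Y a v) = β v) (hβ2 : ∀ a v, β (Z a v) = β v) (hα : ∑ v, α v = 0) :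
    2 * ∑ v, α v * β v ≤ (1 / 3) * (∑ v, (α v) ^ 2 + ∑ v, (β v) ^ 2) := by
  have h := three_subspaces (invSub X) (invSub Y) (invSub Z) h1.quarter h2.quarter h3.quarter
    (WithLp.toLp 2 α) ⟨fun a v => hα1 a v, fun a v => hα2 a v⟩
    (WithLp.toLp 2 β) ⟨fun a v => hβ1 a v, fun a v => hβ2 a v⟩ ?_
  · rw [inner_eq_sum] at h
    have h4 : ‖(WithLp.toLp 2 α : EuclideanSpace ℝ V)‖ ^ 2 = ∑ v, (α v) ^ 2 := by
      rw [EuclideanSpace.norm_sq_eq]
      exact Finset.sum_congr rfl (fun v _ => by rw [Real.norm_eq_abs, sq_abs])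
    have h5 : ‖(WithLp.toLp 2 β : EuclideanSpace ℝ V)‖ ^ 2 = ∑ v, (β v) ^ 2 := by
      rw [EuclideanSpace.norm_sq_eq]
      exact Finset.sum_congr rfl (fun v _ => by rw [Real.norm_eq_abs, sq_abs])
    rw [← h4, ← h5]
    simp only at h
    nlinarith [sq_nonneg (‖(WithLp.toLp 2 α : EuclideanSpace ℝ V)‖ -
      ‖(WithLp.toLp 2 β : EuclideanSpace ℝ V)‖)]
  · intro z hz
    rw [inner_eq_sum]
    by_cases hV : Nonempty V
    · obtain ⟨v0⟩ := hV
      have hc : ∀ v, z v = z v0 := fun v =>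
        htrans (fun v => z v) (fun a v => hz.1.1 a v) (fun a v => hz.1.2 a v)
          (fun a v => hz.2 a v) v v0
      simp_rw [hc]
      rw [← Finset.sum_mul]
      simp [hα]
    · rw [not_nonempty_iff] at hV
      simp

end generic

end Pool.Agent.Lib.MP_dbb15e_gt
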