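import Mathlib
import Pool.Agent.Lib.MP_dbb15e_gt.Expander

/-!
# The concrete expanders
-/

set_option autoImplicit false

namespace Pool.Agent.Lib.MP_dbb15e_gt

open Finset

section concrete

variable (n : ℕ)

/-- truncated polynomials -/
abbrev Wn := Fin (n + 1) → Fp

/-- multiplication by the variable -/
def shiftW (w : Wn n) : Wn n := fun i => if h : 0 < (i : ℕ) then w ⟨i - 1, by omega⟩ else 0

variable {n}

lemma shiftW_add (w w' : Wn n) : shiftW n (w + w') = shiftW n w + shiftW n w' := by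
  funext i
  simp only [shiftW, Pi.add_apply]
  split_ifs <;> simp

lemma shiftW_smul (a : Fp) (w : Wn n) : shiftW n (a • w) = a • shiftW n w := by
  funext i
  simp only [shiftW, Pi.smul_apply]
  split_ifs <;> simp

variable (n)

/-- vectors -/
abbrev W3 := Wn n × Wn n × Wn n

variable {n}

/-- the flow `x` -/
def XW (a : Fp) : Equiv.Perm (W3 n) where
  toFun v := (v.1 + a • v.2.1, v.2.1, v.2.2)
  invFun v := (v.1 - a • v.2.1, v.2.1, v.2.2)
  left_inv v := by simp
  right_inv v := by simp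

/-- the flow `y` -/
def YW (a : Fp) : Equiv.Perm (W3 n) where
  toFun v := (v.1, v.2.1 + a • v.2.2, v.2.2)
  invFun v := (v.1, v.2.1 - a • v.2.2, v.2.2)
  left_inv v := by simp
  right_inv v := by simp

/-- the flow `z` -/
def ZW (a : Fp) : Equiv.Perm (W3 n) where
  toFun v := (v.1, v.2.1, v.2.2 + a • shiftW n v.1)
  invFun v := (v.1, v.2.1, v.2.2 - a • shiftW n v.1)
  left_inv v := by simp
  right_inv v := by simp

/-- commutator flow of `x`, `y` -/
def C1W (a : Fp) : Equiv.Perm (W3 n) where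
  toFun v := (v.1 - a • v.2.2, v.2.1, v.2.2)
  invFun v := (v.1 + a • v.2.2, v.2.1, v.2.2)
  left_inv v := by simp
  right_inv v := by simp

/-- commutator flow of `y`, `z` -/
def C2W (a : Fp) : Equiv.Perm (W3 n) where
  toFun v := (v.1, v.2.1 - a • shiftW n v.1, v.2.2)
  invFun v := (v.1, v.2.1 + a • shiftW n v.1, v.2.2)
  left_inv v := by simp
  right_inv v := by simp

/-- commutator flow of `z`, `x` -/
def C3W (a : Fp) : Equiv.Perm (W3 n) where
  toFun v := (v.1, v.2.1, v.2.2 - a • shiftW n v.2.1)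
  invFun v := (v.1, v.2.1, v.2.2 + a • shiftW n v.2.1)
  left_inv v := by simp
  right_inv v := by simp

lemma XW_apply (a : Fp) (v : W3 n) : XW a v = (v.1 + a • v.2.1, v.2.1, v.2.2) := rfl
lemma YW_apply (a : Fp) (v : W3 n) : YW a v = (v.1, v.2.1 + a • v.2.2, v.2.2) := rfl
lemma ZW_apply (a : Fp) (v : W3 n) : ZW a v = (v.1, v.2.1, v.2.2 + a • shiftW n v.1) := rfl
lemma C1W_apply (a : Fp) (v : W3 n) : C1W a v = (v.1 - a • v.2.2, v.2.1, v.2.2) := rfl
lemma C2W_apply (a : Fp) (v : W3 n) : C2W a v = (v.1, v.2.1 - a • shiftW n v.1, v.2.2) := rfl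
lemma C3W_apply (a : Fp) (v : W3 n) : C3W a v = (v.1, v.2.1, v.2.2 - a • shiftW n v.2.1) := rfl

lemma confXY : HeisConf (XW (n := n)) YW C1W := by
  refine ⟨⟨?_, ?_⟩, ⟨?_, ?_⟩, ⟨?_, ?_⟩, ?_, ?_, ?_⟩
  · intro v; simp [XW_apply]
  · intro a b v; simp only [XW_apply]; ext1 <;> simp only; module
  · intro v; simp [YW_apply]
  · intro a b v; simp only [YW_apply]; ext1 <;> simp only; ext1 <;> simp only; module
  · intro v; simp [C1W_apply]
  · intro a b v; simp only [C1W_apply]; ext1 <;> simp only; module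
  · intro a d v; simp only [XW_apply, C1W_apply]; ext1 <;> simp only; module
  · intro a d v; simp only [YW_apply, C1W_apply]
  · intro a b v; simp only [XW_apply, YW_apply, C1W_apply]; ext1 <;> simp only; module

lemma confYZ : HeisConf (YW (n := n)) ZW C2W := by
  refine ⟨⟨?_, ?_⟩, ⟨?_, ?_⟩, ⟨?_, ?_⟩, ?_, ?_, ?_⟩
  · intro v; simp [YW_apply]
  · intro a b v; simp only [YW_apply]; ext1 <;> simp only; ext1 <;> simp only; module
  · intro v; simp [ZW_apply]
  · intro a b v; simp only [ZW_apply]; ext1 <;> simp only; ext1 <;> simp only; module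
  · intro v; simp [C2W_apply]
  · intro a b v; simp only [C2W_apply]; ext1 <;> simp only; ext1 <;> simp only; module
  · intro a d v; simp only [YW_apply, C2W_apply]; ext1 <;> simp only; ext1 <;> simp only; module
  · intro a d v; simp only [ZW_apply, C2W_apply]
  · intro a b v; simp only [YW_apply, ZW_apply, C2W_apply]; ext1 <;> simp only
    ext1 <;> simp only; module

lemma confZX : HeisConf (ZW (n := n)) XW C3W := by
  refine ⟨⟨?_, ?_⟩, ⟨?_, ?_⟩, ⟨?_, ?_⟩, ?_, ?_, ?_⟩
  · intro v; simp [ZW_apply]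
  · intro a b v; simp only [ZW_apply]; ext1 <;> simp only; ext1 <;> simp only; module
  · intro v; simp [XW_apply]
  · intro a b v; simp only [XW_apply]; ext1 <;> simp only; module
  · intro v; simp [C3W_apply]
  · intro a b v; simp only [C3W_apply]; ext1 <;> simp only; ext1 <;> simp only; module
  · intro a d v; simp only [ZW_apply, C3W_apply]; ext1 <;> simp only; ext1 <;> simp only; module
  · intro a d v; simp only [XW_apply, C3W_apply]
  · intro a b v; simp only [XW_apply, ZW_apply, C3W_apply, shiftW_add, shiftW_smul]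
    ext1 <;> simp only
    ext1 <;> simp only; module

/-- restriction of a configuration to an invariant set -/
lemma HeisConf.restrict {V : Type} [Fintype V] {X Y C : Fp → Equiv.Perm V} (h : HeisConf X Y C)
    (S : V → Prop) [Fintype {v // S v}]
    (hX : ∀ a v, S (X a v) ↔ S v) (hY : ∀ a v, S (Y a v) ↔ S v)
    (hC : ∀ a v, S (C a v) ↔ S v) :
    HeisConf (V := {v // S v}) (fun a => (X a).subtypePerm (hX a))
      (fun a => (Y a).subtypePerm (hY a)) (fun a => (C a).subtypePerm (hC a)) := by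
  refine ⟨⟨?_, ?_⟩, ⟨?_, ?_⟩, ⟨?_, ?_⟩, ?_, ?_, ?_⟩
  · intro v; exact Subtype.ext (h.hX.zero _)
  · intro a b v; exact Subtype.ext (h.hX.add _ _ _)
  · intro v; exact Subtype.ext (h.hY.zero _)
  · intro a b v; exact Subtype.ext (h.hY.add _ _ _)
  · intro v; exact Subtype.ext (h.hC.zero _)
  · intro a b v; exact Subtype.ext (h.hC.add _ _ _)
  · intro a d v; exact Subtype.ext (h.hXC _ _ _)
  · intro a d v; exact Subtype.ext (h.hYC _ _ _)
  · intro a b v; exact Subtype.ext (h.hrel _ _ _)

/-- one step -/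
def stepW (v v' : W3 n) : Prop := ∃ a, v' = XW a v ∨ v' = YW a v ∨ v' = ZW a v

/-- the initial vector -/
def v0W : W3 n := (Pi.single 0 1, 0, 0)

/-- the orbit -/
def orbW (v : W3 n) : Prop := Relation.ReflTransGen stepW v0W v

lemma flow_neg {V : Type*} {X : Fp → Equiv.Perm V} (hX : Flow X) (a : Fp) (v : V) :
    X (-a) (X a v) = v := by
  rw [← hX.add, neg_add_cancel, hX.zero]

lemma orbX (a : Fp) (v : W3 n) : orbW (XW a v) ↔ orbW v := by
  constructor
  · intro h
    exact h.tail ⟨-a, Or.inl (flow_neg confXY.hX a v).symm⟩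
  · intro h
    exact h.tail ⟨a, Or.inl rfl⟩

lemma orbY (a : Fp) (v : W3 n) : orbW (YW a v) ↔ orbW v := by
  constructor
  · intro h
    exact h.tail ⟨-a, Or.inr (Or.inl (flow_neg confXY.hY a v).symm)⟩
  · intro h
    exact h.tail ⟨a, Or.inr (Or.inl rfl)⟩

lemma orbZ (a : Fp) (v : W3 n) : orbW (ZW a v) ↔ orbW v := by
  constructor
  · intro h
    exact h.tail ⟨-a, Or.inr (Or.inr (flow_neg confYZ.hY a v).symm)⟩
  · intro h
    exact h.tail ⟨a, Or.inr (Or.inr rfl)⟩

lemma HeisConf.orbC {V : Type} [Fintype V] {X Y C : Fp → Equiv.Perm V} (h : HeisConf X Y C)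
    (S : V → Prop) (hX : ∀ a v, S (X a v) ↔ S v) (hY : ∀ a v, S (Y a v) ↔ S v)
    (a : Fp) (v : V) : S (C a v) ↔ S v := by
  have h1 := h.hrel a 1 v
  rw [mul_one] at h1
  have h2 : S (Y 1 (X a v)) ↔ S v := by rw [hY, hX]
  have h3 : S (X a (Y 1 (C a v))) ↔ S (C a v) := by rw [hX, hY]
  rw [← h3, ← h1, h2]

/-- size of the orbit -/
lemma exists_deg (j : ℕ) (hj : j < n + 1) : ∃ v : W3 n, orbW v ∧ v.1 ⟨j, hj⟩ ≠ 0 ∧
    ∀ i : Fin (n + 1), j < (i : ℕ) → v.1 i = 0 ∧ v.2.1 i = 0 ∧ v.2.2 i = 0 := by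
  induction j with
  | zero =>
    refine ⟨v0W, Relation.ReflTransGen.refl, ?_, ?_⟩
    · simp [v0W]
    · intro i hi
      have hi0 : i ≠ 0 := by
        intro h; rw [h] at hi; simp at hi
      simp [v0W, Pi.single_apply, hi0]
  | succ j ih =>
    obtain ⟨v, hv, hne, hz⟩ := ih (by omega)
    refine ⟨XW 1 (YW 1 (ZW 1 v)), ?_, ?_, ?_⟩
    · rw [orbX, orbY, orbZ]; exact hv
    · have h1 := hz ⟨j + 1, hj⟩ (by simp)
      have h2 : shiftW n v.1 ⟨j + 1, hj⟩ = v.1 ⟨j, by omega⟩ := by
        simp [shiftW]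
      simp only [XW_apply, YW_apply, ZW_apply, one_smul, Pi.add_apply, h1.1, h1.2.1, h1.2.2, h2,
        zero_add]
      exact hne
    · intro i hi
      have h1 := hz i (by omega)
      have h2 : shiftW n v.1 i = 0 := by
        have h3 : 0 < (i : ℕ) := by omega
        have h4 := (hz ⟨(i : ℕ) - 1, by omega⟩ (by simp; omega)).1
        simp only [shiftW, h3, dif_pos]
        exact h4
      simp [XW_apply, YW_apply, ZW_apply, Pi.add_apply, h1.1, h1.2.1, h1.2.2, h2]

end concrete

/-- **Expanders.** There are arbitrarily large finite sets `V` with two partitions into classes of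
bounded size such that functions invariant under the first and functions invariant
under the second partition are uniformly almost orthogonal modulo constants. -/
theorem exists_expander (n : ℕ) :
    ∃ (V : Type) (_ : Fintype V) (U : Type) (_ : Fintype U) (W : Type) (_ : Fintype W)
      (cA : V → U) (cB : V → W) (lA lB : V → Lab),
      n ≤ Fintype.card V ∧
      (∀ v v', cA v = cA v' → lA v = lA v' → v = v') ∧
      (∀ v v', cB v = cB v' → lB v = lB v' → v = v') ∧
      (∀ α β : V → ℝ, (∀ v v', cA v = cA v' → α v = α v') →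
        (∀ v v', cB v = cB v' → β v = β v') → ∑ v, α v = 0 →
        2 * ∑ v, α v * β v ≤ (1 / 3) * (∑ v, (α v) ^ 2 + ∑ v, (β v) ^ 2)) := by
  classical
  let V := {v : W3 n // orbW v}
  have instV : Fintype V := Fintype.ofFinite _
  have hC1 : ∀ a (v : W3 n), orbW (C1W a v) ↔ orbW v := confXY.orbC orbW orbX orbY
  have hC2 : ∀ a (v : W3 n), orbW (C2W a v) ↔ orbW v := confYZ.orbC orbW orbY orbZ
  have hC3 : ∀ a (v : W3 n), orbW (C3W a v) ↔ orbW v := confZX.orbC orbW orbZ orbX
  have hXY := (confXY (n := n)).restrict orbW orbX orbY hC1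
  have hYZ := (confYZ (n := n)).restrict orbW orbY orbZ hC2
  have hZX := (confZX (n := n)).restrict orbW orbZ orbX hC3
  obtain ⟨U, hU, cA, lA, hlA, hcA1, hcA2⟩ := hXY.classes
  obtain ⟨W, hW, cB, lB, hlB, hcB1, hcB2⟩ := hYZ.classes
  refine ⟨V, inferInstance, U, hU, W, hW, cA, cB, lA, lB, ?_, hlA, hlB, ?_⟩
  · -- cardinality
    have h1 : ∀ j : Fin (n + 1), ∃ v : W3 n, orbW v ∧ v.1 j ≠ 0 ∧
        ∀ i : Fin (n + 1), (j : ℕ) < (i : ℕ) → v.1 i = 0 := by
      intro j
      obtain ⟨v, h1, h2, h3⟩ := exists_deg (n := n) j j.2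
      exact ⟨v, h1, h2, fun i hi => (h3 i hi).1⟩
    choose f hf1 hf2 hf3 using h1
    have hinj : Function.Injective (fun j => (⟨f j, hf1 j⟩ : V)) := by
      intro j j' hjj
      have h2 : f j = f j' := congrArg Subtype.val hjj
      by_contra hne
      rcases lt_or_gt_of_ne (fun h => hne (Fin.ext h) : (j : ℕ) ≠ j') with h | h
      · exact hf2 j' (by rw [← h2]; exact hf3 j j' h)
      · exact hf2 j (by rw [h2]; exact hf3 j' j h)
    have := Fintype.card_le_of_injective _ hinj
    rw [Fintype.card_fin] at this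
    exact (Nat.le_succ n).trans this
  · intro α β hα hβ hα0
    refine gap_of_conf hXY hYZ hZX ?_ α β ?_ ?_ ?_ ?_ hα0
    · intro f hfX hfY hfZ
      have h1 : ∀ (v : W3 n) (hv : orbW v), f ⟨v, hv⟩ = f ⟨v0W, Relation.ReflTransGen.refl⟩ := by
        intro v hv
        induction hv with
        | refl => rfl
        | tail hb hstep ih =>
          obtain ⟨a, h | h | h⟩ := hstep
          · subst h
            rw [← ih]
            exact hfX a ⟨_, hb⟩
          · subst h
            rw [← ih]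
            exact hfY a ⟨_, hb⟩
          · subst h
            rw [← ih]
            exact hfZ a ⟨_, hb⟩
      intro v v'
      rw [h1 v.1 v.2, h1 v'.1 v'.2]
    · intro a v; exact hα _ _ (hcA1 a v)
    · intro a v; exact hα _ _ (hcA2 a v)
    · intro a v; exact hβ _ _ (hcB1 a v)
    · intro a v; exact hβ _ _ (hcB2 a v)

end Pool.Agent.Lib.MP_dbb15e_gt
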