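import Mathlib
import Pool.Agent.Lib.MP_dbb15e_gt.Glue

/-!
# The Hamming cube (Enflo's inequality)
-/

set_option autoImplicit false

namespace Pool.Agent.Lib.MP_dbb15e_gt

open Finset

section

variable {n : ℕ} {H : Type*} [NormedAddCommGroup H] [InnerProductSpace ℝ H]

/-- flip the coordinates of a set -/
def flipS (s : Finset (Fin n)) (x : Fin n → Bool) : Fin n → Bool :=
  fun i => if i ∈ s then !(x i) else x i

lemma flipS_invol (s : Finset (Fin n)) : Function.Involutive (flipS s) := by
  intro x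
  funext i
  by_cases h : i ∈ s <;> simp [flipS, h]

lemma sum_flipS (s : Finset (Fin n)) (F : (Fin n → Bool) → ℝ) :
    ∑ x, F (flipS s x) = ∑ x, F x :=
  Equiv.sum_comp (Function.Involutive.toPerm (flipS s) (flipS_invol s)) F

lemma flipS_insert (s : Finset (Fin n)) (a : Fin n) (ha : a ∉ s) (x : Fin n → Bool) :
    flipS s (flipS {a} x) = flipS (insert a s) x := by
  funext i
  by_cases hi : i = a
  · subst hi
    simp [flipS, ha]
  · by_cases hs : i ∈ s <;> simp [flipS, hi, hs]

lemma flipS_insert' (s : Finset (Fin n)) (a : Fin n) (ha : a ∉ s) (x : Fin n → Bool) :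
    flipS (insert a s) (flipS {a} x) = flipS s x := by
  funext i
  by_cases hi : i = a
  · subst hi
    simp [flipS, ha]
  · by_cases hs : i ∈ s <;> simp [flipS, hi, hs]

lemma flipS_insert'' (s : Finset (Fin n)) (a : Fin n) (ha : a ∉ s) (x : Fin n → Bool) :
    flipS {a} (flipS s x) = flipS (insert a s) x := by
  funext i
  by_cases hi : i = a
  · subst hi
    simp [flipS, ha]
  · by_cases hs : i ∈ s <;> simp [flipS, hi, hs]

/-- The quadrilateral inequality. -/
lemma quad (a b c d : H) :
    ‖a - c‖ ^ 2 + ‖b - d‖ ^ 2 ≤ ‖a - b‖ ^ 2 + ‖b - c‖ ^ 2 + ‖c - d‖ ^ 2 + ‖d - a‖ ^ 2 := by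
  have h := sq_nonneg ‖a - b + c - d‖
  have e : ‖a - b + c - d‖ ^ 2 = ‖a - b‖ ^ 2 + ‖b - c‖ ^ 2 + ‖c - d‖ ^ 2 + ‖d - a‖ ^ 2 -
      ‖a - c‖ ^ 2 - ‖b - d‖ ^ 2 := by
    simp only [← real_inner_self_eq_norm_sq, inner_sub_left, inner_sub_right, inner_add_left,
      inner_add_right]
    rw [real_inner_comm a b, real_inner_comm a c, real_inner_comm a d, real_inner_comm b c,
      real_inner_comm b d, real_inner_comm c d]
    ring
  linarith

/-- Enflo's inequality. -/
lemma enflo (g : (Fin n → Bool) → H) (s : Finset (Fin n)) :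
    ∑ x, ‖g x - g (flipS s x)‖ ^ 2 ≤ ∑ i ∈ s, ∑ x, ‖g x - g (flipS {i} x)‖ ^ 2 := by
  induction s using Finset.induction_on with
  | empty =>
    have : ∀ x : Fin n → Bool, flipS ∅ x = x := by
      intro x; funext i; simp [flipS]
    simp [this]
  | insert a s ha ih =>
    rw [Finset.sum_insert ha]
    have h1 : ∀ x, ‖g x - g (flipS (insert a s) x)‖ ^ 2 +
        ‖g (flipS {a} x) - g (flipS (insert a s) (flipS {a} x))‖ ^ 2 ≤
        ‖g x - g (flipS {a} x)‖ ^ 2 + ‖g (flipS {a} x) - g (flipS s (flipS {a} x))‖ ^ 2 +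
        ‖g (flipS s x) - g (flipS {a} (flipS s x))‖ ^ 2 + ‖g x - g (flipS s x)‖ ^ 2 := by
      intro x
      rw [flipS_insert' s a ha, flipS_insert s a ha, flipS_insert'' s a ha]
      have := quad (g x) (g (flipS {a} x)) (g (flipS (insert a s) x)) (g (flipS s x))
      rw [norm_sub_rev (g (flipS (insert a s) x)) (g (flipS s x)),
        norm_sub_rev (g (flipS s x)) (g x)] at this
      exact this
    have h2 := Finset.sum_le_sum (fun x (_ : x ∈ (univ : Finset (Fin n → Bool))) => h1 x)
    simp only [Finset.sum_add_distrib] at h2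
    rw [sum_flipS {a} (fun x => ‖g x - g (flipS (insert a s) x)‖ ^ 2),
      sum_flipS {a} (fun x => ‖g x - g (flipS s x)‖ ^ 2),
      sum_flipS s (fun x => ‖g x - g (flipS {a} x)‖ ^ 2)] at h2
    linarith

/-- The Hamming distance as a real function. -/
noncomputable def dH (x y : Fin n → Bool) : ℝ := (hammingDist x y : ℝ)

lemma dH_isMet : IsMet (dH (n := n)) where
  self x := by simp [dH]
  symm x y := by simp [dH, hammingDist_comm]
  tri x y z := by
    unfold dH
    exact_mod_cast hammingDist_triangle x y z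
  pos x y h := by
    unfold dH at h
    have : hammingDist x y = 0 := by exact_mod_cast h
    exact hammingDist_eq_zero.1 this

lemma dH_flip_one (i : Fin n) (x : Fin n → Bool) : dH x (flipS {i} x) = 1 := by
  unfold dH hammingDist
  have : (univ.filter (fun j => x j ≠ flipS {i} x j)) = {i} := by
    ext j
    by_cases h : j = i <;> simp [flipS, h]
  rw [this]
  simp

lemma dH_flip_all (x : Fin n → Bool) : dH x (flipS univ x) = n := by
  unfold dH hammingDist
  have : (univ.filter (fun j => x j ≠ flipS univ x j)) = univ := by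
    ext j
    simp [flipS]
  rw [this]
  simp

/-- Lower bound for the Euclidean distortion of the cube. -/
lemma cube_lower (hn : 1 ≤ n) (g : (Fin n → Bool) → H) (r D : ℝ) (hr : 0 < r)
    (hg : ∀ x y, r * dH x y ≤ ‖g x - g y‖ ∧ ‖g x - g y‖ ≤ D * (r * dH x y)) :
    Real.sqrt n ≤ D := by
  have hn0 : (0 : ℝ) < n := by exact_mod_cast hn
  have h := enflo g univ
  have h1 : ∀ x, (r * n) ^ 2 ≤ ‖g x - g (flipS univ x)‖ ^ 2 := by
    intro x
    have := (hg x (flipS univ x)).1
    rw [dH_flip_all] at this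
    exact pow_le_pow_left₀ (by positivity) this 2
  have h2 : ∀ i x, ‖g x - g (flipS {i} x)‖ ^ 2 ≤ (D * r) ^ 2 := by
    intro i x
    have := (hg x (flipS {i} x)).2
    rw [dH_flip_one, mul_one] at this
    exact pow_le_pow_left₀ (norm_nonneg _) this 2
  have hD : 0 ≤ D := by
    have h3 := (hg (fun _ => true) (flipS univ (fun _ => true))).2
    have h4 := (hg (fun _ => true) (flipS univ (fun _ => true))).1
    rw [dH_flip_all] at h3 h4
    have h5 : 0 < r * n := by positivity
    by_contra hcon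
    push Not at hcon
    nlinarith
  have h3 : ∑ x : Fin n → Bool, (r * n) ^ 2 ≤ ∑ i : Fin n, ∑ x : Fin n → Bool, (D * r) ^ 2 :=
    (Finset.sum_le_sum fun x _ => h1 x).trans (h.trans
      (Finset.sum_le_sum fun i _ => Finset.sum_le_sum fun x _ => h2 i x))
  rw [Finset.sum_const, Finset.sum_const, Finset.sum_const, Finset.card_univ, Finset.card_univ,
    Fintype.card_fin, nsmul_eq_mul, nsmul_eq_mul, nsmul_eq_mul] at h3
  have hc : (0 : ℝ) < Fintype.card (Fin n → Bool) := by exact_mod_cast Fintype.card_pos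
  have h4 : (n : ℝ) ≤ D ^ 2 := by
    have h5 : (Fintype.card (Fin n → Bool) : ℝ) * r ^ 2 * n * n ≤
        (Fintype.card (Fin n → Bool) : ℝ) * r ^ 2 * n * D ^ 2 := by nlinarith
    exact le_of_mul_le_mul_left h5 (by positivity)
  exact (Real.sqrt_le_left hD).2 h4

/-- The standard embedding of the cube. -/
noncomputable def cubeEmb (x : Fin n → Bool) : EuclideanSpace ℝ (Fin n) :=
  WithLp.toLp 2 fun i => if x i then 1 else 0

lemma cubeEmb_dist (x y : Fin n → Bool) : ‖cubeEmb x - cubeEmb y‖ ^ 2 = dH x y := by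
  rw [EuclideanSpace.norm_sq_eq]
  have : ∀ i, ‖(cubeEmb x - cubeEmb y) i‖ ^ 2 = if x i ≠ y i then 1 else 0 := by
    intro i
    rw [PiLp.sub_apply]
    simp only [cubeEmb]
    cases x i <;> cases y i <;> simp
  rw [Finset.sum_congr rfl (fun i _ => this i)]
  unfold dH hammingDist
  rw [Finset.sum_boole]

lemma cubeEmb_bounds (x y : Fin n → Bool) :
    dH x y ≤ Real.sqrt n * ‖cubeEmb x - cubeEmb y‖ ∧ ‖cubeEmb x - cubeEmb y‖ ≤ dH x y := by
  have h1 := cubeEmb_dist x y
  have h2 : dH x y ≤ n := by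
    unfold dH
    have := hammingDist_le_card_fintype (x := x) (y := y)
    rw [Fintype.card_fin] at this
    exact_mod_cast this
  have h3 : dH x y = 0 ∨ 1 ≤ dH x y := by
    unfold dH
    rcases Nat.eq_zero_or_pos (hammingDist x y) with h | h
    · left; exact_mod_cast h
    · right; exact_mod_cast h
  have h4 : 0 ≤ dH x y := dH_isMet.nonneg x y
  have hs : Real.sqrt n ^ 2 = n := Real.sq_sqrt (Nat.cast_nonneg n)
  constructor
  · apply le_of_sq_le_sq _ (by positivity)
    rw [mul_pow, hs, h1]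
    nlinarith
  · apply le_of_sq_le_sq _ h4
    rw [h1]
    rcases h3 with h | h
    · rw [h]; norm_num
    · nlinarith

end

end Pool.Agent.Lib.MP_dbb15e_gt
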