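import Mathlib

/-!
# The Euclidean distortion of a union of two metric spaces: definitions
-/

set_option autoImplicit false

namespace Pool.Agent.Lib.MP_dbb15e_gt

open scoped NNReal

/-- `X` embeds into `Y` with distortion at most `D`: there is a map `f : X → Y` which is Lipschitz
with constant `K`, is injective with inverse Lipschitz with constant `L` on its image
(`dist x y ≤ L * dist (f x) (f y)`), and `K * L ≤ D`. -/
def EmbedsWith (X Y : Type) [MetricSpace X] [MetricSpace Y] (D : ℝ) : Prop :=
  ∃ (f : X → Y) (K L : ℝ≥0), LipschitzWith K f ∧ AntilipschitzWith L f ∧ (K * L : ℝ) ≤ D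

/-- `X` embeds with distortion at most `D` into a Euclidean space of finite dimension or into
separable Hilbert space. -/
def EuclideanEmbeds (X : Type) [MetricSpace X] (D : ℝ) : Prop :=
  (∃ a : ℕ, EmbedsWith X (EuclideanSpace ℝ (Fin a)) D) ∨ EmbedsWith X (lp (fun _ : ℕ => ℝ) 2) D

/-- Every metric space which is the union of a subspace `A` with Euclidean distortion at most `DA`
and a subspace `B` with Euclidean distortion at most `DB` embeds into separable Hilbert space with
distortion at most `D`. -/
def UnionProperty (DA DB D : ℝ) : Prop :=
  ∀ (X : Type) [MetricSpace X] (A B : Set X), A ∪ B = Set.univ →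
    EuclideanEmbeds A DA → EuclideanEmbeds B DB → EmbedsWith X (lp (fun _ : ℕ => ℝ) 2) D

/-- The least `D` (infimum) such that `UnionProperty DA DB D` holds. -/
noncomputable def unionDistortion (DA DB : ℝ) : ℝ := sInf {D : ℝ | UnionProperty DA DB D}

end Pool.Agent.Lib.MP_dbb15e_gt
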