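import Mathlib

/-!
# Nets in finite dimensional spaces
-/

set_option autoImplicit false

namespace Pool.Agent.Lib.MP_dbb15e_gt

open Finset MeasureTheory Metric Module
open scoped ENNReal

section

variable {E : Type*} [NormedAddCommGroup E] [NormedSpace ℝ E] [FiniteDimensional ℝ E]

open scoped Function in
/-- A separated subset of the unit ball has bounded cardinality. -/
theorem card_le_of_sep (η : ℝ) (hη : 0 < η) (s : Finset E) (hs : ∀ c ∈ s, ‖c‖ ≤ 1)
    (h : ∀ c ∈ s, ∀ d ∈ s, c ≠ d → η ≤ ‖c - d‖) :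
    (s.card : ℝ) ≤ (1 + 2 / η) ^ finrank ℝ E := by
  borelize E
  let μ : Measure E := Measure.addHaar
  let δ : ℝ := η / 2
  let ρ : ℝ := 1 + η / 2
  have ρpos : 0 < ρ := by positivity
  have δpos : 0 < δ := by positivity
  set A := ⋃ c ∈ s, ball (c : E) δ with hA
  have D : Set.Pairwise (s : Set E) (Disjoint on fun c => ball (c : E) δ) := by
    rintro c hc d hd hcd
    apply ball_disjoint_ball
    rw [dist_eq_norm]
    have := h c hc d hd hcd
    simp only [δ]
    linarith
  have A_subset : A ⊆ ball (0 : E) ρ := by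
    refine Set.iUnion₂_subset fun x hx => ?_
    apply ball_subset_ball'
    calc
      δ + dist x 0 ≤ δ + 1 := by rw [dist_zero_right]; exact add_le_add le_rfl (hs x hx)
      _ = ρ := by simp only [δ, ρ]; ring
  have I :
    (s.card : ℝ≥0∞) * ENNReal.ofReal (δ ^ finrank ℝ E) * μ (ball 0 1) ≤
      ENNReal.ofReal (ρ ^ finrank ℝ E) * μ (ball 0 1) :=
    calc
      (s.card : ℝ≥0∞) * ENNReal.ofReal (δ ^ finrank ℝ E) * μ (ball 0 1) = μ A := by
        rw [hA, measure_biUnion_finset D fun c _ => measurableSet_ball]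
        simp only [μ.addHaar_ball_of_pos _ δpos]
        simp only [Finset.sum_const, nsmul_eq_mul, mul_assoc]
      _ ≤ μ (ball (0 : E) ρ) := measure_mono A_subset
      _ = ENNReal.ofReal (ρ ^ finrank ℝ E) * μ (ball 0 1) := by
        simp only [μ.addHaar_ball_of_pos _ ρpos]
  have J : (s.card : ℝ≥0∞) * ENNReal.ofReal (δ ^ finrank ℝ E) ≤ ENNReal.ofReal (ρ ^ finrank ℝ E) :=
    (ENNReal.mul_le_mul_iff_left (measure_ball_pos _ _ zero_lt_one).ne' measure_ball_lt_top.ne).1 I
  have K := ENNReal.toReal_le_of_le_ofReal (pow_nonneg ρpos.le _) J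
  rw [ENNReal.toReal_mul, ENNReal.toReal_ofReal (pow_nonneg δpos.le _)] at K
  simp only [ENNReal.toReal_natCast] at K
  have h1 : (1 + 2 / η) ^ finrank ℝ E = ρ ^ finrank ℝ E / δ ^ finrank ℝ E := by
    rw [← div_pow]
    congr 1
    simp only [ρ, δ]
    field_simp
    ring
  rw [h1, le_div_iff₀ (pow_pos δpos _)]
  exact K

/-- Nets of subsets of the unit ball. -/
theorem exists_net (η : ℝ) (hη : 0 < η) (A : Set E) (hA : ∀ x ∈ A, ‖x‖ ≤ 1) :
    ∃ s : Finset E, (∀ x ∈ s, x ∈ A) ∧ (∀ x ∈ A, ∃ y ∈ s, ‖x - y‖ < η) ∧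
      (s.card : ℝ) ≤ (1 + 2 / η) ^ finrank ℝ E := by
  classical
  let P : ℕ → Prop := fun n => ∃ s : Finset E, s.card = n ∧ (∀ x ∈ s, x ∈ A) ∧
    (∀ c ∈ s, ∀ d ∈ s, c ≠ d → η ≤ ‖c - d‖)
  have hP0 : P 0 := ⟨∅, by simp, by simp, by simp⟩
  set M : ℕ := ⌊(1 + 2 / η) ^ finrank ℝ E⌋₊ with hM
  have hbound : ∀ n, P n → n ≤ M := by
    rintro n ⟨s, rfl, hsA, hsep⟩
    exact Nat.le_floor (card_le_of_sep η hη s (fun c hc => hA c (hsA c hc)) hsep)
  have hspec : P (Nat.findGreatest P M) := Nat.findGreatest_spec (Nat.zero_le M) hP0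
  obtain ⟨s, hcard, hsA, hsep⟩ := hspec
  refine ⟨s, hsA, ?_, card_le_of_sep η hη s (fun c hc => hA c (hsA c hc)) hsep⟩
  intro x hx
  by_contra hcon
  push Not at hcon
  have hxs : x ∉ s := by
    intro hxs
    have := hcon x hxs
    rw [sub_self, norm_zero] at this
    linarith
  have hP : P (s.card + 1) := by
    refine ⟨insert x s, Finset.card_insert_of_notMem hxs, ?_, ?_⟩
    · intro y hy
      rcases Finset.mem_insert.1 hy with rfl | hy
      · exact hx
      · exact hsA y hy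
    · intro c hc d hd hcd
      rcases Finset.mem_insert.1 hc with hc' | hc'
      · rcases Finset.mem_insert.1 hd with hd' | hd'
        · exact absurd (hc'.trans hd'.symm) hcd
        · rw [hc']; exact hcon d hd'
      · rcases Finset.mem_insert.1 hd with hd' | hd'
        · rw [hd', norm_sub_rev]; exact hcon c hc'
        · exact hsep c hc' d hd' hcd
  have h1 := Nat.le_findGreatest (hbound _ hP) hP
  omega

end

end Pool.Agent.Lib.MP_dbb15e_gt
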