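import Mathlib
import Pool.Agent.Lib.MP_dbb15e_gt.Net

/-!
# Random sign matrices
-/

set_option autoImplicit false

namespace Pool.Agent.Lib.MP_dbb15e_gt

open Finset

/-- The sign attached to a Boolean. -/
noncomputable def sg (b : Bool) : ℝ := if b then 1 else -1

lemma sg_sq (b : Bool) : sg b ^ 2 = 1 := by
  cases b <;> simp [sg]

lemma sg_not (b : Bool) : sg (!b) = - sg b := by
  cases b <;> simp [sg]

section row

variable {K : Type*} [Fintype K] [DecidableEq K]

/-- A signed sum. -/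
noncomputable def rad (x : K → ℝ) (ω : K → Bool) : ℝ := ∑ l, sg (ω l) * x l

lemma rad_exp (x : K → ℝ) :
    ∑ ω : K → Bool, Real.exp (rad x ω) = ∏ l, (2 * Real.cosh (x l)) := by
  have h1 : ∀ l, 2 * Real.cosh (x l) = ∑ b ∈ (Finset.univ : Finset Bool), Real.exp (sg b * x l) := by
    intro l
    rw [Real.cosh_eq]
    simp [sg]
    ring
  rw [Finset.prod_congr rfl (fun l _ => h1 l), Finset.prod_univ_sum, Fintype.piFinset_univ]
  refine Finset.sum_congr rfl fun ω _ => ?_
  rw [rad, Real.exp_sum]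

lemma rad_exp_le (x : K → ℝ) :
    ∑ ω : K → Bool, Real.exp (rad x ω) ≤ 2 ^ Fintype.card K * Real.exp ((∑ l, x l ^ 2) / 2) := by
  rw [rad_exp, Finset.sum_div, Real.exp_sum]
  have : (2 : ℝ) ^ Fintype.card K * ∏ l, Real.exp (x l ^ 2 / 2)
      = ∏ l, (2 * Real.exp (x l ^ 2 / 2)) := by
    rw [Finset.prod_mul_distrib, Finset.prod_const, Finset.card_univ]
  rw [this]
  refine Finset.prod_le_prod (fun l _ => ?_) (fun l _ => ?_)
  · have := Real.cosh_pos (x l); positivity
  · have := Real.cosh_le_exp_half_sq (x l)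
    linarith

/-- Flipping a coordinate. -/
def flipAt (a : K) (ω : K → Bool) : K → Bool := Function.update ω a (!(ω a))

lemma flipAt_invol (a : K) : Function.Involutive (flipAt a) := by
  intro ω
  funext l
  by_cases h : l = a
  · subst h; simp [flipAt]
  · simp [flipAt, Function.update_of_ne h]

lemma sum_flip_zero (a : K) (f : (K → Bool) → ℝ) (hf : ∀ ω, f (flipAt a ω) = f ω) :
    ∑ ω, sg (ω a) * f ω = 0 := by
  have h := Equiv.sum_comp (Function.Involutive.toPerm (flipAt a) (flipAt_invol a))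
    (fun ω => sg (ω a) * f ω)
  have h2 : ∀ ω : K → Bool, (fun ω : K → Bool => sg (ω a) * f ω)
      (Function.Involutive.toPerm (flipAt a) (flipAt_invol a) ω) = - (sg (ω a) * f ω) := by
    intro ω
    simp only [Function.Involutive.coe_toPerm]
    rw [hf, flipAt, Function.update_self, sg_not]
    ring
  rw [Finset.sum_congr rfl (fun ω _ => h2 ω), Finset.sum_neg_distrib] at h
  linarith

/-- Partial signed sums. -/
noncomputable def radS (s : Finset K) (x : K → ℝ) (ω : K → Bool) : ℝ := ∑ l ∈ s, sg (ω l) * x l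

lemma radS_flip (s : Finset K) (x : K → ℝ) (a : K) (ha : a ∉ s) (ω : K → Bool) :
    radS s x (flipAt a ω) = radS s x ω := by
  refine Finset.sum_congr rfl fun l hl => ?_
  have : l ≠ a := fun h => ha (h ▸ hl)
  rw [flipAt, Function.update_of_ne this]

lemma radS_moments (s : Finset K) (x : K → ℝ) :
    ∑ ω : K → Bool, radS s x ω ^ 2 = 2 ^ Fintype.card K * ∑ l ∈ s, x l ^ 2 ∧
    ∑ ω : K → Bool, radS s x ω ^ 4 ≤ 3 * 2 ^ Fintype.card K * (∑ l ∈ s, x l ^ 2) ^ 2 := by
  classical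
  induction s using Finset.induction_on with
  | empty => simp [radS]
  | insert a s ha ih =>
    obtain ⟨ih2, ih4⟩ := ih
    have hrec : ∀ ω, radS (insert a s) x ω = sg (ω a) * x a + radS s x ω := by
      intro ω
      rw [radS, Finset.sum_insert ha, radS]
    have hf := radS_flip s x a ha
    have z1 : ∑ ω, sg (ω a) * radS s x ω = 0 := sum_flip_zero a _ hf
    have z3 : ∑ ω, sg (ω a) * radS s x ω ^ 3 = 0 :=
      sum_flip_zero a _ (fun ω => by rw [hf])
    have hcard : ∑ ω : K → Bool, (1 : ℝ) = 2 ^ Fintype.card K := by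
      rw [Finset.sum_const, Finset.card_univ]
      simp
    have e2 : ∀ ω, radS (insert a s) x ω ^ 2
        = x a ^ 2 * 1 + (2 * x a) * (sg (ω a) * radS s x ω) + radS s x ω ^ 2 := by
      intro ω
      rw [hrec]
      have := sg_sq (ω a)
      calc (sg (ω a) * x a + radS s x ω) ^ 2
          = sg (ω a) ^ 2 * x a ^ 2 + (2 * x a) * (sg (ω a) * radS s x ω) + radS s x ω ^ 2 := by ring
        _ = _ := by rw [this]; ring
    have e4 : ∀ ω, radS (insert a s) x ω ^ 4
        = x a ^ 4 * 1 + (4 * x a ^ 3) * (sg (ω a) * radS s x ω)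
          + (6 * x a ^ 2) * radS s x ω ^ 2 + (4 * x a) * (sg (ω a) * radS s x ω ^ 3)
          + radS s x ω ^ 4 := by
      intro ω
      rw [hrec]
      have := sg_sq (ω a)
      calc (sg (ω a) * x a + radS s x ω) ^ 4
          = (sg (ω a) ^ 2) ^ 2 * x a ^ 4 + (4 * x a ^ 3) * (sg (ω a) ^ 2 * sg (ω a) * radS s x ω)
            + (6 * x a ^ 2) * (sg (ω a) ^ 2 * radS s x ω ^ 2)
            + (4 * x a) * (sg (ω a) * radS s x ω ^ 3)
          + radS s x ω ^ 4 := by ring
        _ = _ := by rw [this]; ring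
    rw [Finset.sum_insert ha]
    constructor
    · rw [Finset.sum_congr rfl (fun ω _ => e2 ω)]
      rw [Finset.sum_add_distrib, Finset.sum_add_distrib, ← Finset.mul_sum, ← Finset.mul_sum,
        hcard, z1, ih2]
      ring
    · rw [Finset.sum_congr rfl (fun ω _ => e4 ω)]
      rw [Finset.sum_add_distrib, Finset.sum_add_distrib, Finset.sum_add_distrib,
        Finset.sum_add_distrib, ← Finset.mul_sum, ← Finset.mul_sum,
        ← Finset.mul_sum, ← Finset.mul_sum, hcard, z1, z3, ih2]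
      have hp : (0 : ℝ) < 2 ^ Fintype.card K := by positivity
      have : 0 ≤ 2 ^ Fintype.card K * x a ^ 4 := by positivity
      nlinarith [ih4]

lemma rad_sq (x : K → ℝ) :
    ∑ ω : K → Bool, rad x ω ^ 2 = 2 ^ Fintype.card K * ∑ l, x l ^ 2 :=
  (radS_moments Finset.univ x).1

lemma rad_four (x : K → ℝ) :
    ∑ ω : K → Bool, rad x ω ^ 4 ≤ 3 * 2 ^ Fintype.card K * (∑ l, x l ^ 2) ^ 2 :=
  (radS_moments Finset.univ x).2

lemma exp_neg_le (z : ℝ) (hz : 0 ≤ z) : Real.exp (-z) ≤ 1 - z ^ 2 / 2 + z ^ 4 / 8 := by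
  have h1 : Real.exp (-z) ≤ 1 / (1 + z) := by
    rw [Real.exp_neg, ← one_div]
    apply one_div_le_one_div_of_le (by linarith)
    have := Real.add_one_le_exp z
    linarith
  refine h1.trans ?_
  rw [div_le_iff₀ (by linarith)]
  have key : 0 ≤ z ^ 4 + z ^ 3 - 4 * z ^ 2 - 4 * z + 8 := by
    nlinarith [sq_nonneg (z ^ 2 - 2), sq_nonneg (z - 1), sq_nonneg (z ^ 2 + z / 2 - 2),
      mul_nonneg hz (sq_nonneg (z - 1)), mul_nonneg hz (sq_nonneg (z - 3/2)),
      sq_nonneg (z - 4/3), mul_nonneg hz (sq_nonneg (z - 4/3)),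
      mul_nonneg hz hz]
  nlinarith [mul_nonneg hz key]

lemma rad_exp_neg_abs (x : K → ℝ) (hx : ∑ l, x l ^ 2 = 1) :
    ∑ ω : K → Bool, Real.exp (-|rad x ω|) ≤ 7 / 8 * 2 ^ Fintype.card K := by
  have h1 : ∀ ω : K → Bool, Real.exp (-|rad x ω|)
      ≤ 1 - rad x ω ^ 2 / 2 + rad x ω ^ 4 / 8 := by
    intro ω
    have h := exp_neg_le |rad x ω| (abs_nonneg _)
    have e2 : |rad x ω| ^ 2 = rad x ω ^ 2 := sq_abs _
    have e4 : |rad x ω| ^ 4 = rad x ω ^ 4 := by
      have : |rad x ω| ^ 4 = (|rad x ω| ^ 2) ^ 2 := by ring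
      rw [this, e2]; ring
    rw [e2, e4] at h
    exact h
  refine (Finset.sum_le_sum (fun ω _ => h1 ω)).trans ?_
  rw [Finset.sum_add_distrib, Finset.sum_sub_distrib, ← Finset.sum_div, ← Finset.sum_div,
    rad_sq, hx]
  have h4 := rad_four x
  rw [hx] at h4
  have hcard : ∑ ω : K → Bool, (1 : ℝ) = 2 ^ Fintype.card K := by
    rw [Finset.sum_const, Finset.card_univ]
    simp
  rw [hcard]
  linarith

end row

section matrix

variable {K : Type*} [Fintype K] [DecidableEq K] {N : ℕ}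

/-- Average over sign matrices of the product of row functions. -/
lemma sum_matrix (F : Fin N → (K → Bool) → ℝ) :
    ∑ ε : Fin N → K → Bool, ∏ j, F j (ε j) = ∏ j, ∑ ω, F j ω := by
  rw [Finset.prod_univ_sum, Fintype.piFinset_univ]

lemma mat_lower (x : K → ℝ) (hx : ∑ l, x l ^ 2 = 1) :
    ∑ ε : Fin N → K → Bool, Real.exp ((N : ℝ) / 20 - ∑ j, |rad x (ε j)|)
      ≤ (15 / 16) ^ N * (2 ^ Fintype.card K) ^ N := by
  have h1 : ∀ ε : Fin N → K → Bool, Real.exp ((N : ℝ) / 20 - ∑ j, |rad x (ε j)|)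
      = ∏ j, (Real.exp (1 / 20) * Real.exp (-|rad x (ε j)|)) := by
    intro ε
    rw [Finset.prod_mul_distrib, ← Real.exp_sum, ← Real.exp_sum, ← Real.exp_add]
    congr 1
    rw [Finset.sum_const, Finset.card_univ, Fintype.card_fin, Finset.sum_neg_distrib, nsmul_eq_mul]
    ring
  rw [Finset.sum_congr rfl (fun ε _ => h1 ε),
    sum_matrix (fun _ ω => Real.exp (1 / 20) * Real.exp (-|rad x ω|))]
  rw [Finset.prod_const, Finset.card_univ, Fintype.card_fin, ← mul_pow]
  apply pow_le_pow_left₀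
  · exact Finset.sum_nonneg fun ω _ => by positivity
  · rw [← Finset.mul_sum]
    have h2 := rad_exp_neg_abs x hx
    have h3 : Real.exp (1 / 20) ≤ 15 / 14 := by
      have h := Real.exp_bound' (x := 1/20) (by norm_num) (by norm_num) (n := 2) (by norm_num)
      refine h.trans ?_
      norm_num [Finset.sum_range_succ, Nat.factorial]
    have h4 : (0 : ℝ) < 2 ^ Fintype.card K := by positivity
    calc Real.exp (1 / 20) * ∑ ω, Real.exp (-|rad x ω|)
        ≤ 15 / 14 * (7 / 8 * 2 ^ Fintype.card K) := by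
          apply mul_le_mul h3 h2 _ (by norm_num)
          exact Finset.sum_nonneg fun ω _ => (Real.exp_pos _).le
      _ = _ := by ring

/-- The bilinear form of a sign matrix. -/
noncomputable def bil (ε : Fin N → K → Bool) (x : K → ℝ) (y : Fin N → ℝ) : ℝ :=
  ∑ j, y j * rad x (ε j)

lemma mat_upper (u : ℝ) (x : K → ℝ) (hx : ∑ l, x l ^ 2 ≤ 1) (y : Fin N → ℝ)
    (hy : ∑ j, y j ^ 2 ≤ 1) :
    ∑ ε : Fin N → K → Bool, Real.exp (u * bil ε x y - u ^ 2)
      ≤ Real.exp (-u ^ 2 / 2) * (2 ^ Fintype.card K) ^ N := by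
  have h1 : ∀ ε : Fin N → K → Bool, Real.exp (u * bil ε x y - u ^ 2)
      = Real.exp (-u ^ 2) * ∏ j, Real.exp (rad (fun l => u * y j * x l) (ε j)) := by
    intro ε
    rw [← Real.exp_sum, ← Real.exp_add]
    congr 1
    have : ∀ j, rad (fun l => u * y j * x l) (ε j) = u * (y j * rad x (ε j)) := by
      intro j
      rw [rad, rad, Finset.mul_sum, Finset.mul_sum]
      refine Finset.sum_congr rfl fun l _ => ?_
      ring
    rw [Finset.sum_congr rfl (fun j _ => this j), ← Finset.mul_sum, bil]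
    ring
  rw [Finset.sum_congr rfl (fun ε _ => h1 ε), ← Finset.mul_sum,
    sum_matrix (fun j ω => Real.exp (rad (fun l => u * y j * x l) ω))]
  have h2 : ∏ j : Fin N, ∑ ω : K → Bool, Real.exp (rad (fun l => u * y j * x l) ω)
      ≤ ∏ j : Fin N, (2 ^ Fintype.card K * Real.exp (u ^ 2 * y j ^ 2 / 2)) := by
    refine Finset.prod_le_prod (fun j _ => Finset.sum_nonneg fun ω _ => (Real.exp_pos _).le)
      (fun j _ => ?_)
    refine (rad_exp_le _).trans ?_
    gcongr
    calc ∑ l, (u * y j * x l) ^ 2 = (u ^ 2 * y j ^ 2) * ∑ l, x l ^ 2 := by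
          rw [Finset.mul_sum]
          exact Finset.sum_congr rfl fun l _ => by ring
      _ ≤ (u ^ 2 * y j ^ 2) * 1 := by gcongr
      _ = _ := by ring
  have h3 : ∏ j : Fin N, (2 ^ Fintype.card K * Real.exp (u ^ 2 * y j ^ 2 / 2))
      = (2 ^ Fintype.card K) ^ N * Real.exp (u ^ 2 * (∑ j, y j ^ 2) / 2) := by
    rw [Finset.prod_mul_distrib, Finset.prod_const, Finset.card_univ, Fintype.card_fin,
      ← Real.exp_sum]
    congr 2
    rw [Finset.mul_sum, Finset.sum_div]
  rw [h3] at h2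
  calc Real.exp (-u ^ 2) * ∏ j : Fin N, ∑ ω : K → Bool, Real.exp (rad (fun l => u * y j * x l) ω)
      ≤ Real.exp (-u ^ 2) * ((2 ^ Fintype.card K) ^ N * Real.exp (u ^ 2 * (∑ j, y j ^ 2) / 2)) := by
        gcongr
    _ = Real.exp (-u ^ 2 + u ^ 2 * (∑ j, y j ^ 2) / 2) * (2 ^ Fintype.card K) ^ N := by
        rw [Real.exp_add]; ring
    _ ≤ Real.exp (-u ^ 2 / 2) * (2 ^ Fintype.card K) ^ N := by
        gcongr
        have : u ^ 2 * (∑ j, y j ^ 2) ≤ u ^ 2 * 1 := by gcongr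
        linarith

/-- Existence of a good sign matrix for given nets. -/
lemma exists_signs (u : ℝ) (S1 : Finset (K → ℝ)) (S2 : Finset ((K → ℝ) × (Fin N → ℝ)))
    (h1 : ∀ x ∈ S1, ∑ l, x l ^ 2 = 1)
    (h2 : ∀ p ∈ S2, ∑ l, p.1 l ^ 2 ≤ 1 ∧ ∑ j, p.2 j ^ 2 ≤ 1)
    (hu : 0 < u)
    (hc : (S1.card : ℝ) * (15 / 16) ^ N + S2.card * Real.exp (-u ^ 2 / 2) < 1) :
    ∃ ε : Fin N → K → Bool, (∀ x ∈ S1, (N : ℝ) / 20 ≤ ∑ j, |rad x (ε j)|) ∧
      (∀ p ∈ S2, bil ε p.1 p.2 ≤ u) := by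
  set Φ : (Fin N → K → Bool) → ℝ := fun ε =>
    ∑ x ∈ S1, Real.exp ((N : ℝ) / 20 - ∑ j, |rad x (ε j)|)
      + ∑ p ∈ S2, Real.exp (u * bil ε p.1 p.2 - u ^ 2) with hΦ
  set T : ℝ := (2 ^ Fintype.card K) ^ N with hT
  have hTpos : 0 < T := by positivity
  have hsum : ∑ ε, Φ ε < T := by
    simp only [hΦ]
    rw [Finset.sum_add_distrib, Finset.sum_comm, Finset.sum_comm (s := Finset.univ) (t := S2)]
    have a1 : ∑ x ∈ S1, ∑ ε : Fin N → K → Bool, Real.exp ((N : ℝ) / 20 - ∑ j, |rad x (ε j)|)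
        ≤ ∑ x ∈ S1, (15 / 16) ^ N * T :=
      Finset.sum_le_sum fun x hx => mat_lower x (h1 x hx)
    have a2 : ∑ p ∈ S2, ∑ ε : Fin N → K → Bool, Real.exp (u * bil ε p.1 p.2 - u ^ 2)
        ≤ ∑ p ∈ S2, Real.exp (-u ^ 2 / 2) * T :=
      Finset.sum_le_sum fun p hp => mat_upper u p.1 (h2 p hp).1 p.2 (h2 p hp).2
    rw [Finset.sum_const, nsmul_eq_mul] at a1 a2
    nlinarith [mul_lt_mul_of_pos_right hc hTpos]
  have hcard : ∑ ε : Fin N → K → Bool, (1 : ℝ) = T := by
    rw [Finset.sum_const, Finset.card_univ, nsmul_eq_mul, mul_one]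
    simp [hT]
  have hex : ∃ ε, Φ ε < 1 := by
    by_contra hcon
    push Not at hcon
    have := Finset.sum_le_sum (fun ε (_ : ε ∈ (Finset.univ : Finset (Fin N → K → Bool))) => hcon ε)
    rw [hcard] at this
    linarith
  obtain ⟨ε, hε⟩ := hex
  have n1 : 0 ≤ ∑ x ∈ S1, Real.exp ((N : ℝ) / 20 - ∑ j, |rad x (ε j)|) :=
    Finset.sum_nonneg fun x _ => (Real.exp_pos _).le
  have n2 : 0 ≤ ∑ p ∈ S2, Real.exp (u * bil ε p.1 p.2 - u ^ 2) :=
    Finset.sum_nonneg fun x _ => (Real.exp_pos _).le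
  simp only [hΦ] at hε
  refine ⟨ε, fun x hx => ?_, fun p hp => ?_⟩
  · by_contra hcon
    push Not at hcon
    have h3 := Finset.single_le_sum (f := fun x => Real.exp ((N : ℝ) / 20 - ∑ j, |rad x (ε j)|))
      (fun x _ => (Real.exp_pos _).le) hx
    have h4 : 1 ≤ Real.exp ((N : ℝ) / 20 - ∑ j, |rad x (ε j)|) := by
      apply Real.one_le_exp; linarith
    linarith
  · by_contra hcon
    push Not at hcon
    have h3 := Finset.single_le_sum (f := fun p : (K → ℝ) × (Fin N → ℝ) =>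
      Real.exp (u * bil ε p.1 p.2 - u ^ 2))
      (fun x _ => (Real.exp_pos _).le) hp
    have h4 : 1 ≤ Real.exp (u * bil ε p.1 p.2 - u ^ 2) := by
      apply Real.one_le_exp
      nlinarith
    linarith

end matrix

section final

variable {K : Type*} [Fintype K] [DecidableEq K] {N : ℕ}

/-- The linear map of a sign matrix. -/
noncomputable def matL (ε : Fin N → K → Bool) :
    EuclideanSpace ℝ K →ₗ[ℝ] EuclideanSpace ℝ (Fin N) where
  toFun x := WithLp.toLp 2 (fun j => rad x.ofLp (ε j))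
  map_add' x y := by
    ext j
    simp only [rad, PiLp.add_apply, WithLp.ofLp_add, Pi.add_apply]
    rw [← Finset.sum_add_distrib]
    exact Finset.sum_congr rfl fun l _ => by ring
  map_smul' c x := by
    ext j
    simp only [rad, PiLp.smul_apply, WithLp.ofLp_smul, Pi.smul_apply, smul_eq_mul, RingHom.id_apply]
    rw [Finset.mul_sum]
    exact Finset.sum_congr rfl fun l _ => by ring

/-- The continuous linear map of a sign matrix. -/
noncomputable def matC (ε : Fin N → K → Bool) :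
    EuclideanSpace ℝ K →L[ℝ] EuclideanSpace ℝ (Fin N) := (matL ε).toContinuousLinearMap

lemma matC_apply (ε : Fin N → K → Bool) (x : EuclideanSpace ℝ K) (j : Fin N) :
    matC ε x j = rad x.ofLp (ε j) := rfl

lemma matC_inner (ε : Fin N → K → Bool) (x : EuclideanSpace ℝ K) (y : EuclideanSpace ℝ (Fin N)) :
    inner ℝ (matC ε x) y = bil ε x.ofLp y.ofLp := by
  rw [PiLp.inner_apply, bil]
  refine Finset.sum_congr rfl fun j _ => ?_
  rw [matC_apply]
  simp

omit [DecidableEq K] in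
lemma sum_sq_ofLp (x : EuclideanSpace ℝ K) : ∑ l, x.ofLp l ^ 2 = ‖x‖ ^ 2 := by
  rw [EuclideanSpace.norm_sq_eq]
  exact Finset.sum_congr rfl fun l _ => by rw [Real.norm_eq_abs, sq_abs]

lemma exists_good_signs [Nonempty K] (hN : N = 200 * Fintype.card K) :
    ∃ ε : Fin N → K → Bool, (∀ x : EuclideanSpace ℝ K, ‖matC ε x‖ ^ 2 ≤ 48 * N * ‖x‖ ^ 2) ∧
      (∀ x : EuclideanSpace ℝ K, (N : ℝ) / 40 * ‖x‖ ≤ ∑ j, |matC ε x j|) := by
  classical
  have hk : 0 < Fintype.card K := Fintype.card_pos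
  have hNpos : 0 < N := by omega
  have hNR : (0 : ℝ) < N := by exact_mod_cast hNpos
  obtain ⟨s1, hs1A, hs1net, hs1card⟩ := exists_net (E := EuclideanSpace ℝ K) (1 / 280)
    (by norm_num) {x | ‖x‖ = 1} (fun x hx => le_of_eq hx)
  obtain ⟨s2, hs2A, hs2net, hs2card⟩ := exists_net (E := EuclideanSpace ℝ K) (1 / 4)
    (by norm_num) {x | ‖x‖ ≤ 1} (fun x hx => hx)
  obtain ⟨s3, hs3A, hs3net, hs3card⟩ := exists_net (E := EuclideanSpace ℝ (Fin N)) (1 / 4)
    (by norm_num) {x | ‖x‖ ≤ 1} (fun x hx => hx)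
  rw [finrank_euclideanSpace] at hs1card hs2card hs3card
  rw [Fintype.card_fin] at hs3card
  set u : ℝ := Real.sqrt (12 * N) with hu
  have husq : u ^ 2 = 12 * N := Real.sq_sqrt (by positivity)
  have hupos : 0 < u := Real.sqrt_pos.2 (by positivity)
  set S1 : Finset (K → ℝ) := s1.image (fun x => x.ofLp) with hS1
  set S2 : Finset ((K → ℝ) × (Fin N → ℝ)) := (s2 ×ˢ s3).image (fun p => (p.1.ofLp, p.2.ofLp)) with hS2
  have hc : (S1.card : ℝ) * (15 / 16) ^ N + S2.card * Real.exp (-u ^ 2 / 2) < 1 := by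
    have c1 : (S1.card : ℝ) ≤ 561 ^ Fintype.card K := by
      have : (S1.card : ℝ) ≤ s1.card := by exact_mod_cast Finset.card_image_le
      refine this.trans (hs1card.trans (le_of_eq ?_))
      norm_num
    have c2 : (S2.card : ℝ) ≤ 9 ^ N * 9 ^ N := by
      have h1 : (S2.card : ℝ) ≤ (s2 ×ˢ s3).card := by exact_mod_cast Finset.card_image_le
      rw [Finset.card_product] at h1
      push_cast at h1
      have h2 : (s2.card : ℝ) ≤ 9 ^ N := by
        refine hs2card.trans ?_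
        have : (1 + 2 / (1 / 4) : ℝ) = 9 := by norm_num
        rw [this]
        exact pow_le_pow_right₀ (by norm_num) (by omega)
      have h3 : (s3.card : ℝ) ≤ 9 ^ N := by
        refine hs3card.trans (le_of_eq ?_)
        norm_num
      calc (S2.card : ℝ) ≤ s2.card * s3.card := h1
        _ ≤ 9 ^ N * 9 ^ N := by gcongr
    have c3 : (S1.card : ℝ) * (15 / 16) ^ N ≤ 1 / 4 := by
      have h4 : ((15 : ℝ) / 16) ^ N = (((15 : ℝ) / 16) ^ 200) ^ Fintype.card K := by
        rw [← pow_mul, hN]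
      calc (S1.card : ℝ) * (15 / 16) ^ N
          ≤ 561 ^ Fintype.card K * (((15 : ℝ) / 16) ^ 200) ^ Fintype.card K := by
            rw [h4]; gcongr
        _ = (561 * (15 / 16) ^ 200) ^ Fintype.card K := by rw [mul_pow]
        _ ≤ (1 / 4) ^ Fintype.card K := by
            apply pow_le_pow_left₀ (by positivity)
            norm_num
        _ ≤ (1 / 4) ^ 1 := pow_le_pow_of_le_one (by norm_num) (by norm_num) hk
        _ = 1 / 4 := by norm_num
    have c4 : (S2.card : ℝ) * Real.exp (-u ^ 2 / 2) ≤ 1 / 4 := by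
      have h5 : Real.exp (-u ^ 2 / 2) = (Real.exp (-6)) ^ N := by
        rw [← Real.exp_nat_mul]
        congr 1
        have : -u ^ 2 / 2 = -(u ^ 2) / 2 := by ring
        rw [this, husq]
        ring
      have h6 : Real.exp (-6) ≤ 1 / 324 := by
        rw [Real.exp_neg, ← one_div]
        apply one_div_le_one_div_of_le (by norm_num)
        have h7 : (2.7182818283 : ℝ) < Real.exp 1 := Real.exp_one_gt_d9
        have h8 : Real.exp 6 = Real.exp 1 ^ 6 := by
          rw [← Real.exp_nat_mul]; norm_num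
        rw [h8]
        calc (324 : ℝ) ≤ 2.7182818283 ^ 6 := by norm_num
          _ ≤ Real.exp 1 ^ 6 := by
            apply pow_le_pow_left₀ (by norm_num) h7.le
      calc (S2.card : ℝ) * Real.exp (-u ^ 2 / 2)
          ≤ (9 ^ N * 9 ^ N) * (1 / 324) ^ N := by
            rw [h5]
            gcongr
        _ = (1 / 4) ^ N := by
            rw [← mul_pow, ← mul_pow]; norm_num
        _ ≤ (1 / 4) ^ 1 := pow_le_pow_of_le_one (by norm_num) (by norm_num) hNpos
        _ = 1 / 4 := by norm_num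
    linarith
  obtain ⟨ε, hε1, hε2⟩ := exists_signs u S1 S2 (by
      intro x hx
      obtain ⟨y, hy, rfl⟩ := Finset.mem_image.1 hx
      have : ‖y‖ = 1 := hs1A y hy
      rw [sum_sq_ofLp, this]; norm_num) (by
      intro p hp
      obtain ⟨y, hy, rfl⟩ := Finset.mem_image.1 hp
      rw [Finset.mem_product] at hy
      have h1 : ‖y.1‖ ≤ 1 := hs2A _ hy.1
      have h2 : ‖y.2‖ ≤ 1 := hs3A _ hy.2
      constructor
      · rw [sum_sq_ofLp]; exact pow_le_one₀ (norm_nonneg _) h1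
      · change ∑ j, y.2.ofLp j ^ 2 ≤ 1
        rw [sum_sq_ofLp]; exact pow_le_one₀ (norm_nonneg _) h2) hupos hc
  have hop : ‖matC ε‖ ≤ u + ‖matC ε‖ / 2 := by
    refine ContinuousLinearMap.opNorm_le_of_unit_norm (by positivity) ?_
    intro x hx
    rcases eq_or_ne (matC ε x) 0 with hz | hz
    · rw [hz, norm_zero]; positivity
    set y : EuclideanSpace ℝ (Fin N) := ‖matC ε x‖⁻¹ • matC ε x with hy
    have hz' : ‖matC ε x‖ ≠ 0 := norm_ne_zero_iff.2 hz
    have hy1 : ‖y‖ = 1 := by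
      rw [hy, norm_smul, norm_inv, norm_norm, inv_mul_cancel₀ hz']
    have hyz : inner ℝ (matC ε x) y = ‖matC ε x‖ := by
      rw [hy, real_inner_smul_right, real_inner_self_eq_norm_sq]
      field_simp
    obtain ⟨x', hx's, hx'⟩ := hs2net x hx.le
    obtain ⟨y', hy's, hy'⟩ := hs3net y hy1.le
    have hx'1 : ‖x'‖ ≤ 1 := hs2A _ hx's
    have hb : inner ℝ (matC ε x') y' ≤ u := by
      rw [matC_inner]
      have := hε2 (x'.ofLp, y'.ofLp) (by
        rw [hS2, Finset.mem_image]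
        exact ⟨(x', y'), Finset.mem_product.2 ⟨hx's, hy's⟩, rfl⟩)
      exact this
    have hsplit : inner ℝ (matC ε x) y = inner ℝ (matC ε x') y' + inner ℝ (matC ε (x - x')) y
        + inner ℝ (matC ε x') (y - y') := by
      rw [map_sub, inner_sub_left, inner_sub_right]; ring
    have i1 : inner ℝ (matC ε (x - x')) y ≤ ‖matC ε‖ * (1 / 4) := by
      calc inner ℝ (matC ε (x - x')) y ≤ ‖matC ε (x - x')‖ * ‖y‖ := real_inner_le_norm _ _
        _ ≤ (‖matC ε‖ * ‖x - x'‖) * 1 := by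
            rw [hy1]; gcongr; exact ContinuousLinearMap.le_opNorm _ _
        _ ≤ (‖matC ε‖ * (1 / 4)) * 1 := by gcongr
        _ = _ := by ring
    have i2 : inner ℝ (matC ε x') (y - y') ≤ ‖matC ε‖ * (1 / 4) := by
      calc inner ℝ (matC ε x') (y - y') ≤ ‖matC ε x'‖ * ‖y - y'‖ := real_inner_le_norm _ _
        _ ≤ (‖matC ε‖ * ‖x'‖) * (1 / 4) := by
            gcongr; exact ContinuousLinearMap.le_opNorm _ _
        _ ≤ (‖matC ε‖ * 1) * (1 / 4) := by gcongr
        _ = _ := by ring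
    rw [← hyz, hsplit]
    linarith
  have hop2 : ‖matC ε‖ ≤ 2 * u := by linarith
  have hu2 : ∀ x : EuclideanSpace ℝ K, ‖matC ε x‖ ≤ 2 * u * ‖x‖ := fun x =>
    (ContinuousLinearMap.le_opNorm _ x).trans (by gcongr)
  have huN : u ≤ 7 / 2 * Real.sqrt N := by
    rw [hu, Real.sqrt_mul (by norm_num)]
    gcongr
    rw [Real.sqrt_le_left (by norm_num)]
    norm_num
  refine ⟨ε, fun x => ?_, fun x => ?_⟩
  · calc ‖matC ε x‖ ^ 2 ≤ (2 * u * ‖x‖) ^ 2 := by
          gcongr; exact hu2 x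
      _ = 4 * u ^ 2 * ‖x‖ ^ 2 := by ring
      _ = _ := by rw [husq]; ring
  · have hl1 : ∀ z : EuclideanSpace ℝ K, ∑ j, |matC ε z j| ≤ 7 * N * ‖z‖ := by
      intro z
      have h := Finset.sum_mul_sq_le_sq_mul_sq Finset.univ (fun _ : Fin N => (1 : ℝ))
        (fun j => |matC ε z j|)
      simp only [one_mul, one_pow, Finset.sum_const, Finset.card_univ, Fintype.card_fin,
        nsmul_eq_mul, mul_one, sq_abs] at h
      rw [sum_sq_ofLp] at h
      have h2 : (∑ j, |matC ε z j|) ^ 2 ≤ (7 * N * ‖z‖) ^ 2 := by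
        calc (∑ j, |matC ε z j|) ^ 2 ≤ N * ‖matC ε z‖ ^ 2 := h
          _ ≤ N * (2 * u * ‖z‖) ^ 2 := by gcongr; exact hu2 z
          _ = 4 * u ^ 2 * N * ‖z‖ ^ 2 := by ring
          _ ≤ _ := by
            rw [husq]
            have : 0 ≤ (N : ℝ) ^ 2 * ‖z‖ ^ 2 := by positivity
            nlinarith
      exact (pow_le_pow_iff_left₀ (Finset.sum_nonneg fun j _ => abs_nonneg _) (by positivity)
        two_ne_zero).1 h2
    rcases eq_or_ne x 0 with hx | hx
    · subst hx
      simp only [norm_zero, mul_zero]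
      exact Finset.sum_nonneg fun j _ => abs_nonneg _
    have hx0 : ‖x‖ ≠ 0 := norm_ne_zero_iff.2 hx
    set x0 : EuclideanSpace ℝ K := ‖x‖⁻¹ • x with hx0def
    have hx01 : ‖x0‖ = 1 := by
      rw [hx0def, norm_smul, norm_inv, norm_norm, inv_mul_cancel₀ hx0]
    have hxx0 : x = ‖x‖ • x0 := by
      rw [hx0def, smul_smul, mul_inv_cancel₀ hx0, one_smul]
    obtain ⟨x', hx's, hx'⟩ := hs1net x0 hx01
    have hlow : (N : ℝ) / 20 ≤ ∑ j, |matC ε x' j| :=
      hε1 x'.ofLp (Finset.mem_image.2 ⟨x', hx's, rfl⟩)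
    have hd : ∑ j, |matC ε (x0 - x') j| ≤ N / 40 := by
      refine (hl1 _).trans ?_
      calc 7 * N * ‖x0 - x'‖ ≤ 7 * N * (1 / 280) := by gcongr
        _ = N / 40 := by ring
    have htri : ∑ j, |matC ε x' j| ≤ ∑ j, |matC ε x0 j| + ∑ j, |matC ε (x0 - x') j| := by
      rw [← Finset.sum_add_distrib]
      refine Finset.sum_le_sum fun j _ => ?_
      rw [map_sub, PiLp.sub_apply]
      have := abs_sub_abs_le_abs_sub (matC ε x' j) (matC ε x0 j)
      rw [abs_sub_comm] at this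
      linarith
    have hfin : (N : ℝ) / 40 ≤ ∑ j, |matC ε x0 j| := by linarith
    have hsc : ∑ j, |matC ε x j| = ‖x‖ * ∑ j, |matC ε x0 j| := by
      rw [Finset.mul_sum]
      refine Finset.sum_congr rfl fun j _ => ?_
      conv_lhs => rw [hxx0]
      rw [map_smul, PiLp.smul_apply, smul_eq_mul, abs_mul, abs_norm]
    rw [hsc]
    calc (N : ℝ) / 40 * ‖x‖ = ‖x‖ * (N / 40) := by ring
      _ ≤ _ := by gcongr

/-- Kashin-type sign matrices. -/
theorem exists_kashin [Nonempty K] (hN : N = 200 * Fintype.card K) :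
    ∃ r : K → Fin N → ℝ, (∀ l j, r l j = 1 ∨ r l j = -1) ∧
      (∀ x : K → ℝ, (N : ℝ) / 40 * Real.sqrt (∑ l, x l ^ 2) ≤ ∑ j, |∑ l, x l * r l j|) ∧
      (∀ x : K → ℝ, ∑ j, (∑ l, x l * r l j) ^ 2 ≤ 48 * N * ∑ l, x l ^ 2) ∧
      (∀ t : Fin N → ℝ, ∑ l, (∑ j, r l j * t j) ^ 2 ≤ 48 * N * ∑ j, t j ^ 2) := by
  obtain ⟨ε, h1, h2⟩ := exists_good_signs (K := K) hN
  refine ⟨fun l j => sg (ε j l), fun l j => ?_, fun x => ?_, fun x => ?_, fun t => ?_⟩
  · change sg (ε j l) = 1 ∨ sg (ε j l) = -1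
    cases ε j l
    · right; simp [sg]
    · left; simp [sg]
  · have h := h2 (WithLp.toLp 2 x)
    have e : ∀ j, matC ε (WithLp.toLp 2 x) j = ∑ l, x l * sg (ε j l) := by
      intro j
      rw [matC_apply, rad]
      exact Finset.sum_congr rfl fun l _ => mul_comm _ _
    simp only [e] at h
    have e2 : ‖(WithLp.toLp 2 x : EuclideanSpace ℝ K)‖ = Real.sqrt (∑ l, x l ^ 2) := by
      rw [EuclideanSpace.norm_eq]
      congr 1
      exact Finset.sum_congr rfl fun l _ => by rw [Real.norm_eq_abs, sq_abs]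
    rw [e2] at h
    exact h
  · have h := h1 (WithLp.toLp 2 x)
    rw [← sum_sq_ofLp, ← sum_sq_ofLp] at h
    have e : ∀ j, matC ε (WithLp.toLp 2 x) j = ∑ l, x l * sg (ε j l) := by
      intro j
      rw [matC_apply, rad]
      exact Finset.sum_congr rfl fun l _ => mul_comm _ _
    simp only [e] at h
    exact h
  · set a : K → ℝ := fun l => ∑ j, sg (ε j l) * t j with ha
    have h := h1 (WithLp.toLp 2 a)
    rw [← sum_sq_ofLp, ← sum_sq_ofLp] at h
    have e : ∀ j, matC ε (WithLp.toLp 2 a) j = ∑ l, a l * sg (ε j l) := by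
      intro j
      rw [matC_apply, rad]
      exact Finset.sum_congr rfl fun l _ => mul_comm _ _
    simp only [e] at h
    change ∑ l, a l ^ 2 ≤ 48 * N * ∑ j, t j ^ 2
    have h3 : ∑ l, a l ^ 2 = ∑ j, t j * ∑ l, a l * sg (ε j l) := by
      have : ∀ l, a l ^ 2 = ∑ j, t j * (a l * sg (ε j l)) := by
        intro l
        rw [sq]
        nth_rewrite 2 [ha]
        rw [Finset.mul_sum]
        exact Finset.sum_congr rfl fun j _ => by ring
      rw [Finset.sum_congr rfl (fun l _ => this l), Finset.sum_comm]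
      exact Finset.sum_congr rfl fun j _ => by rw [Finset.mul_sum]
    have h4 := Finset.sum_mul_sq_le_sq_mul_sq Finset.univ t (fun j => ∑ l, a l * sg (ε j l))
    rw [← h3] at h4
    set A : ℝ := ∑ l, a l ^ 2 with hA
    have hA0 : 0 ≤ A := Finset.sum_nonneg fun l _ => sq_nonneg _
    have hT0 : 0 ≤ ∑ j, t j ^ 2 := Finset.sum_nonneg fun l _ => sq_nonneg _
    have h5 : A ^ 2 ≤ (∑ j, t j ^ 2) * (48 * N * A) := h4.trans (by gcongr)
    rcases hA0.eq_or_lt with h0 | h0
    · rw [← h0]; positivity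
    · have : A * A ≤ (48 * N * ∑ j, t j ^ 2) * A := by nlinarith
      exact le_of_mul_le_mul_right this h0

end final

end Pool.Agent.Lib.MP_dbb15e_gt
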