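import Mathlib

/-!
# Tensorisation of projections
-/

set_option autoImplicit false

namespace Pool.Agent.Lib.MP_dbb15e_gt

open Finset

section abstract_part

variable {E : Type*} [NormedAddCommGroup E] [InnerProductSpace ℝ E]

/-- orthogonal projections (not necessarily bounded a priori) -/
structure OProj (P : Module.End ℝ E) : Prop where
  idem : ∀ f, P (P f) = P f
  symm : ∀ f g, inner ℝ (P f) g = inner ℝ f (P g)

lemma OProj.inner_sub {P : Module.End ℝ E} (hP : OProj P) (f g : E) :
    inner ℝ (f - P f) (P g) = (0 : ℝ) := by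
  rw [inner_sub_left, hP.symm, hP.idem, sub_self]

lemma OProj.pyth {P : Module.End ℝ E} (hP : OProj P) (f : E) :
    ‖f‖ ^ 2 = ‖P f‖ ^ 2 + ‖f - P f‖ ^ 2 := by
  have h1 := hP.inner_sub f f
  have h2 : f = P f + (f - P f) := by abel
  conv_lhs => rw [h2]
  rw [norm_add_sq_real, real_inner_comm, h1]; ring

lemma OProj.norm_le {P : Module.End ℝ E} (hP : OProj P) (f : E) : ‖P f‖ ≤ ‖f‖ := by
  have h := hP.pyth f
  apply le_of_sq_le_sq _ (norm_nonneg _)
  nlinarith [sq_nonneg ‖f - P f‖]

lemma OProj.sub_norm_le {P : Module.End ℝ E} (hP : OProj P) (f : E) : ‖f - P f‖ ≤ ‖f‖ := by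
  have h := hP.pyth f
  apply le_of_sq_le_sq _ (norm_nonneg _)
  nlinarith [sq_nonneg ‖P f‖]

/-- best approximation -/
lemma OProj.best {P : Module.End ℝ E} (hP : OProj P) (f h : E) (hh : P h = h) :
    ‖f - P f‖ ≤ ‖f - h‖ := by
  have h1 := hP.sub_norm_le (f - h)
  rw [map_sub, hh] at h1
  have h2 : f - h - (P f - h) = f - P f := by abel
  rwa [h2] at h1

variable {ι : Type*}

/-- Efron–Stein inequality for products of projections. -/
lemma efron_stein (P : ι → Module.End ℝ E) (hP : ∀ i, OProj (P i)) (l : List ι) (f : E) :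
    ‖f - (l.map P).prod f‖ ^ 2 ≤ (l.map (fun i => ‖f - P i f‖ ^ 2)).sum := by
  induction l with
  | nil => simp
  | cons j l ih =>
    rw [List.map_cons, List.prod_cons, List.map_cons, List.sum_cons, Module.End.mul_apply]
    set g := (l.map P).prod f with hg
    have h1 : f - P j g = (f - P j f) + P j (f - g) := by
      rw [map_sub]; abel
    rw [h1, norm_add_sq_real, (hP j).inner_sub]
    have h2 := (hP j).norm_le (f - g)
    have h3 : ‖P j (f - g)‖ ^ 2 ≤ ‖f - g‖ ^ 2 := by
      apply pow_le_pow_left₀ (norm_nonneg _) h2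
    linarith

/-- Tensorisation of the spectral gap. -/
lemma tensor_gap (Q A : ι → Module.End ℝ E) (lam : ℝ) (hlam : 0 ≤ lam)
    (hA : ∀ i, OProj (A i))
    (hQA : ∀ i f, Q i (A i f) = A i f) (hAQ : ∀ i f, A i (Q i f) = A i f)
    (hcontr : ∀ i f, ‖Q i f‖ ≤ ‖f‖)
    (hgap : ∀ i f, A i f = 0 → ‖Q i f‖ ^ 2 ≤ lam * ‖f‖ ^ 2)
    (hcAQ : ∀ i j, i ≠ j → ∀ f, A i (Q j f) = Q j (A i f))
    (hcAA : ∀ i j, i ≠ j → ∀ f, A i (A j f) = A j (A i f))
    (l : List ι) (hl : l.Nodup) (f : E) :
    ‖(l.map Q).prod f‖ ^ 2 ≤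
      ‖(l.map A).prod f‖ ^ 2 + lam * (‖f‖ ^ 2 - ‖(l.map A).prod f‖ ^ 2) := by
  induction l generalizing f with
  | nil => simp
  | cons j l ih =>
    have hjl : j ∉ l := (List.nodup_cons.1 hl).1
    have hl' := (List.nodup_cons.1 hl).2
    simp only [List.map_cons, List.prod_cons, Module.End.mul_apply]
    set Ql := (l.map Q).prod with hQl
    set Al := (l.map A).prod with hAl
    -- commutations
    have c1 : ∀ f, A j (Ql f) = Ql (A j f) := by
      rw [hQl]
      clear ih hQl hAl Ql Al hl hl'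
      induction l with
      | nil => intro f; simp
      | cons k l ih2 =>
        intro f
        simp only [List.map_cons, List.prod_cons, Module.End.mul_apply]
        have hjk : j ≠ k := fun h => hjl (h ▸ List.mem_cons_self)
        have hjl2 : j ∉ l := fun h => hjl (List.mem_cons_of_mem _ h)
        rw [hcAQ j k hjk, ih2 hjl2]
    have c2 : ∀ f, A j (Al f) = Al (A j f) := by
      rw [hAl]
      clear ih hQl hAl Ql Al hl hl' c1
      induction l with
      | nil => intro f; simp
      | cons k l ih2 =>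
        intro f
        simp only [List.map_cons, List.prod_cons, Module.End.mul_apply]
        have hjk : j ≠ k := fun h => hjl (h ▸ List.mem_cons_self)
        have hjl2 : j ∉ l := fun h => hjl (List.mem_cons_of_mem _ h)
        rw [hcAA j k hjk, ih2 hjl2]
    have c3 : ∀ f, ‖Ql f‖ ≤ ‖f‖ := by
      rw [hQl]
      clear ih hQl hAl Ql Al hl hl' c1 c2 hjl
      induction l with
      | nil => intro f; simp
      | cons k l ih2 =>
        intro f
        simp only [List.map_cons, List.prod_cons, Module.End.mul_apply]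
        exact (hcontr k _).trans (ih2 f)
    set g := A j f with hg
    set h := f - g with hh
    have hf : f = g + h := by rw [hh]; abel
    have e1 : Q j (Ql f) = Ql g + Q j (Ql h) := by
      conv_lhs => rw [hf]
      rw [map_add, map_add]
      congr 1
      rw [hg, ← c1, hQA]
    have hAh : A j h = 0 := by rw [hh, map_sub, hg, (hA j).idem, sub_self]
    have e2 : A j (Ql h) = 0 := by rw [c1, hAh, map_zero]
    have e3 : A j (Q j (Ql h)) = 0 := by rw [hAQ, e2]
    have e4 : inner ℝ (Ql g) (Q j (Ql h)) = (0 : ℝ) := by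
      have : Ql g = A j (Ql f) := by rw [c1]
      rw [this, (hA j).symm, e3, inner_zero_right]
    have e5 : ‖Q j (Ql f)‖ ^ 2 = ‖Ql g‖ ^ 2 + ‖Q j (Ql h)‖ ^ 2 := by
      rw [e1, norm_add_sq_real, e4]; ring
    have e6 := ih hl' g
    have e7 := hgap j (Ql h) e2
    have e8 : ‖Ql h‖ ^ 2 ≤ ‖h‖ ^ 2 := pow_le_pow_left₀ (norm_nonneg _) (c3 h) 2
    have e9 : ‖f‖ ^ 2 = ‖g‖ ^ 2 + ‖h‖ ^ 2 := (hA j).pyth f
    have e10 : A j (Al f) = Al g := by rw [c2]
    rw [e5, e10, e9]
    nlinarith [mul_le_mul_of_nonneg_left e8 hlam]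

/-- Merging two products. -/
lemma prod_merge (P R : ι → Module.End ℝ E)
    (hc : ∀ i j, i ≠ j → ∀ f, P i (R j f) = R j (P i f)) (l : List ι) (hl : l.Nodup) (f : E) :
    (l.map P).prod ((l.map R).prod f) = (l.map (fun i => P i * R i)).prod f := by
  induction l generalizing f with
  | nil => simp
  | cons j l ih =>
    have hjl : j ∉ l := (List.nodup_cons.1 hl).1
    have hl' := (List.nodup_cons.1 hl).2
    simp only [List.map_cons, List.prod_cons, Module.End.mul_apply]
    rw [← ih hl' f]
    congr 1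
    set g := (l.map R).prod f with hg
    clear_value g
    clear hg ih hl hl'
    induction l generalizing g with
    | nil => simp
    | cons k l ih2 =>
      have hjk : k ≠ j := fun h => hjl (h ▸ List.mem_cons_self)
      have hjl2 : j ∉ l := fun h => hjl (List.mem_cons_of_mem _ h)
      simp only [List.map_cons, List.prod_cons, Module.End.mul_apply]
      rw [ih2 hjl2 g, hc k j hjk]

end abstract_part

section site

variable {ι Ω : Type*} [Fintype ι] [DecidableEq ι] [Fintype Ω]
  {H : Type*} [NormedAddCommGroup H] [InnerProductSpace ℝ H]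

/-- functions on the product -/
abbrev LS (ι Ω : Type*) [Fintype ι] [DecidableEq ι] [Fintype Ω] (H : Type*)
    [NormedAddCommGroup H] [InnerProductSpace ℝ H] := PiLp 2 (fun _ : (ι → Ω) => H)

/-- kernel operator acting on one coordinate -/
noncomputable def site (k : Ω → Ω → ℝ) (i : ι) : Module.End ℝ (LS ι Ω H) where
  toFun f := WithLp.toLp 2 (fun x => ∑ y, k (x i) y • f (Function.update x i y))
  map_add' f g := by
    apply PiLp.ext
    intro x
    simp [smul_add, Finset.sum_add_distrib]
  map_smul' c f := by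
    apply PiLp.ext
    intro x
    simp only [PiLp.smul_apply, RingHom.id_apply]
    rw [Finset.smul_sum]
    exact Finset.sum_congr rfl (fun y _ => smul_comm _ _ _)

lemma site_apply (k : Ω → Ω → ℝ) (i : ι) (f : LS ι Ω H) (x : ι → Ω) :
    site k i f x = ∑ y, k (x i) y • f (Function.update x i y) := rfl

lemma site_comp (k k' : Ω → Ω → ℝ) (i : ι) (f : LS ι Ω H) :
    site k i (site k' i f) = site (fun x z => ∑ y, k x y * k' y z) i f := by
  apply PiLp.ext
  intro x
  rw [site_apply, site_apply]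
  simp_rw [site_apply, Function.update_self, Function.update_idem, Finset.smul_sum, Finset.sum_smul,
    mul_smul]
  rw [Finset.sum_comm]

lemma site_comm (k k' : Ω → Ω → ℝ) (i j : ι) (hij : i ≠ j) (f : LS ι Ω H) :
    site k i (site k' j f) = site k' j (site k i f) := by
  apply PiLp.ext
  intro x
  rw [site_apply, site_apply]
  simp_rw [site_apply, Function.update_of_ne hij.symm, Function.update_of_ne hij, Finset.smul_sum]
  rw [Finset.sum_comm]
  refine Finset.sum_congr rfl (fun y _ => Finset.sum_congr rfl (fun z _ => ?_))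
  rw [Function.update_comm hij, smul_comm]

lemma sum_update {M : Type*} [AddCommMonoid M] (i : ι) (Φ : (ι → Ω) → Ω → M) :
    ∑ x : ι → Ω, ∑ y, Φ (Function.update x i y) (x i) = ∑ x, ∑ y, Φ x y := by
  rw [← Fintype.sum_prod_type', ← Fintype.sum_prod_type']
  let e : ((ι → Ω) × Ω) ≃ ((ι → Ω) × Ω) :=
    { toFun := fun p => (Function.update p.1 i p.2, p.1 i)
      invFun := fun p => (Function.update p.1 i p.2, p.1 i)
      left_inv := fun p => by simp
      right_inv := fun p => by simp }
  exact Equiv.sum_comp e (fun p : (ι → Ω) × Ω => Φ p.1 p.2)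

lemma site_inner (k k' : Ω → Ω → ℝ) (hk : ∀ x y, k' x y = k y x) (i : ι) (f g : LS ι Ω H) :
    inner ℝ f (site k i g) = inner ℝ (site k' i f) g := by
  rw [PiLp.inner_apply, PiLp.inner_apply]
  simp_rw [site_apply, inner_sum, sum_inner, real_inner_smul_left, real_inner_smul_right]
  rw [← sum_update i]
  refine Finset.sum_congr rfl (fun x _ => Finset.sum_congr rfl (fun y _ => ?_))
  rw [Function.update_self, Function.update_idem, Function.update_eq_self, hk]

lemma site_norm (k : Ω → Ω → ℝ) (i : ι) (c : ℝ) (f : LS ι Ω H)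
    (hk : ∀ x : ι → Ω, ∑ y, ‖∑ z, k y z • f (Function.update x i z)‖ ^ 2 ≤
      c * ∑ z, ‖f (Function.update x i z)‖ ^ 2) :
    ‖site k i f‖ ^ 2 ≤ c * ‖f‖ ^ 2 := by
  by_cases hΩ : Nonempty Ω
  · have hcard : (0 : ℝ) < Fintype.card Ω := by exact_mod_cast Fintype.card_pos
    rw [PiLp.norm_sq_eq_of_L2, PiLp.norm_sq_eq_of_L2]
    have h1 : ∀ Ψ : (ι → Ω) → ℝ,
        (Fintype.card Ω : ℝ) * ∑ x, Ψ x = ∑ x, ∑ y, Ψ (Function.update x i y) := by
      intro Ψ
      have := sum_update i (fun (x : ι → Ω) (_ : Ω) => Ψ x)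
      rw [this]
      simp [Finset.mul_sum]
    have h2 : (Fintype.card Ω : ℝ) * ∑ x, ‖site k i f x‖ ^ 2 ≤
        (Fintype.card Ω : ℝ) * (c * ∑ x, ‖f x‖ ^ 2) := by
      have h3 : (Fintype.card Ω : ℝ) * (c * ∑ x, ‖f x‖ ^ 2) =
          c * ∑ x, ∑ y, ‖f (Function.update x i y)‖ ^ 2 := by
        rw [← h1 (fun x => ‖f x‖ ^ 2)]; ring
      rw [h1, h3, Finset.mul_sum]
      refine Finset.sum_le_sum (fun x _ => ?_)
      simp_rw [site_apply, Function.update_self, Function.update_idem]
      exact hk x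
    exact le_of_mul_le_mul_left h2 hcard
  · rw [not_nonempty_iff] at hΩ
    have : IsEmpty (ι → Ω) := ⟨fun x => hΩ.elim (x i)⟩
    rw [PiLp.norm_sq_eq_of_L2, PiLp.norm_sq_eq_of_L2]
    simp

/-- averaging kernels over the classes of a map -/
noncomputable def avk {κ : Type*} [DecidableEq κ] (c : Ω → κ) (x y : Ω) : ℝ :=
  if c x = c y then ((univ.filter (fun z => c x = c z)).card : ℝ)⁻¹ else 0

section avk

variable {κ : Type*} [DecidableEq κ] (c : Ω → κ)

lemma avk_symm (x y : Ω) : avk c x y = avk c y x := by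
  unfold avk
  by_cases h : c x = c y
  · rw [if_pos h, if_pos h.symm, h]
  · rw [if_neg h, if_neg (fun h' => h h'.symm)]

lemma avk_card_pos (x : Ω) : (0 : ℝ) < ((univ.filter (fun z => c x = c z)).card : ℝ) := by
  have : x ∈ univ.filter (fun z => c x = c z) := by simp
  exact_mod_cast Finset.card_pos.2 ⟨x, this⟩

lemma avk_sum (x : Ω) : ∑ y, avk c x y = 1 := by
  unfold avk
  rw [← Finset.sum_filter, Finset.sum_const, nsmul_eq_mul]
  exact mul_inv_cancel₀ (avk_card_pos c x).ne'

lemma avk_nonneg (x y : Ω) : 0 ≤ avk c x y := by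
  unfold avk
  split_ifs
  · exact inv_nonneg.2 (avk_card_pos c x).le
  · exact le_rfl

/-- averages of class functions -/
lemma avk_smul_of_inv {M : Type*} [AddCommGroup M] [Module ℝ M] (F : Ω → M)
    (hF : ∀ x y, c x = c y → F x = F y) (x : Ω) : ∑ y, avk c x y • F y = F x := by
  have h1 : ∀ y, avk c x y • F y = avk c x y • F x := by
    intro y
    by_cases h : c x = c y
    · rw [hF x y h]
    · unfold avk; rw [if_neg h, zero_smul, zero_smul]
  simp_rw [h1]
  rw [← Finset.sum_smul, avk_sum, one_smul]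

lemma avk_inv (x y z : Ω) (h : c x = c y) : avk c x z = avk c y z := by
  unfold avk; rw [h]

lemma avk_comp (x z : Ω) : ∑ y, avk c x y * avk c y z = avk c x z := by
  have := avk_smul_of_inv c (fun y => avk c y z) (fun x y h => avk_inv c x y z h) x
  simpa using this

end avk

end site

end Pool.Agent.Lib.MP_dbb15e_gt
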