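import Mathlib

/-!
# Passing from scalar to Hilbert valued quadratic inequalities
-/

set_option autoImplicit false

namespace Pool.Agent.Lib.MP_dbb15e_gt

open Finset

section

variable {H : Type*} [NormedAddCommGroup H] [InnerProductSpace ℝ H]

/-- Coordinates on the span of finitely many vectors. -/
lemma exists_coords {κ : Type*} [Finite κ] (T : κ → H) :
    ∃ (n : ℕ) (c : H →ₗ[ℝ] (Fin n → ℝ)),
      ∀ u ∈ Submodule.span ℝ (Set.range T), ∀ v ∈ Submodule.span ℝ (Set.range T),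
        inner ℝ u v = ∑ i, c u i * c v i := by
  classical
  set W := Submodule.span ℝ (Set.range T) with hW
  haveI : FiniteDimensional ℝ W := FiniteDimensional.span_of_finite ℝ (Set.finite_range T)
  let b := stdOrthonormalBasis ℝ W
  refine ⟨Module.finrank ℝ W, LinearMap.pi (fun i => (innerSL ℝ ((b i : W) : H)).toLinearMap), ?_⟩
  intro u hu v hv
  have h := b.sum_inner_mul_inner (⟨u, hu⟩ : W) (⟨v, hv⟩ : W)
  have h2 : inner ℝ (⟨u, hu⟩ : W) (⟨v, hv⟩ : W) = inner ℝ u v := rfl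
  rw [← h2, ← h]
  refine Finset.sum_congr rfl (fun i _ => ?_)
  simp only [LinearMap.pi_apply, ContinuousLinearMap.coe_coe, innerSL_apply_apply]
  have h3 : inner ℝ (⟨u, hu⟩ : W) (b i) = inner ℝ ((b i : W) : H) u := by
    rw [real_inner_comm]; rfl
  have h4 : inner ℝ (b i) (⟨v, hv⟩ : W) = inner ℝ ((b i : W) : H) v := rfl
  rw [h3, h4]

/-- A matrix inequality for scalars passes to vectors. -/
lemma vec_ineq {ι κ : Type*} [Fintype ι] [Fintype κ] (A : ι → κ → ℝ) (M : ℝ)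
    (h : ∀ t : κ → ℝ, ∑ i, (∑ k, A i k * t k) ^ 2 ≤ M * ∑ k, (t k) ^ 2) (T : κ → H) :
    ∑ i, ‖∑ k, A i k • T k‖ ^ 2 ≤ M * ∑ k, ‖T k‖ ^ 2 := by
  classical
  obtain ⟨n, c, hc⟩ := exists_coords T
  have hmem : ∀ k, T k ∈ Submodule.span ℝ (Set.range T) := fun k =>
    Submodule.subset_span ⟨k, rfl⟩
  have h1 : ∀ k, ‖T k‖ ^ 2 = ∑ j, (c (T k) j) ^ 2 := by
    intro k
    rw [← real_inner_self_eq_norm_sq, hc _ (hmem k) _ (hmem k)]
    exact Finset.sum_congr rfl (fun j _ => by ring)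
  have h2 : ∀ i, ‖∑ k, A i k • T k‖ ^ 2 = ∑ j, (∑ k, A i k * c (T k) j) ^ 2 := by
    intro i
    have hm : ∑ k, A i k • T k ∈ Submodule.span ℝ (Set.range T) :=
      Submodule.sum_mem _ (fun k _ => Submodule.smul_mem _ _ (hmem k))
    rw [← real_inner_self_eq_norm_sq, hc _ hm _ hm]
    refine Finset.sum_congr rfl (fun j _ => ?_)
    rw [map_sum, Finset.sum_apply]
    simp only [map_smul, Pi.smul_apply, smul_eq_mul]
    ring
  simp_rw [h1, h2]
  rw [Finset.sum_comm, Finset.sum_comm (s := (univ : Finset κ)), Finset.mul_sum]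
  exact Finset.sum_le_sum (fun j _ => h (fun k => c (T k) j))

end

end Pool.Agent.Lib.MP_dbb15e_gt
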