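import Mathlib
import Pool.Agent.Lib.MP_dbb15e_gt.Vec
import Pool.Agent.Lib.MP_dbb15e_gt.Tensor

/-!
# Smoothing over boxes and the contraction along an almost Euclidean subspace of `ℓ₁`
-/

set_option autoImplicit false

namespace Pool.Agent.Lib.MP_dbb15e_gt

open Finset

section

variable {N q : ℕ} {H : Type*} [NormedAddCommGroup H] [InnerProductSpace ℝ H]

/-- the small coordinate vector -/
noncomputable def uq (q : ℕ) (j : Fin N) : Fin N → ℝ := Pi.single j ((q : ℝ)⁻¹)

/-- points of the box -/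
noncomputable def zr (z : Fin N → Fin q) : Fin N → ℝ := fun j => ((z j : ℕ) : ℝ) / q

/-- average over the box -/
noncomputable def smooth (q : ℕ) (g : (Fin N → ℝ) → H) (w : Fin N → ℝ) : H :=
  ((q : ℝ) ^ N)⁻¹ • ∑ z : Fin N → Fin q, g (w + zr z)

lemma box_telescope (hq : 0 < q) (φ : (Fin N → ℝ) → H) (κ : ℝ) (hφ : ∀ w, ‖φ w‖ ≤ κ)
    (w : Fin N → ℝ) (i : Fin N) :
    ‖∑ z : Fin N → Fin q, (φ (w + zr z + uq q i) - φ (w + zr z))‖ ≤ (q : ℝ) ^ N * (2 * κ / q) := by
  have hq0 : (0 : ℝ) < q := by exact_mod_cast hq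
  have h1 := sum_update (M := H) (Ω := Fin q) i
    (fun (z : Fin N → Fin q) (_ : Fin q) => φ (w + zr z + uq q i) - φ (w + zr z))
  have h2 : ∀ z : Fin N → Fin q, ‖∑ y : Fin q, (φ (w + zr (Function.update z i y) + uq q i) -
      φ (w + zr (Function.update z i y)))‖ ≤ 2 * κ := by
    intro z
    set Γ : ℕ → H := fun y => φ (w + Function.update (zr z) i ((y : ℝ) / q)) with hΓ
    have h3 : ∀ y : Fin q, φ (w + zr (Function.update z i y) + uq q i) -
        φ (w + zr (Function.update z i y)) = Γ ((y : ℕ) + 1) - Γ y := by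
      intro y
      have e1 : zr (Function.update z i y) = Function.update (zr z) i (((y : ℕ) : ℝ) / q) := by
        funext j
        by_cases h : j = i
        · subst h; simp [zr]
        · simp [zr, Function.update_of_ne h]
      have e2 : w + Function.update (zr z) i (((y : ℕ) : ℝ) / q) + uq q i =
          w + Function.update (zr z) i ((((y : ℕ) + 1 : ℕ) : ℝ) / q) := by
        funext j
        by_cases h : j = i
        · subst h
          simp only [Pi.add_apply, Function.update_self, uq, Pi.single_eq_same]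
          push_cast; field_simp; ring
        · simp [uq, Function.update_of_ne h, h]
      simp only [hΓ]
      rw [e1, e2]
    simp_rw [h3]
    rw [Fin.sum_univ_eq_sum_range (fun y => Γ (y + 1) - Γ y) q, Finset.sum_range_sub]
    refine (norm_sub_le _ _).trans ?_
    have a1 := hφ (w + Function.update (zr z) i ((q : ℝ) / q))
    have a2 := hφ (w + Function.update (zr z) i (((0 : ℕ) : ℝ) / q))
    simp only [hΓ]
    linarith
  have h4 : (q : ℝ) • ∑ z : Fin N → Fin q, (φ (w + zr z + uq q i) - φ (w + zr z)) =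
      ∑ z : Fin N → Fin q, ∑ y : Fin q, (φ (w + zr (Function.update z i y) + uq q i) -
      φ (w + zr (Function.update z i y))) := by
    rw [h1]
    simp only [Finset.sum_const, Finset.card_univ, Fintype.card_fin, ← Nat.cast_smul_eq_nsmul ℝ,
      Finset.smul_sum]
  have h5 : ‖(q : ℝ) • ∑ z : Fin N → Fin q, (φ (w + zr z + uq q i) - φ (w + zr z))‖ ≤
      (q : ℝ) ^ N * (2 * κ) := by
    rw [h4]
    refine (norm_sum_le _ _).trans ?_
    refine (Finset.sum_le_sum (fun z _ => h2 z)).trans (le_of_eq ?_)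
    simp
  rw [norm_smul, Real.norm_of_nonneg hq0.le] at h5
  have : (q : ℝ) ^ N * (2 * κ / q) = ((q : ℝ) ^ N * (2 * κ)) / q := by ring
  rw [this, le_div_iff₀ hq0]
  linarith

lemma smooth_sub (hq : 0 < q) (g : (Fin N → ℝ) → H) (κ : ℝ)
    (hg : ∀ w j, ‖g (w + uq q j) - g w‖ ≤ κ) (w : Fin N → ℝ) (j : Fin N) :
    ‖smooth q g (w + uq q j) - smooth q g w‖ ≤ κ := by
  have hq0 : (0 : ℝ) < q := by exact_mod_cast hq
  unfold smooth
  rw [← smul_sub, ← Finset.sum_sub_distrib, norm_smul, norm_inv, norm_pow,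
    Real.norm_of_nonneg hq0.le]
  have h1 : ‖∑ z : Fin N → Fin q, (g (w + uq q j + zr z) - g (w + zr z))‖ ≤ (q : ℝ) ^ N * κ := by
    refine (norm_sum_le _ _).trans ?_
    have : ∀ z : Fin N → Fin q, ‖g (w + uq q j + zr z) - g (w + zr z)‖ ≤ κ := by
      intro z
      have := hg (w + zr z) j
      rwa [add_right_comm] at this
    refine (Finset.sum_le_sum (fun z _ => this z)).trans (le_of_eq ?_)
    simp
  rw [inv_mul_le_iff₀ (by positivity)]
  exact h1

/-- first differences of the smoothed function -/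
noncomputable def dT (q : ℕ) (g : (Fin N → ℝ) → H) (j : Fin N) (w : Fin N → ℝ) : H :=
  smooth q g (w + uq q j) - smooth q g w

/-- second differences of the smoothed function are small -/
lemma smooth_second (hq : 0 < q) (g : (Fin N → ℝ) → H) (κ : ℝ)
    (hg : ∀ w j, ‖g (w + uq q j) - g w‖ ≤ κ) (w : Fin N → ℝ) (i j : Fin N) :
    ‖dT q g j (w + uq q i) - dT q g j w‖ ≤ 2 * κ / q := by
  have hq0 : (0 : ℝ) < q := by exact_mod_cast hq
  have h1 := box_telescope hq (fun w => g (w + uq q j) - g w) κ (fun w => hg w j) w i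
  have h2 : dT q g j (w + uq q i) - dT q g j w = ((q : ℝ) ^ N)⁻¹ •
      ∑ z : Fin N → Fin q, ((g (w + zr z + uq q i + uq q j) - g (w + zr z + uq q i)) -
        (g (w + zr z + uq q j) - g (w + zr z))) := by
    unfold dT smooth
    rw [← smul_sub, ← smul_sub, ← smul_sub, ← Finset.sum_sub_distrib, ← Finset.sum_sub_distrib,
      ← Finset.sum_sub_distrib]
    congr 1
    refine Finset.sum_congr rfl (fun z _ => ?_)
    have e1 : w + uq q i + uq q j + zr z = w + zr z + uq q i + uq q j := by abel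
    have e2 : w + uq q i + zr z = w + zr z + uq q i := by abel
    have e3 : w + uq q j + zr z = w + zr z + uq q j := by abel
    rw [e1, e2, e3]
  rw [h2, norm_smul, norm_inv, norm_pow, Real.norm_of_nonneg hq0.le,
    inv_mul_le_iff₀ (by positivity)]
  exact h1

/-- first differences change slowly -/
lemma dT_change (hq : 0 < q) (g : (Fin N → ℝ) → H) (κ : ℝ)
    (hg : ∀ w j, ‖g (w + uq q j) - g w‖ ≤ κ) (r : Fin N → ℝ) (hr : ∀ j, r j = 1 ∨ r j = -1)
    (i : Fin N) (w : Fin N → ℝ) (s : Finset (Fin N)) :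
    ‖dT q g i (w + ∑ j ∈ s, r j • uq q j) - dT q g i w‖ ≤ s.card * (2 * κ / q) := by
  classical
  induction s using Finset.induction_on with
  | empty => simp
  | insert j s hjs ih =>
    rw [Finset.sum_insert hjs, Finset.card_insert_of_notMem hjs]
    push_cast
    set v := w + ∑ j ∈ s, r j • uq q j with hv
    have e1 : w + (r j • uq q j + ∑ j ∈ s, r j • uq q j) = v + r j • uq q j := by
      rw [hv]; abel
    rw [e1]
    have h1 : ‖dT q g i (v + r j • uq q j) - dT q g i v‖ ≤ 2 * κ / q := by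
      rcases hr j with h | h
      · rw [h, one_smul]; exact smooth_second hq g κ hg v j i
      · rw [h]
        have := smooth_second hq g κ hg (v + (-1 : ℝ) • uq q j) j i
        have e2 : v + (-1 : ℝ) • uq q j + uq q j = v := by
          rw [neg_one_smul]; abel
        rw [e2, norm_sub_rev] at this
        exact this
    have h2 : dT q g i (v + r j • uq q j) - dT q g i w =
        (dT q g i (v + r j • uq q j) - dT q g i v) + (dT q g i v - dT q g i w) := by abel
    rw [h2]
    refine (norm_add_le _ _).trans ?_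
    linarith

/-- approximate linearity of the smoothed function -/
lemma smooth_linear (hq : 0 < q) (g : (Fin N → ℝ) → H) (κ : ℝ)
    (hg : ∀ w j, ‖g (w + uq q j) - g w‖ ≤ κ) (r : Fin N → ℝ) (hr : ∀ j, r j = 1 ∨ r j = -1)
    (w : Fin N → ℝ) (s : Finset (Fin N)) :
    ‖smooth q g (w + ∑ j ∈ s, r j • uq q j) - smooth q g w - ∑ j ∈ s, r j • dT q g j w‖ ≤
      s.card * (N * (2 * κ / q)) := by
  classical
  by_cases hN : N = 0
  · subst hN
    have : s = ∅ := by
      ext x; exact x.elim0
    rw [this]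
    simp only [Finset.sum_empty, add_zero, sub_self, norm_zero, Finset.card_empty,
      Nat.cast_zero, zero_mul, le_refl]
  have hκ : 0 ≤ κ := (norm_nonneg _).trans (hg w ⟨0, Nat.pos_of_ne_zero hN⟩)
  have hq0 : (0 : ℝ) < q := by exact_mod_cast hq
  have hκ2 : 0 ≤ 2 * κ / q := by positivity
  induction s using Finset.induction_on with
  | empty => simp
  | insert i s his ih =>
    rw [Finset.sum_insert his, Finset.sum_insert his, Finset.card_insert_of_notMem his]
    push_cast
    set v := w + ∑ j ∈ s, r j • uq q j with hv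
    have e1 : w + (r i • uq q i + ∑ j ∈ s, r j • uq q j) = v + r i • uq q i := by
      rw [hv]; abel
    rw [e1]
    have hcard : (s.card : ℝ) + 1 ≤ N := by
      have : (insert i s).card ≤ N := by
        have := Finset.card_le_univ (insert i s)
        rwa [Fintype.card_fin] at this
      rw [Finset.card_insert_of_notMem his] at this
      exact_mod_cast this
    have h1 : ‖smooth q g (v + r i • uq q i) - smooth q g v - r i • dT q g i w‖ ≤
        N * (2 * κ / q) := by
      have hc := dT_change hq g κ hg r hr i w s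
      rcases hr i with h | h
      · rw [h, one_smul, one_smul]
        have e2 : smooth q g (v + uq q i) - smooth q g v - dT q g i w =
            dT q g i v - dT q g i w := rfl
        rw [e2]
        refine hc.trans ?_
        exact mul_le_mul_of_nonneg_right (by linarith) hκ2
      · rw [h, neg_one_smul, neg_one_smul]
        have e2 : smooth q g (v + -uq q i) - smooth q g v - -dT q g i w =
            -(dT q g i (v + -uq q i) - dT q g i w) := by
          unfold dT
          have e3 : v + -uq q i + uq q i = v := by abel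
          rw [e3]; abel
        rw [e2, norm_neg]
        have e4 : dT q g i (v + -uq q i) - dT q g i w =
            (dT q g i (v + -uq q i) - dT q g i v) + (dT q g i v - dT q g i w) := by abel
        rw [e4]
        refine (norm_add_le _ _).trans ?_
        have h5 := smooth_second hq g κ hg (v + -uq q i) i i
        have e3 : v + -uq q i + uq q i = v := by abel
        rw [e3, norm_sub_rev] at h5
        have h6 : ((s.card : ℝ) + 1) * (2 * κ / q) ≤ N * (2 * κ / q) :=
          mul_le_mul_of_nonneg_right hcard hκ2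
        linarith
    have e5 : smooth q g (v + r i • uq q i) - smooth q g w -
        (r i • dT q g i w + ∑ j ∈ s, r j • dT q g j w) =
        (smooth q g (v + r i • uq q i) - smooth q g v - r i • dT q g i w) +
        (smooth q g v - smooth q g w - ∑ j ∈ s, r j • dT q g j w) := by abel
    rw [e5]
    refine (norm_add_le _ _).trans ?_
    linarith

/-- **The gadget inequality.** -/
theorem gadget {K : Type*} [Fintype K] (hq : 0 < q) (hN : 0 < N) (g : (Fin N → ℝ) → H) (L : ℝ)
    (hg : ∀ w j, ‖g (w + uq q j) - g w‖ ≤ L / (N * q)) (r : K → Fin N → ℝ)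
    (hr : ∀ l j, r l j = 1 ∨ r l j = -1) (C : ℝ) (hC : 0 ≤ C)
    (hG : ∀ t : Fin N → ℝ, ∑ l, (∑ j, r l j * t j) ^ 2 ≤ C * N * ∑ j, (t j) ^ 2)
    (hqN : (Fintype.card K : ℝ) * N ^ 2 ≤ (q : ℝ) ^ 2) (w : Fin N → ℝ) :
    ∑ l, ‖smooth q g (w + (q : ℝ)⁻¹ • r l) - smooth q g w‖ ^ 2 ≤
      (2 * C + 8) * L ^ 2 / (q : ℝ) ^ 2 := by
  classical
  have hq0 : (0 : ℝ) < q := by exact_mod_cast hq
  have hN0 : (0 : ℝ) < N := by exact_mod_cast hN
  have h1 : ∀ l, ‖smooth q g (w + (q : ℝ)⁻¹ • r l) - smooth q g w - ∑ j, r l j • dT q g j w‖ ≤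
      2 * N * L / (q : ℝ) ^ 2 := by
    intro l
    have h2 := smooth_linear hq g (L / (N * q)) hg (r l) (hr l) w univ
    have e1 : ∑ j, r l j • uq q j = (q : ℝ)⁻¹ • r l := by
      funext k
      simp only [Finset.sum_apply, Pi.smul_apply, smul_eq_mul, uq, Pi.single_apply]
      simp [mul_comm]
    rw [e1, Finset.card_univ, Fintype.card_fin] at h2
    refine h2.trans (le_of_eq ?_)
    field_simp
  have h2 := vec_ineq r (C * N) hG (fun j => dT q g j w)
  have h3 : ∑ j, ‖dT q g j w‖ ^ 2 ≤ N * (L / (N * q)) ^ 2 := by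
    have : ∀ j, ‖dT q g j w‖ ^ 2 ≤ (L / (N * q)) ^ 2 := fun j =>
      pow_le_pow_left₀ (norm_nonneg _) (smooth_sub hq g _ hg w j) 2
    refine (Finset.sum_le_sum (fun j _ => this j)).trans (le_of_eq ?_)
    simp
  have h4 : ∑ l, ‖∑ j, r l j • dT q g j w‖ ^ 2 ≤ C * L ^ 2 / (q : ℝ) ^ 2 := by
    refine h2.trans ?_
    have := mul_le_mul_of_nonneg_left h3 (by positivity : 0 ≤ C * N)
    refine this.trans (le_of_eq ?_)
    field_simp
  have h5 : ∀ l, ‖smooth q g (w + (q : ℝ)⁻¹ • r l) - smooth q g w‖ ^ 2 ≤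
      2 * ‖∑ j, r l j • dT q g j w‖ ^ 2 + 2 * (2 * N * L / (q : ℝ) ^ 2) ^ 2 := by
    intro l
    have e1 : smooth q g (w + (q : ℝ)⁻¹ • r l) - smooth q g w =
        ∑ j, r l j • dT q g j w +
        (smooth q g (w + (q : ℝ)⁻¹ • r l) - smooth q g w - ∑ j, r l j • dT q g j w) := by abel
    have e2 := norm_add_le (∑ j, r l j • dT q g j w)
      (smooth q g (w + (q : ℝ)⁻¹ • r l) - smooth q g w - ∑ j, r l j • dT q g j w)
    rw [← e1] at e2
    have e3 := h1 l
    have e4 := norm_nonneg (smooth q g (w + (q : ℝ)⁻¹ • r l) - smooth q g w)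
    have e5 := norm_nonneg (∑ j, r l j • dT q g j w)
    have e6 : ‖smooth q g (w + (q : ℝ)⁻¹ • r l) - smooth q g w‖ ≤
        ‖∑ j, r l j • dT q g j w‖ + 2 * N * L / (q : ℝ) ^ 2 := by linarith
    have e7 := pow_le_pow_left₀ e4 e6 2
    nlinarith [sq_nonneg (‖∑ j, r l j • dT q g j w‖ - 2 * N * L / (q : ℝ) ^ 2)]
  refine (Finset.sum_le_sum (fun l _ => h5 l)).trans ?_
  rw [Finset.sum_add_distrib, ← Finset.mul_sum]
  have h6 : ∑ _l : K, 2 * (2 * N * L / (q : ℝ) ^ 2) ^ 2 ≤ 8 * L ^ 2 / (q : ℝ) ^ 2 := by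
    simp only [Finset.sum_const, Finset.card_univ, nsmul_eq_mul]
    have h7 : (Fintype.card K : ℝ) * (2 * (2 * N * L / (q : ℝ) ^ 2) ^ 2) =
        (8 * L ^ 2 / (q : ℝ) ^ 2) * (((Fintype.card K : ℝ) * N ^ 2) / (q : ℝ) ^ 2) := by
      field_simp; ring
    rw [h7]
    have h8 : ((Fintype.card K : ℝ) * N ^ 2) / (q : ℝ) ^ 2 ≤ 1 := by
      rw [div_le_one (by positivity)]; exact hqN
    have h9 : 0 ≤ 8 * L ^ 2 / (q : ℝ) ^ 2 := by positivity
    nlinarith
  have h10 : (2 * C + 8) * L ^ 2 / (q : ℝ) ^ 2 = 2 * (C * L ^ 2 / (q : ℝ) ^ 2) +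
      8 * L ^ 2 / (q : ℝ) ^ 2 := by ring
  rw [h10]
  linarith

/-- the smoothed function is close to the function -/
lemma smooth_close (hq : 0 < q) (g : (Fin N → ℝ) → H) (L : ℝ) (w : Fin N → ℝ)
    (hg : ∀ z : Fin N → ℝ, (∀ j, 0 ≤ z j) → (∀ j, z j ≤ 1) → ‖g (w + z) - g w‖ ≤ L) :
    ‖smooth q g w - g w‖ ≤ L := by
  have hq0 : (0 : ℝ) < q := by exact_mod_cast hq
  have h1 : smooth q g w - g w = ((q : ℝ) ^ N)⁻¹ • ∑ z : Fin N → Fin q, (g (w + zr z) - g w) := by
    unfold smooth
    rw [Finset.sum_sub_distrib, smul_sub]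
    congr 1
    simp only [Finset.sum_const, Finset.card_univ, Fintype.card_fun, Fintype.card_fin]
    rw [← Nat.cast_smul_eq_nsmul ℝ]
    push_cast
    rw [inv_smul_smul₀ (by positivity)]
  rw [h1, norm_smul, norm_inv, norm_pow, Real.norm_of_nonneg hq0.le,
    inv_mul_le_iff₀ (by positivity)]
  refine (norm_sum_le _ _).trans ?_
  have : ∀ z : Fin N → Fin q, ‖g (w + zr z) - g w‖ ≤ L := by
    intro z
    apply hg
    · intro j; simp only [zr]; positivity
    · intro j
      simp only [zr]
      rw [div_le_one hq0]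
      exact_mod_cast (z j).2.le
  refine (Finset.sum_le_sum (fun z _ => this z)).trans (le_of_eq ?_)
  simp

end

end Pool.Agent.Lib.MP_dbb15e_gt
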