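import Mathlib
import Pool.Agent.Lib.MP_dbb15e_gt.Vec
import Pool.Agent.Lib.MP_dbb15e_gt.Tensor

/-!
# One site analysis: the coloured metric graph
-/

set_option autoImplicit false

namespace Pool.Agent.Lib.MP_dbb15e_gt

open Finset

section fiber

variable {ι Ω : Type*} [Fintype ι] [DecidableEq ι] [Fintype Ω]

lemma fiber_le (i : ι) (φ ψ : (ι → Ω) → ℝ)
    (h : ∀ x, ∑ z, φ (Function.update x i z) ≤ ∑ z, ψ (Function.update x i z)) :
    ∑ x, φ x ≤ ∑ x, ψ x := by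
  by_cases hΩ : Nonempty Ω
  · have hcard : (0 : ℝ) < Fintype.card Ω := by exact_mod_cast Fintype.card_pos
    have h1 : ∀ Ψ : (ι → Ω) → ℝ,
        (Fintype.card Ω : ℝ) * ∑ x, Ψ x = ∑ x, ∑ y, Ψ (Function.update x i y) := by
      intro Ψ
      have := sum_update i (fun (x : ι → Ω) (_ : Ω) => Ψ x)
      rw [this]
      simp [Finset.mul_sum]
    have h2 : (Fintype.card Ω : ℝ) * ∑ x, φ x ≤ (Fintype.card Ω : ℝ) * ∑ x, ψ x := by
      rw [h1, h1]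
      exact Finset.sum_le_sum (fun x _ => h x)
    exact le_of_mul_le_mul_left h2 hcard
  · rw [not_nonempty_iff] at hΩ
    have : IsEmpty (ι → Ω) := ⟨fun x => hΩ.elim (x i)⟩
    simp

end fiber

section onesite

variable {V : Type*} [Fintype V] {q : ℕ} {H : Type*} [NormedAddCommGroup H] [InnerProductSpace ℝ H]

/-- The finite probability space of one coordinate: a point `v`, a type (vertex, first leg,
second leg) and a position. -/
abbrev Om (V : Type*) (q : ℕ) := V × Fin 3 × Fin q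

/-- class map: points of type `forb` are not moved, the others are moved in the class of `c`. -/
def clm {κ : Type*} (c : V → κ) (forb : Fin 3) (x : Om V q) : κ ⊕ Om V q :=
  if x.2.1 = forb then Sum.inr x else Sum.inl (c x.1)

/-- sums over the one site space -/
lemma sum_Om {M : Type*} [AddCommMonoid M] (F : Om V q → M) :
    ∑ x, F x = ∑ v, ∑ t, F (v, 0, t) + ∑ v, ∑ t, F (v, 1, t) + ∑ v, ∑ t, F (v, 2, t) := by
  rw [Fintype.sum_prod_type]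
  simp_rw [Fintype.sum_prod_type, Fin.sum_univ_three]
  rw [Finset.sum_add_distrib, Finset.sum_add_distrib]

/-- vector form of the spectral gap -/
lemma exp_vec {U W : Type*} (cA : V → U) (cB : V → W)
    (hexp : ∀ α β : V → ℝ, (∀ v v', cA v = cA v' → α v = α v') →
      (∀ v v', cB v = cB v' → β v = β v') → ∑ v, α v = 0 →
      2 * ∑ v, α v * β v ≤ (1 / 3) * (∑ v, (α v) ^ 2 + ∑ v, (β v) ^ 2))
    (α β : V → H) (hα : ∀ v v', cA v = cA v' → α v = α v')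
    (hβ : ∀ v v', cB v = cB v' → β v = β v') (h0 : ∑ v, α v = 0) :
    2 * ∑ v, inner ℝ (α v) (β v) ≤ (1 / 3) * (∑ v, ‖α v‖ ^ 2 + ∑ v, ‖β v‖ ^ 2) := by
  classical
  obtain ⟨n, c, hc⟩ := exists_coords (fun x : V ⊕ V => Sum.elim α β x)
  have hmα : ∀ v, α v ∈ Submodule.span ℝ (Set.range (fun x : V ⊕ V => Sum.elim α β x)) :=
    fun v => Submodule.subset_span ⟨Sum.inl v, rfl⟩
  have hmβ : ∀ v, β v ∈ Submodule.span ℝ (Set.range (fun x : V ⊕ V => Sum.elim α β x)) :=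
    fun v => Submodule.subset_span ⟨Sum.inr v, rfl⟩
  have h1 : ∀ v, ‖α v‖ ^ 2 = ∑ j, (c (α v) j) ^ 2 := by
    intro v
    rw [← real_inner_self_eq_norm_sq, hc _ (hmα v) _ (hmα v)]
    exact Finset.sum_congr rfl (fun j _ => by ring)
  have h2 : ∀ v, ‖β v‖ ^ 2 = ∑ j, (c (β v) j) ^ 2 := by
    intro v
    rw [← real_inner_self_eq_norm_sq, hc _ (hmβ v) _ (hmβ v)]
    exact Finset.sum_congr rfl (fun j _ => by ring)
  have h3 : ∀ v, inner ℝ (α v) (β v) = ∑ j, c (α v) j * c (β v) j := fun v =>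
    hc _ (hmα v) _ (hmβ v)
  simp_rw [h1, h2, h3]
  rw [Finset.sum_comm, Finset.sum_comm (s := (univ : Finset V)),
    Finset.sum_comm (s := (univ : Finset V)) (f := fun v j => (c (β v) j) ^ 2),
    ← Finset.sum_add_distrib, Finset.mul_sum, Finset.mul_sum]
  refine Finset.sum_le_sum (fun j _ => ?_)
  refine hexp (fun v => c (α v) j) (fun v => c (β v) j) ?_ ?_ ?_
  · intro v v' h; rw [hα v v' h]
  · intro v v' h; rw [hβ v v' h]
  · have : ∑ v, c (α v) j = c (∑ v, α v) j := by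
      rw [map_sum, Finset.sum_apply]
    rw [this, h0, map_zero]; rfl

/-- The one site spectral gap, in the form of a Poincaré inequality. -/
lemma gap_one {U W : Type*} (cA : V → U) (cB : V → W) (hq : 0 < q)
    (hexp : ∀ α β : V → ℝ, (∀ v v', cA v = cA v' → α v = α v') →
      (∀ v v', cB v = cB v' → β v = β v') → ∑ v, α v = 0 →
      2 * ∑ v, α v * β v ≤ (1 / 3) * (∑ v, (α v) ^ 2 + ∑ v, (β v) ^ 2))
    (u u' : Om V q → H)
    (hu : ∀ x y, clm cB 1 x = clm cB 1 y → u x = u y)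
    (hu' : ∀ x y, clm cA 2 x = clm cA 2 y → u' x = u' y)
    (huu : ∀ v t, u' (v, 2, t) = u (v, 2, t))
    (h0 : ∑ x, u x = 0) :
    ∑ x, ‖u x‖ ^ 2 ≤ 6 * ∑ x, ‖u x - u' x‖ ^ 2 := by
  classical
  by_cases hV : Nonempty V
  swap
  · rw [not_nonempty_iff] at hV; simp
  have hn : (0 : ℝ) < Fintype.card V := by exact_mod_cast Fintype.card_pos
  set n : ℝ := (Fintype.card V : ℝ) with hndef
  have hq0 : (0 : ℝ) < q := by exact_mod_cast hq
  let t0 : Fin q := ⟨0, hq⟩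
  set β : V → H := fun v => u (v, 0, t0) with hβ
  set α : V → H := fun v => u' (v, 0, t0) with hα
  have hβ0 : ∀ v t, u (v, 0, t) = β v := by
    intro v t; apply hu; simp [clm]
  have hβ2 : ∀ v t, u (v, 2, t) = β v := by
    intro v t; apply hu; simp [clm]
  have hα0 : ∀ v t, u' (v, 0, t) = α v := by
    intro v t; apply hu'; simp [clm]
  have hα1 : ∀ v t, u' (v, 1, t) = α v := by
    intro v t; apply hu'; simp [clm]
  have hαinv : ∀ v v', cA v = cA v' → α v = α v' := by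
    intro v v' h; apply hu'; simp [clm, h]
  have hβinv : ∀ v v', cB v = cB v' → β v = β v' := by
    intro v v' h; apply hu; simp [clm, h]
  set D : ℝ := ∑ v, ‖β v - α v‖ ^ 2 with hD
  set E : ℝ := ∑ v, ∑ t, ‖u (v, 1, t) - α v‖ ^ 2 with hE
  have hD0 : 0 ≤ D := Finset.sum_nonneg (fun v _ => sq_nonneg _)
  have hE0 : 0 ≤ E := Finset.sum_nonneg (fun v _ => Finset.sum_nonneg (fun t _ => sq_nonneg _))
  -- right hand side
  have hR : ∑ x, ‖u x - u' x‖ ^ 2 = q * D + E := by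
    rw [sum_Om]
    simp_rw [huu, sub_self, norm_zero, hα0, hα1, hβ0]
    simp [hD, hE, Finset.mul_sum]
  -- left hand side
  have hL : ∑ x, ‖u x‖ ^ 2 ≤ 2 * q * ∑ v, ‖β v‖ ^ 2 + 2 * E + 2 * q * ∑ v, ‖α v‖ ^ 2 := by
    rw [sum_Om]
    simp_rw [hβ0, hβ2]
    have h1 : ∑ v, ∑ t, ‖u (v, 1, t)‖ ^ 2 ≤ 2 * E + 2 * q * ∑ v, ‖α v‖ ^ 2 := by
      have h2 : 2 * E + 2 * q * ∑ v, ‖α v‖ ^ 2 =
          ∑ v, ∑ t : Fin q, (2 * ‖u (v, 1, t) - α v‖ ^ 2 + 2 * ‖α v‖ ^ 2) := by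
        simp_rw [Finset.sum_add_distrib, ← Finset.mul_sum]
        simp only [Finset.sum_const, Finset.card_univ, Fintype.card_fin, nsmul_eq_mul]
        rw [hE, ← Finset.mul_sum]
        ring
      rw [h2]
      refine Finset.sum_le_sum (fun v _ => Finset.sum_le_sum (fun t _ => ?_))
      have h3 : u (v, 1, t) = (u (v, 1, t) - α v) + α v := by abel
      have h4 : ‖u (v, 1, t)‖ ≤ ‖u (v, 1, t) - α v‖ + ‖α v‖ := by
        conv_lhs => rw [h3]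
        exact norm_add_le _ _
      have h5 := norm_nonneg (u (v, 1, t))
      nlinarith [sq_nonneg (‖u (v, 1, t) - α v‖ - ‖α v‖)]
    simp only [Finset.sum_const, Finset.card_univ, Fintype.card_fin, nsmul_eq_mul]
    rw [← Finset.mul_sum]
    linarith
  -- means
  set a : H := n⁻¹ • ∑ v, α v with ha
  set b : H := n⁻¹ • ∑ v, β v with hb
  have hna : n • a = ∑ v, α v := by rw [ha, smul_inv_smul₀ hn.ne']
  have hnb : n • b = ∑ v, β v := by rw [hb, smul_inv_smul₀ hn.ne']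
  have hdecomp : ∀ (γ : V → H) (g : H), n • g = ∑ v, γ v →
      ∑ v, (γ v - g) = 0 ∧ ∑ v, ‖γ v‖ ^ 2 = n * ‖g‖ ^ 2 + ∑ v, ‖γ v - g‖ ^ 2 := by
    intro γ g hg
    have h1 : ∑ v, (γ v - g) = 0 := by
      rw [Finset.sum_sub_distrib, ← hg]
      simp [hndef, ← Nat.cast_smul_eq_nsmul ℝ]
    refine ⟨h1, ?_⟩
    have h2 : ∀ v, ‖γ v‖ ^ 2 = ‖g‖ ^ 2 + 2 * inner ℝ g (γ v - g) + ‖γ v - g‖ ^ 2 := by
      intro v
      rw [← norm_add_sq_real]
      congr 2; abel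
    simp_rw [h2]
    rw [Finset.sum_add_distrib, Finset.sum_add_distrib, ← Finset.mul_sum, ← inner_sum, h1]
    simp [hndef]
  obtain ⟨hα00, hαs⟩ := hdecomp α a hna
  obtain ⟨hβ00, hβs⟩ := hdecomp β b hnb
  have hDs := (hdecomp (fun v => β v - α v) (b - a) (by
    rw [smul_sub, hna, hnb, ← Finset.sum_sub_distrib])).2
  -- the spectral gap
  have hg := exp_vec cA cB hexp (fun v => α v - a) (fun v => β v - b)
    (fun v v' h => by rw [hαinv v v' h])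
    (fun v v' h => by rw [hβinv v v' h]) hα00
  have hcross : ∑ v, ‖β v - α v - (b - a)‖ ^ 2 =
      ∑ v, ‖β v - b‖ ^ 2 - 2 * ∑ v, inner ℝ (α v - a) (β v - b) + ∑ v, ‖α v - a‖ ^ 2 := by
    rw [Finset.mul_sum, ← Finset.sum_sub_distrib, ← Finset.sum_add_distrib]
    refine Finset.sum_congr rfl (fun v _ => ?_)
    have : β v - α v - (b - a) = (β v - b) - (α v - a) := by abel
    rw [this, norm_sub_sq_real, real_inner_comm]
  -- sum zero
  have hz : (2 : ℝ) • b + a = -((q * n)⁻¹ • ∑ v, ∑ t, (u (v, 1, t) - α v)) := by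
    rw [sum_Om] at h0
    simp_rw [hβ0, hβ2] at h0
    have h1 : ∑ v, ∑ t, (u (v, 1, t) - α v) = ∑ v, ∑ t, u (v, 1, t) - (q : ℝ) • ∑ v, α v := by
      simp_rw [Finset.sum_sub_distrib]
      congr 1
      simp [Finset.smul_sum, ← Nat.cast_smul_eq_nsmul ℝ]
    have h2 : ∑ v, ∑ t : Fin q, β v = (q : ℝ) • ∑ v, β v := by
      simp [Finset.smul_sum, ← Nat.cast_smul_eq_nsmul ℝ]
    rw [h2, ← hnb] at h0
    have h3 : ∑ v, ∑ t, u (v, 1, t) = - ((2 : ℝ) • ((q : ℝ) • (n • b))) := by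
      have : (q : ℝ) • n • b + ∑ v, ∑ t, u (v, 1, t) + (q : ℝ) • n • b = 0 := h0
      rw [two_smul]
      have h4 : ∑ v, ∑ t, u (v, 1, t) = - ((q : ℝ) • n • b + (q : ℝ) • n • b) +
          ((q : ℝ) • n • b + ∑ v, ∑ t, u (v, 1, t) + (q : ℝ) • n • b) := by abel
      rw [h4, this, add_zero]
    rw [h1, h3, ← hna]
    have hqn : (q : ℝ) * n ≠ 0 := by positivity
    have h5 : -((2 : ℝ) • ((q : ℝ) • (n • b))) - (q : ℝ) • (n • a) =
        ((q : ℝ) * n) • (-((2 : ℝ) • b + a)) := by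
      module
    rw [h5, inv_smul_smul₀ hqn, neg_neg]
  have hz2 : ‖(2 : ℝ) • b + a‖ ^ 2 ≤ (q * n)⁻¹ * E := by
    rw [hz, norm_neg, norm_smul, mul_pow, Real.norm_eq_abs, sq_abs]
    have h1 : ‖∑ v, ∑ t, (u (v, 1, t) - α v)‖ ^ 2 ≤ (q * n) * E := by
      have h2 : ‖∑ v, ∑ t, (u (v, 1, t) - α v)‖ ≤
          ∑ p : V × Fin q, ‖u (p.1, 1, p.2) - α p.1‖ := by
        rw [← Fintype.sum_prod_type']
        exact norm_sum_le _ _
      have h3 := sq_sum_le_card_mul_sum_sq (s := (univ : Finset (V × Fin q)))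
        (f := fun p => ‖u (p.1, 1, p.2) - α p.1‖)
      have h4 : ∑ p : V × Fin q, ‖u (p.1, 1, p.2) - α p.1‖ ^ 2 = E := by
        rw [hE, Fintype.sum_prod_type]
      rw [h4, Finset.card_univ, Fintype.card_prod, Fintype.card_fin] at h3
      push_cast at h3
      calc ‖∑ v, ∑ t, (u (v, 1, t) - α v)‖ ^ 2
          ≤ (∑ p : V × Fin q, ‖u (p.1, 1, p.2) - α p.1‖) ^ 2 :=
            pow_le_pow_left₀ (norm_nonneg _) h2 2
        _ ≤ _ := by rw [mul_comm (q : ℝ)]; exact h3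
    have hqn : (0 : ℝ) < q * n := by positivity
    calc ((q * n)⁻¹) ^ 2 * ‖∑ v, ∑ t, (u (v, 1, t) - α v)‖ ^ 2
        ≤ ((q * n)⁻¹) ^ 2 * ((q * n) * E) := mul_le_mul_of_nonneg_left h1 (sq_nonneg _)
      _ = _ := by field_simp
  -- bounds on means
  have hnorm3 : ∀ x y : H, ∀ r s : ℝ, ‖r • x + s • y‖ ^ 2 ≤ 2 * r ^ 2 * ‖x‖ ^ 2 +
      2 * s ^ 2 * ‖y‖ ^ 2 := by
    intro x y r s
    have h1 : ‖r • x + s • y‖ ≤ |r| * ‖x‖ + |s| * ‖y‖ := by
      refine (norm_add_le _ _).trans ?_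
      rw [norm_smul, norm_smul, Real.norm_eq_abs, Real.norm_eq_abs]
    have h2 := norm_nonneg (r • x + s • y)
    have h3 : (|r| * ‖x‖ + |s| * ‖y‖) ^ 2 ≤ 2 * r ^ 2 * ‖x‖ ^ 2 + 2 * s ^ 2 * ‖y‖ ^ 2 := by
      have h4 : 2 * r ^ 2 * ‖x‖ ^ 2 + 2 * s ^ 2 * ‖y‖ ^ 2 =
          2 * (|r| * ‖x‖) ^ 2 + 2 * (|s| * ‖y‖) ^ 2 := by
        rw [mul_pow, mul_pow, sq_abs, sq_abs]; ring
      rw [h4]
      nlinarith [sq_nonneg (|r| * ‖x‖ - |s| * ‖y‖)]
    exact (pow_le_pow_left₀ h2 h1 2).trans h3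
  have hbn : ‖b‖ ^ 2 ≤ (2 / 9) * ((q * n)⁻¹ * E) + (2 / 9) * ‖b - a‖ ^ 2 := by
    have h1 : b = (1 / 3 : ℝ) • ((2 : ℝ) • b + a) + (1 / 3 : ℝ) • (b - a) := by module
    have h2 := hnorm3 ((2 : ℝ) • b + a) (b - a) (1 / 3) (1 / 3)
    rw [← h1] at h2
    nlinarith
  have han : ‖a‖ ^ 2 ≤ (2 / 9) * ((q * n)⁻¹ * E) + (8 / 9) * ‖b - a‖ ^ 2 := by
    have h1 : a = (1 / 3 : ℝ) • ((2 : ℝ) • b + a) + (-(2 / 3) : ℝ) • (b - a) := by module
    have h2 := hnorm3 ((2 : ℝ) • b + a) (b - a) (1 / 3) (-(2 / 3))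
    rw [← h1] at h2
    nlinarith
  set α2 := ∑ v, ‖α v - a‖ ^ 2 with hα2
  set β2 := ∑ v, ‖β v - b‖ ^ 2 with hβ2
  have hα20 : 0 ≤ α2 := Finset.sum_nonneg (fun v _ => sq_nonneg _)
  have hβ20 : 0 ≤ β2 := Finset.sum_nonneg (fun v _ => sq_nonneg _)
  have hD2 : n * ‖b - a‖ ^ 2 + (2 / 3) * (α2 + β2) ≤ D := by
    have : D = n * ‖b - a‖ ^ 2 + ∑ v, ‖β v - α v - (b - a)‖ ^ 2 := hDs
    rw [this, hcross]
    linarith
  have hba0 : 0 ≤ ‖b - a‖ ^ 2 := sq_nonneg _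
  have e1 : q * (n * ‖b‖ ^ 2) ≤ (2 / 9) * E + (2 / 9) * (q * (n * ‖b - a‖ ^ 2)) := by
    have := mul_le_mul_of_nonneg_left hbn (by positivity : (0 : ℝ) ≤ q * n)
    have h2 : (q : ℝ) * n * ((2 / 9) * ((q * n)⁻¹ * E) + (2 / 9) * ‖b - a‖ ^ 2) =
        (2 / 9) * E + (2 / 9) * (q * (n * ‖b - a‖ ^ 2)) := by
      field_simp
    linarith
  have e2 : q * (n * ‖a‖ ^ 2) ≤ (2 / 9) * E + (8 / 9) * (q * (n * ‖b - a‖ ^ 2)) := by
    have := mul_le_mul_of_nonneg_left han (by positivity : (0 : ℝ) ≤ q * n)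
    have h2 : (q : ℝ) * n * ((2 / 9) * ((q * n)⁻¹ * E) + (8 / 9) * ‖b - a‖ ^ 2) =
        (2 / 9) * E + (8 / 9) * (q * (n * ‖b - a‖ ^ 2)) := by
      field_simp
    linarith
  have e3 : q * (n * ‖b - a‖ ^ 2) + (2 / 3) * (q * (α2 + β2)) ≤ q * D := by
    have := mul_le_mul_of_nonneg_left hD2 hq0.le
    linarith
  have e4 : 0 ≤ q * (n * ‖b - a‖ ^ 2) := by positivity
  have e5 : 0 ≤ q * (α2 + β2) := mul_nonneg hq0.le (add_nonneg hα20 hβ20)
  rw [hR]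
  refine hL.trans ?_
  rw [hαs, hβs]
  have e6 : 2 * (q : ℝ) * (n * ‖b‖ ^ 2 + β2) + 2 * E + 2 * q * (n * ‖a‖ ^ 2 + α2) =
      2 * (q * (n * ‖b‖ ^ 2)) + 2 * (q * (n * ‖a‖ ^ 2)) + 2 * (q * (α2 + β2)) + 2 * E := by ring
  rw [e6]
  clear_value D E α2 β2
  linarith

end onesite

end Pool.Agent.Lib.MP_dbb15e_gt
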