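import Mathlib
import Pool.Agent.Lib.MP_dbb15e_gt.Mixing

/-!
# The mixing inequality on the product
-/

set_option autoImplicit false

namespace Pool.Agent.Lib.MP_dbb15e_gt

open Finset

section

variable {ι Ω : Type*} [Fintype ι] [DecidableEq ι] [Fintype Ω]
  {H : Type*} [NormedAddCommGroup H] [InnerProductSpace ℝ H]

lemma avk_smul_at {κ : Type*} [DecidableEq κ] (c : Ω → κ) {M : Type*} [AddCommGroup M]
    [Module ℝ M] (F : Ω → M) (x : Ω) (hF : ∀ y, c x = c y → F y = F x) :
    ∑ y, avk c x y • F y = F x := by
  have h1 : ∀ y, avk c x y • F y = avk c x y • F x := by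
    intro y
    by_cases h : c x = c y
    · rw [hF y h]
    · unfold avk; rw [if_neg h, zero_smul, zero_smul]
  simp_rw [h1]
  rw [← Finset.sum_smul, avk_sum, one_smul]

lemma site_avk_proj {κ : Type*} [DecidableEq κ] (c : Ω → κ) (i : ι) :
    OProj (site (H := H) (avk c) i) := by
  constructor
  · intro f
    rw [site_comp]
    congr 2
    funext x z
    exact avk_comp c x z
  · intro f g
    rw [site_inner (avk c) (avk c) (fun x y => avk_symm c x y)]

/-- The mean over one coordinate. -/
noncomputable def mean (i : ι) : Module.End ℝ (LS ι Ω H) := site (avk (fun _ : Ω => ())) i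

lemma avk_unit (x y : Ω) : avk (fun _ : Ω => ()) x y = (Fintype.card Ω : ℝ)⁻¹ := by
  simp [avk]

lemma mean_apply (i : ι) (f : LS ι Ω H) (x : ι → Ω) :
    mean i f x = (Fintype.card Ω : ℝ)⁻¹ • ∑ y, f (Function.update x i y) := by
  rw [mean, site_apply]
  simp_rw [avk_unit]
  rw [Finset.smul_sum]

lemma mean_site {κ : Type*} [DecidableEq κ] (c : Ω → κ) (i : ι) (f : LS ι Ω H) :
    mean i (site (avk c) i f) = mean i f := by
  rw [mean, site_comp]
  congr 2
  funext x z
  simp_rw [avk_unit]
  rw [← Finset.mul_sum]
  have : ∑ y, avk c y z = 1 := by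
    rw [← avk_sum c z]
    exact Finset.sum_congr rfl (fun y _ => avk_symm c y z)
  rw [this, mul_one]

lemma site_mean {κ : Type*} [DecidableEq κ] (c : Ω → κ) (i : ι) (f : LS ι Ω H) :
    site (avk c) i (mean i f) = mean i f := by
  rw [mean, site_comp]
  congr 2
  funext x z
  simp_rw [avk_unit]
  rw [← Finset.sum_mul, avk_sum, one_mul]

lemma mean_prod_zero (f : LS ι Ω H) (h0 : ∑ x, f x = 0) :
    ((univ : Finset ι).toList.map (mean (Ω := Ω) (H := H))).prod f = 0 := by
  classical
  by_cases hΩ : Nonempty (ι → Ω)
  swap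
  · rw [not_nonempty_iff] at hΩ
    apply PiLp.ext
    intro x
    exact hΩ.elim x
  -- invariance
  have hinv : ∀ (l : List ι) (i : ι), i ∈ l → ∀ (x : ι → Ω) (y : Ω),
      (l.map (mean (Ω := Ω) (H := H))).prod f (Function.update x i y) =
      (l.map (mean (Ω := Ω) (H := H))).prod f x := by
    intro l
    induction l with
    | nil => intro i hi; simp at hi
    | cons j l ih =>
      intro i hi x y
      simp only [List.map_cons, List.prod_cons, Module.End.mul_apply]
      rw [mean_apply, mean_apply]
      congr 1
      by_cases hij : i = j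
      · subst hij
        simp_rw [Function.update_idem]
      · have hil : i ∈ l := by
          rcases List.mem_cons.1 hi with h | h
          · exact absurd h hij
          · exact h
        refine Finset.sum_congr rfl (fun z _ => ?_)
        rw [Function.update_comm hij, ih i hil]
  have hsum : ∀ (l : List ι), ∑ x, (l.map (mean (Ω := Ω) (H := H))).prod f x = ∑ x, f x := by
    intro l
    induction l with
    | nil => simp
    | cons j l ih =>
      simp only [List.map_cons, List.prod_cons, Module.End.mul_apply]
      rw [← ih]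
      set g := (l.map (mean (Ω := Ω) (H := H))).prod f
      simp_rw [mean_apply]
      rw [← Finset.smul_sum]
      have := sum_update j (fun (x : ι → Ω) (_ : Ω) => g x)
      rw [this]
      have hcard : (Fintype.card Ω : ℝ) ≠ 0 := by
        have : Nonempty Ω := ⟨hΩ.some j⟩
        exact_mod_cast Fintype.card_ne_zero
      simp only [Finset.sum_const, Finset.card_univ]
      rw [← Finset.smul_sum, ← Nat.cast_smul_eq_nsmul ℝ, inv_smul_smul₀ hcard]
  set g := ((univ : Finset ι).toList.map (mean (Ω := Ω) (H := H))).prod f with hg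
  have hconst : ∀ x y : ι → Ω, g x = g y := by
    intro x y
    have h1 : ∀ s : Finset ι, g (s.piecewise y x) = g x := by
      intro s
      induction s using Finset.induction_on with
      | empty => simp
      | insert i s his ih =>
        rw [Finset.piecewise_insert, hg, hinv _ i (by simp), ← hg, ih]
    have h2 := h1 univ
    rw [Finset.piecewise_univ] at h2
    exact h2.symm
  have h1 := hsum (univ : Finset ι).toList
  rw [← hg, h0] at h1
  obtain ⟨x0⟩ := hΩ
  have h2 : ∑ x, g x = (Fintype.card (ι → Ω) : ℝ) • g x0 := by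
    rw [Finset.sum_congr rfl (fun x _ => hconst x x0)]
    simp only [Finset.sum_const, Finset.card_univ]
    rw [← Nat.cast_smul_eq_nsmul ℝ]
  rw [h2] at h1
  have hcard : (Fintype.card (ι → Ω) : ℝ) ≠ 0 := by
    have : Nonempty (ι → Ω) := ⟨x0⟩
    exact_mod_cast Fintype.card_ne_zero
  have h3 : g x0 = 0 := (smul_eq_zero.1 h1).resolve_left hcard
  apply PiLp.ext
  intro x
  rw [hconst x x0, h3]; rfl

end

section

variable {ι V : Type*} [Fintype ι] [DecidableEq ι] [Fintype V] {q : ℕ}
  {H : Type*} [NormedAddCommGroup H] [InnerProductSpace ℝ H]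

open Classical in
/-- averaging over the classes in one coordinate -/
noncomputable def Pside {κ : Type*} (c : V → κ) (forb : Fin 3) (i : ι) :
    Module.End ℝ (LS ι (Om V q) H) := site (avk (clm c forb)) i

open Classical in
/-- averaging over the classes in all coordinates -/
noncomputable def Pall {κ : Type*} (c : V → κ) (forb : Fin 3) :
    Module.End ℝ (LS ι (Om V q) H) :=
  ((univ : Finset ι).toList.map (fun i => Pside (H := H) (q := q) c forb i)).prod

open Classical in
lemma Pside_proj {κ : Type*} (c : V → κ) (forb : Fin 3) (i : ι) :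
    OProj (Pside (H := H) (q := q) c forb i) := by
  unfold Pside; exact site_avk_proj _ i

/-- The mixing inequality. -/
theorem mixing {U W : Type*} (cA : V → U) (cB : V → W) (hq : 0 < q)
    (hexp : ∀ α β : V → ℝ, (∀ v v', cA v = cA v' → α v = α v') →
      (∀ v v', cB v = cB v' → β v = β v') → ∑ v, α v = 0 →
      2 * ∑ v, α v * β v ≤ (1 / 3) * (∑ v, (α v) ^ 2 + ∑ v, (β v) ^ 2))
    (f : LS ι (Om V q) H) (h0 : ∑ x, f x = 0) :
    ‖f‖ ≤ 12 * (‖f - Pall cA 2 f‖ + ‖f - Pall cB 1 f‖) := by
  classical
  set PA : ι → Module.End ℝ (LS ι (Om V q) H) := fun i => Pside cA 2 i with hPA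
  set PB : ι → Module.End ℝ (LS ι (Om V q) H) := fun i => Pside cB 1 i with hPB
  have hPAp : ∀ i, OProj (PA i) := fun i => Pside_proj cA 2 i
  have hPBp : ∀ i, OProj (PB i) := fun i => Pside_proj cB 1 i
  set Q : ι → Module.End ℝ (LS ι (Om V q) H) := fun i => PA i * PB i with hQ
  have hQapp : ∀ i f, Q i f = PA i (PB i f) := fun i f => rfl
  have key := tensor_gap Q (mean (Ω := Om V q) (H := H)) (5 / 6) (by norm_num)
    (fun i => site_avk_proj _ i)
    (by intro i f; rw [hQapp]; simp only [hPA, hPB, Pside]; rw [site_mean, site_mean])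
    (by intro i f; rw [hQapp]; simp only [hPA, hPB, Pside]; rw [mean_site, mean_site])
    (by intro i f; rw [hQapp]; exact ((hPAp i).norm_le _).trans ((hPBp i).norm_le _))
    ?_
    (by intro i j hij f; rw [hQapp, hQapp]; simp only [hPA, hPB, Pside, mean]
        rw [site_comm _ _ i j hij, site_comm _ _ i j hij])
    (by intro i j hij f; simp only [mean]; rw [site_comm _ _ i j hij])
    (univ : Finset ι).toList (Finset.nodup_toList _) f
  · rw [mean_prod_zero f h0] at key
    have hmerge := prod_merge PA PB (by
      intro i j hij f; simp only [hPA, hPB, Pside]; rw [site_comm _ _ i j hij])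
      (univ : Finset ι).toList (Finset.nodup_toList _) f
    have hkey : ‖Pall cA 2 (Pall cB 1 f)‖ ^ 2 ≤ (5 / 6) * ‖f‖ ^ 2 := by
      have e : Pall cA 2 (Pall cB 1 f) =
          ((univ : Finset ι).toList.map Q).prod f := hmerge
      rw [e]
      simpa using key
    have hcontr : ∀ g : LS ι (Om V q) H, ‖Pall cA 2 g‖ ≤ ‖g‖ := by
      intro g
      have : ∀ l : List ι, ‖(l.map PA).prod g‖ ≤ ‖g‖ := by
        intro l
        induction l with
        | nil => simp
        | cons j l ih =>
          simp only [List.map_cons, List.prod_cons, Module.End.mul_apply]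
          exact ((hPAp j).norm_le _).trans ih
      exact this _
    have h1 : f = (f - Pall cA 2 f) + Pall cA 2 (f - Pall cB 1 f) +
        Pall cA 2 (Pall cB 1 f) := by
      rw [map_sub]; abel
    have h2 : ‖f‖ ≤ ‖f - Pall cA 2 f‖ + ‖f - Pall cB 1 f‖ + ‖Pall cA 2 (Pall cB 1 f)‖ := by
      conv_lhs => rw [h1]
      refine (norm_add_le _ _).trans ?_
      have h3 := norm_add_le (f - Pall cA 2 f) (Pall cA 2 (f - Pall cB 1 f))
      have h4 := hcontr (f - Pall cB 1 f)
      linarith
    have h3 : ‖Pall cA 2 (Pall cB 1 f)‖ ≤ (11 / 12) * ‖f‖ := by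
      apply le_of_sq_le_sq _ (by positivity)
      nlinarith [sq_nonneg ‖f‖]
    linarith
  · -- the gap
    intro i f hf
    rw [hQapp]
    set g := PB i f with hg
    have hgm : mean i g = 0 := by
      rw [hg, hPB]; simp only [Pside]; rw [mean_site]; exact hf
    have h1 : ‖g‖ ^ 2 ≤ 6 * ‖g - PA i g‖ ^ 2 := by
      rw [PiLp.norm_sq_eq_of_L2, PiLp.norm_sq_eq_of_L2, Finset.mul_sum]
      refine fiber_le i _ _ (fun x => ?_)
      rw [← Finset.mul_sum]
      refine gap_one cA cB hq hexp (fun z => g (Function.update x i z))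
        (fun z => PA i g (Function.update x i z)) ?_ ?_ ?_ ?_
      · intro y z hyz
        simp only [hg, hPB, Pside, site_apply, Function.update_self, Function.update_idem]
        exact Finset.sum_congr rfl (fun w _ => by rw [avk_inv (clm cB 1) y z w hyz])
      · intro y z hyz
        simp only [hPA, Pside, site_apply, Function.update_self, Function.update_idem]
        exact Finset.sum_congr rfl (fun w _ => by rw [avk_inv (clm cA 2) y z w hyz])
      · intro v t
        simp only [hPA, Pside, site_apply, Function.update_self, Function.update_idem]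
        refine avk_smul_at (clm cA 2) (fun z => g (Function.update x i z)) (v, 2, t) ?_
        intro y hy
        have : y = (v, 2, t) := by
          unfold clm at hy
          split_ifs at hy with h1 h2
          · exact (Sum.inr.inj hy).symm
          · exact absurd rfl h1
        rw [this]
      · have h2 : mean i g x = 0 := by rw [hgm]; rfl
        rw [mean_apply] at h2
        have hcard : ((Fintype.card (Om V q) : ℝ))⁻¹ ≠ 0 := by
          have : Nonempty (Om V q) := ⟨x i⟩
          apply inv_ne_zero
          exact_mod_cast Fintype.card_ne_zero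
        exact (smul_eq_zero.1 h2).resolve_left hcard
    have h2 := (hPAp i).pyth g
    have h3 : ‖g‖ ^ 2 ≤ ‖f‖ ^ 2 := pow_le_pow_left₀ (norm_nonneg _) ((hPBp i).norm_le f) 2
    linarith

end

end Pool.Agent.Lib.MP_dbb15e_gt
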