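import Mathlib
import Pool.Agent.Lib.MP_dbb15e_gt.Mix2

/-!
# Poincaré inequality along the legs of the stars
-/

set_option autoImplicit false

namespace Pool.Agent.Lib.MP_dbb15e_gt

open Finset

section

variable {H : Type*} [NormedAddCommGroup H] [InnerProductSpace ℝ H]

lemma telescope_sq (Γ : ℕ → H) (q a : ℕ) (ha : a ≤ q) :
    ‖Γ a - Γ q‖ ^ 2 ≤ q * ∑ t : Fin q, ‖Γ ((t : ℕ) + 1) - Γ t‖ ^ 2 := by
  have h1 : Γ q - Γ a = ∑ t ∈ Finset.Ico a q, (Γ (t + 1) - Γ t) := by
    rw [Finset.sum_Ico_sub _ ha]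
  have h2 : ‖Γ a - Γ q‖ ≤ ∑ t ∈ Finset.range q, ‖Γ (t + 1) - Γ t‖ := by
    rw [norm_sub_rev, h1]
    refine (norm_sum_le _ _).trans ?_
    apply Finset.sum_le_sum_of_subset_of_nonneg
    · intro t ht
      simp only [Finset.mem_Ico] at ht
      simp only [Finset.mem_range]
      exact ht.2
    · intro t _ _
      exact norm_nonneg _
  have h3 := sq_sum_le_card_mul_sum_sq (s := Finset.range q)
    (f := fun t => ‖Γ (t + 1) - Γ t‖)
  rw [Finset.card_range] at h3
  have h4 : ∑ t : Fin q, ‖Γ ((t : ℕ) + 1) - Γ t‖ ^ 2 =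
      ∑ t ∈ Finset.range q, ‖Γ (t + 1) - Γ t‖ ^ 2 :=
    Fin.sum_univ_eq_sum_range (fun t => ‖Γ (t + 1) - Γ t‖ ^ 2) q
  rw [h4]
  exact (pow_le_pow_left₀ (norm_nonneg _) h2 2).trans h3

/-- sign of a leg -/
def sgl (s : Fin 3) : ℝ := if s = 0 then 0 else if s = 1 then -1 else 1

variable {ι V : Type*} [Fintype ι] [DecidableEq ι] [Fintype V] {q : ℕ}

/-- position of a point of the one site space in the metric graph -/
noncomputable def posx (x : Om V q) : V × ℝ := (x.1, sgl x.2.1 * (((x.2.2 : ℕ) : ℝ) + 1) / q)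

/-- position in the product -/
noncomputable def pos (x : ι → Om V q) : ι → V × ℝ := fun i => posx (x i)

omit [Fintype ι] [Fintype V] in
lemma pos_update (x : ι → Om V q) (i : ι) (y : Om V q) :
    pos (Function.update x i y) = Function.update (pos x) i (posx y) := by
  funext j
  by_cases h : j = i
  · subst h; simp [pos]
  · simp [pos, Function.update_of_ne h]

/-- One site star inequality. -/
lemma star_site {κ : Type*} (c : V → κ) (leg forb : Fin 3)
    (hlf : (leg = 1 ∧ forb = 2) ∨ (leg = 2 ∧ forb = 1)) (hq : 0 < q)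
    (fhat : (ι → V × ℝ) → H)
    (hc : ∀ (y : ι → V × ℝ) (i : ι) (v v' : V), c v = c v' →
      fhat (Function.update y i (v, sgl leg)) = fhat (Function.update y i (v', sgl leg)))
    (f : LS ι (Om V q) H) (hf : ∀ x, f x = fhat (pos x)) (i : ι) :
    ‖f - Pside c forb i f‖ ^ 2 ≤ ∑ x : ι → Om V q, (2 * (q : ℝ) ^ 2 *
      (if (x i).2.1 = leg then ‖fhat (pos x) -
        fhat (Function.update (pos x) i ((x i).1, sgl leg * ((x i).2.2 : ℕ) / q))‖ ^ 2 else 0)) := by
  classical
  have hq0 : (0 : ℝ) < q := by exact_mod_cast hq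
  set h : LS ι (Om V q) H := WithLp.toLp 2 (fun x : ι → Om V q =>
    if (x i).2.1 = forb then f x else fhat (Function.update (pos x) i ((x i).1, sgl leg))) with hh
  have happ : ∀ x, h x = if (x i).2.1 = forb then f x else
    fhat (Function.update (pos x) i ((x i).1, sgl leg)) := fun x => rfl
  have hinv : Pside c forb i h = h := by
    apply PiLp.ext
    intro x
    simp only [Pside, site_apply]
    have := avk_smul_at (clm c forb) (fun z => h (Function.update x i z)) (x i) ?_
    · simp only at this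
      rw [Function.update_eq_self] at this
      convert this using 2
    · intro y hy
      simp only
      rw [Function.update_eq_self, happ, happ, Function.update_self]
      unfold clm at hy
      split_ifs at hy with h1 h2
      · have e : x i = y := Sum.inr.inj hy
        rw [← e, Function.update_eq_self]
      · rename_i h2
        rw [if_neg h2, if_neg h1, pos_update, Function.update_idem]
        exact hc _ _ _ _ (Sum.inl.inj hy).symm
  have hbest := (Pside_proj (H := H) (q := q) c forb i).best f h hinv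
  refine (pow_le_pow_left₀ (norm_nonneg _) hbest 2).trans ?_
  rw [PiLp.norm_sq_eq_of_L2]
  refine fiber_le i _ _ (fun x => ?_)
  simp only [PiLp.sub_apply, happ, hf, Function.update_self, pos_update, Function.update_idem]
  set G : V → ℕ → H := fun v j => fhat (Function.update (pos x) i (v, sgl leg * (j : ℝ) / q)) with hG
  have hG0 : ∀ v t, fhat (Function.update (pos x) i (posx ((v, 0, t) : Om V q))) = G v 0 := by
    intro v t
    simp [hG, posx, sgl]
  have hGq : ∀ v, fhat (Function.update (pos x) i (v, sgl leg)) = G v q := by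
    intro v
    simp only [hG]
    rw [mul_div_assoc, div_self hq0.ne', mul_one]
  have hGl : ∀ v t, fhat (Function.update (pos x) i (posx ((v, leg, t) : Om V q))) =
      G v ((t : ℕ) + 1) := by
    intro v t
    simp [hG, posx]
  have hGt : ∀ v (t : Fin q), fhat (Function.update (pos x) i (v, sgl leg * ((t : ℕ) : ℝ) / q)) =
      G v t := fun v t => rfl
  have main : ∑ v, ∑ t : Fin q, ‖G v 0 - G v q‖ ^ 2 +
      ∑ v, ∑ t : Fin q, ‖G v ((t : ℕ) + 1) - G v q‖ ^ 2 ≤
      2 * (q : ℝ) ^ 2 * ∑ v, ∑ t : Fin q, ‖G v ((t : ℕ) + 1) - G v t‖ ^ 2 := by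
    rw [← Finset.sum_add_distrib, Finset.mul_sum]
    refine Finset.sum_le_sum (fun v _ => ?_)
    have h1 : ∑ t : Fin q, ‖G v 0 - G v q‖ ^ 2 ≤
        q * (q * ∑ t : Fin q, ‖G v ((t : ℕ) + 1) - G v t‖ ^ 2) := by
      have := Finset.sum_le_sum (s := (univ : Finset (Fin q)))
        (fun t _ => telescope_sq (G v) q 0 (Nat.zero_le _))
      refine this.trans ?_
      simp
    have h2 : ∑ t : Fin q, ‖G v ((t : ℕ) + 1) - G v q‖ ^ 2 ≤
        q * (q * ∑ t : Fin q, ‖G v ((t : ℕ) + 1) - G v t‖ ^ 2) := by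
      have := Finset.sum_le_sum (s := (univ : Finset (Fin q)))
        (fun t _ => telescope_sq (G v) q ((t : ℕ) + 1) t.2)
      refine this.trans ?_
      simp
    nlinarith
  rcases hlf with ⟨rfl, rfl⟩ | ⟨rfl, rfl⟩
  · rw [sum_Om, sum_Om]
    simp only [hG0, hGq, hGl, hGt]
    have h01 : ((0 : Fin 3) = 2) = False := by simp
    have h12 : ((1 : Fin 3) = 2) = False := by simp
    have h01' : ((0 : Fin 3) = 1) = False := by simp
    have h21' : ((2 : Fin 3) = 1) = False := by simp
    simp only [h01, h12, h01', h21', if_true, if_false, sub_self, norm_zero, mul_zero]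
    simp only [ne_eq, OfNat.ofNat_ne_zero, not_false_eq_true, zero_pow, Finset.sum_const_zero,
      add_zero, zero_add, ← Finset.mul_sum]
    exact main
  · rw [sum_Om, sum_Om]
    simp only [hG0, hGq, hGl, hGt]
    have h01 : ((0 : Fin 3) = 1) = False := by simp
    have h12 : ((2 : Fin 3) = 1) = False := by simp
    have h01' : ((0 : Fin 3) = 2) = False := by simp
    have h21' : ((1 : Fin 3) = 2) = False := by simp
    simp only [h01, h12, h01', h21', if_true, if_false, sub_self, norm_zero, mul_zero]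
    simp only [ne_eq, OfNat.ofNat_ne_zero, not_false_eq_true, zero_pow, Finset.sum_const_zero,
      add_zero, zero_add, ← Finset.mul_sum]
    exact main

/-- The star inequality for the product. -/
theorem star_all {κ : Type*} (c : V → κ) (leg forb : Fin 3)
    (hlf : (leg = 1 ∧ forb = 2) ∨ (leg = 2 ∧ forb = 1)) (hq : 0 < q)
    (fhat : (ι → V × ℝ) → H)
    (hc : ∀ (y : ι → V × ℝ) (i : ι) (v v' : V), c v = c v' →
      fhat (Function.update y i (v, sgl leg)) = fhat (Function.update y i (v', sgl leg)))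
    (f : LS ι (Om V q) H) (hf : ∀ x, f x = fhat (pos x)) (M : ℝ)
    (hM : ∀ x : ι → Om V q, ∑ i, (if (x i).2.1 = leg then ‖fhat (pos x) -
        fhat (Function.update (pos x) i ((x i).1, sgl leg * ((x i).2.2 : ℕ) / q))‖ ^ 2 else 0)
        ≤ M / (q : ℝ) ^ 2) :
    ‖f - Pall c forb f‖ ^ 2 ≤ 2 * M * Fintype.card (ι → Om V q) := by
  classical
  have hq0 : (0 : ℝ) < q := by exact_mod_cast hq
  have h1 := efron_stein (fun i => Pside (H := H) (q := q) c forb i)
    (fun i => Pside_proj c forb i) (univ : Finset ι).toList f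
  have h2 : ((univ : Finset ι).toList.map (fun i => ‖f - Pside c forb i f‖ ^ 2)).sum =
      ∑ i, ‖f - Pside c forb i f‖ ^ 2 := by
    rw [Finset.sum_map_toList]
  rw [h2] at h1
  refine h1.trans ?_
  have h3 := Finset.sum_le_sum (s := (univ : Finset ι))
    (fun i _ => star_site c leg forb hlf hq fhat hc f hf i)
  refine h3.trans ?_
  rw [Finset.sum_comm]
  have h4 : ∀ x : ι → Om V q, ∑ i, (2 * (q : ℝ) ^ 2 *
      (if (x i).2.1 = leg then ‖fhat (pos x) -
        fhat (Function.update (pos x) i ((x i).1, sgl leg * ((x i).2.2 : ℕ) / q))‖ ^ 2 else 0)) ≤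
      2 * M := by
    intro x
    rw [← Finset.mul_sum]
    have := mul_le_mul_of_nonneg_left (hM x) (by positivity : 0 ≤ 2 * (q : ℝ) ^ 2)
    refine this.trans (le_of_eq ?_)
    field_simp
  refine (Finset.sum_le_sum (fun x _ => h4 x)).trans (le_of_eq ?_)
  simp only [Finset.sum_const, Finset.card_univ, nsmul_eq_mul]
  ring

end

end Pool.Agent.Lib.MP_dbb15e_gt
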