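import Mathlib
import Pool.Agent.Lib.MP_dbb15e_gt.Common
import Pool.Agent.Lib.MP_dbb15e_gt.Star
import Pool.Agent.Lib.MP_dbb15e_gt.Gadget

/-!
# The Poincaré inequality of a side
-/

set_option autoImplicit false

namespace Pool.Agent.Lib.MP_dbb15e_gt

open Finset

section

variable {ι V U W Λ : Type*} [Fintype ι] [DecidableEq ι] [Fintype V] [Fintype U] [Fintype W]
  [Fintype Λ] {N q : ℕ} {H : Type*} [NormedAddCommGroup H] [InnerProductSpace ℝ H]

lemma sgl_abs (leg : Fin 3) (h : leg = 1 ∨ leg = 2) : |sgl leg| = 1 := by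
  rcases h with rfl | rfl <;> simp [sgl]

omit [Fintype V] [Fintype U] [Fintype W] in
lemma wv_update (l : V → Λ) (r : ι × Λ → Fin N → ℝ) (y : ι → V × ℝ) (i : ι) (s' : ℝ) :
    wv l r (Function.update y i ((y i).1, s')) =
      wv l r y + (|(y i).2| - |s'|) • r (i, l (y i).1) := by
  classical
  funext j
  have h1 := wv_sub l r (Function.update y i ((y i).1, s')) y j
  have h2 : ∀ k : ι × Λ, (tv l (Function.update y i ((y i).1, s')) k - tv l y k) * r k j =
      if k = (i, l (y i).1) then (|(y i).2| - |s'|) * r (i, l (y i).1) j else 0 := by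
    rintro ⟨i', a⟩
    by_cases hi : i' = i
    · subst hi
      simp only [tv, Function.update_self, Prod.mk.injEq, true_and]
      by_cases ha : l (y i').1 = a
      · subst ha
        simp
      · have ha' : ¬ a = l (y i').1 := fun h => ha h.symm
        simp [ha, ha']
    · simp [tv, Function.update_of_ne hi, hi]
  rw [Finset.sum_congr rfl (fun k _ => h2 k)] at h1
  rw [Finset.sum_ite_eq' Finset.univ (i, l (y i).1)] at h1
  simp only [Finset.mem_univ, if_true, Pi.sub_apply] at h1
  simp only [Pi.add_apply, Pi.smul_apply, smul_eq_mul]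
  linarith

omit [Fintype V] [Fintype Λ] in
lemma phi_update (c : V → U) (c' : V → W) (σ : ℝ) (y : ι → V × ℝ) (i : ι) (s' : ℝ)
    (h : pp σ s' = pp σ (y i).2) :
    phi c c' σ (Function.update y i ((y i).1, s')) = phi c c' σ y := by
  classical
  unfold phi
  congr 1
  funext k
  by_cases hk : k.1 = i
  · rw [hk, Function.update_self]
    simp only [h]
  · rw [Function.update_of_ne hk]

lemma pp_leg (σ : ℝ) (leg : Fin 3) (hσ : σ * sgl leg = -1) (t : ℝ) (ht : 0 ≤ t) :
    pp σ (sgl leg * t) = 0 := by
  unfold pp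
  rw [← mul_assoc, hσ]
  exact max_eq_right (by linarith)

/-- The Poincaré inequality of a side. -/
theorem side_poincare (hq : 0 < q) (hN : 0 < N) (c : V → U) (c' : V → W) (l : V → Λ) (σ : ℝ)
    (leg forb : Fin 3) (hlf : (leg = 1 ∧ forb = 2) ∨ (leg = 2 ∧ forb = 1))
    (hσ : σ * sgl leg = -1) (r : ι × Λ → Fin N → ℝ)
    (hr1 : ∀ k j, r k j = 1 ∨ r k j = -1)
    (hr2 : ∀ t : Fin N → ℝ, ∑ k, (∑ j, r k j * t j) ^ 2 ≤ 48 * N * ∑ j, (t j) ^ 2)
    (K θ L : ℝ) (hL : 0 ≤ L) (hθ0 : 0 ≤ θ) (hθN : θ ≤ Real.sqrt N)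
    (γ : EuclideanSpace ℝ (ι × (U ⊕ W)) × (Fin N → ℝ) → H)
    (hγ : ∀ z z', ‖γ z - γ z'‖ ≤ L * dS K θ z z')
    (hqN : (Fintype.card (ι × Λ) : ℝ) * N ^ 2 ≤ (q : ℝ) ^ 2) :
    ∃ f : LS ι (Om V q) H, (∀ x, ‖f x - γ (iS c c' l σ r (pos x))‖ ≤ L) ∧
      ‖f - Pall c forb f‖ ^ 2 ≤ 208 * L ^ 2 * Fintype.card (ι → Om V q) := by
  classical
  have hq0 : (0 : ℝ) < q := by exact_mod_cast hq
  have hN0 : (0 : ℝ) < N := by exact_mod_cast hN
  have hleg : leg = 1 ∨ leg = 2 := by rcases hlf with h | h <;> simp [h.1]
  have hleg1 := sgl_abs leg hleg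
  set g : EuclideanSpace ℝ (ι × (U ⊕ W)) → (Fin N → ℝ) → H := fun p w => γ (p, w) with hg
  have hg1 : ∀ p w w', ‖g p w - g p w'‖ ≤ L * nn θ (w - w') := by
    intro p w w'
    have := hγ (p, w) (p, w')
    simpa [dS] using this
  have hg2 : ∀ p w j, ‖g p (w + uq q j) - g p w‖ ≤ L / (N * q) := by
    intro p w j
    refine (hg1 p _ _).trans ?_
    rw [add_sub_cancel_left]
    have h := nn_single hN θ hθ0 hθN j ((q : ℝ)⁻¹) (by positivity)
    calc L * nn θ (uq q j) ≤ L * ((q : ℝ)⁻¹ / N) := by gcongr; exact h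
      _ = _ := by field_simp
  have hg3 : ∀ p w (z : Fin N → ℝ), (∀ j, 0 ≤ z j) → (∀ j, z j ≤ 1) →
      ‖g p (w + z) - g p w‖ ≤ L := by
    intro p w z h0 h1
    refine (hg1 p _ _).trans ?_
    rw [add_sub_cancel_left]
    have h := nn_box hN θ hθ0 hθN z h0 h1
    calc L * nn θ z ≤ L * 1 := by gcongr
      _ = L := mul_one L
  set fhat : (ι → V × ℝ) → H := fun y => smooth q (g (phi c c' σ y)) (wv l r y) with hfhat
  refine ⟨WithLp.toLp 2 (fun x => fhat (pos x)), ?_, ?_⟩
  · intro x
    exact smooth_close hq _ L _ (hg3 _ _)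
  · have h := star_all (H := H) c leg forb hlf hq fhat ?_
      (WithLp.toLp 2 (fun x => fhat (pos x))) (fun x => rfl) (104 * L ^ 2) ?_
    · refine h.trans (le_of_eq ?_)
      ring
    · -- classes
      intro y i v v' hvv
      have e1 : phi c c' σ (Function.update y i (v, sgl leg)) =
          phi c c' σ (Function.update y i (v', sgl leg)) := by
        unfold phi
        congr 1
        funext k
        by_cases hk : k.1 = i
        · rw [hk, Function.update_self, Function.update_self]
          have h0 : pp σ (sgl leg) = 0 := by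
            have := pp_leg σ leg hσ 1 (by norm_num)
            rwa [mul_one] at this
          simp only [h0, hvv]
          rcases k.2 with u | w <;> simp
        · rw [Function.update_of_ne hk, Function.update_of_ne hk]
      have e2 : wv l r (Function.update y i (v, sgl leg)) =
          wv l r (Function.update y i (v', sgl leg)) := by
        funext j
        refine Finset.sum_congr rfl fun k _ => ?_
        congr 1
        unfold tv
        by_cases hk : k.1 = i
        · rw [hk, Function.update_self, Function.update_self]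
          simp only [hleg1, sub_self, ite_self]
        · rw [Function.update_of_ne hk, Function.update_of_ne hk]
      simp only [hfhat]
      rw [e1, e2]
    · -- gadget
      intro x
      have hgad := gadget hq hN (g (phi c c' σ (pos x))) L (hg2 _) r hr1 48 (by norm_num) hr2 hqN
        (wv l r (pos x))
      have e0 : (2 * 48 + 8 : ℝ) = 104 := by norm_num
      rw [e0] at hgad
      refine le_trans ?_ hgad
      rw [Fintype.sum_prod_type]
      refine Finset.sum_le_sum fun i _ => ?_
      by_cases hi : (x i).2.1 = leg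
      · rw [if_pos hi]
        have hpos1 : (pos x i).1 = (x i).1 := rfl
        have hpos2 : (pos x i).2 = sgl leg * ((((x i).2.2 : ℕ) : ℝ) + 1) / q := by
          simp only [pos, posx, hi]
        have e1 : phi c c' σ (Function.update (pos x) i
            ((x i).1, sgl leg * (((x i).2.2 : ℕ) : ℝ) / q)) = phi c c' σ (pos x) := by
          apply phi_update
          rw [hpos2, mul_div_assoc, mul_div_assoc, pp_leg σ leg hσ _ (by positivity),
            pp_leg σ leg hσ _ (by positivity)]
        have e2 : wv l r (Function.update (pos x) i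
            ((x i).1, sgl leg * (((x i).2.2 : ℕ) : ℝ) / q)) =
            wv l r (pos x) + (q : ℝ)⁻¹ • r (i, l (x i).1) := by
          have h3 := wv_update l r (pos x) i (sgl leg * (((x i).2.2 : ℕ) : ℝ) / q)
          rw [hpos1] at h3
          rw [h3, hpos2]
          congr 2
          rw [mul_div_assoc, mul_div_assoc, abs_mul, abs_mul, hleg1, one_mul, one_mul,
            abs_of_nonneg (by positivity), abs_of_nonneg (by positivity)]
          field_simp
          ring
        simp only [hfhat]
        rw [e1, e2, norm_sub_rev]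
        exact Finset.single_le_sum (f := fun a =>
          ‖smooth q (g (phi c c' σ (pos x))) (wv l r (pos x) + (q : ℝ)⁻¹ • r (i, a)) -
            smooth q (g (phi c c' σ (pos x))) (wv l r (pos x))‖ ^ 2)
          (fun a _ => sq_nonneg _) (Finset.mem_univ (l (x i).1))
      · rw [if_neg hi]
        exact Finset.sum_nonneg fun a _ => sq_nonneg _

end

end Pool.Agent.Lib.MP_dbb15e_gt
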