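import Mathlib

/-!
# Alternating neighbourhoods
-/

set_option autoImplicit false

namespace Pool.Agent.Lib.MP_dbb15e_gt

open Finset

section

variable {V U W : Type*} [Fintype V] (cA : V → U) (cB : V → W)

open Classical in
/-- saturation of a finite set with respect to a map -/
noncomputable def satur {κ : Type*} (c : V → κ) (s : Finset V) : Finset V :=
  univ.filter (fun v => ∃ v' ∈ s, c v = c v')

lemma mem_satur {κ : Type*} (c : V → κ) (s : Finset V) (v : V) :
    v ∈ satur c s ↔ ∃ v' ∈ s, c v = c v' := by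
  simp [satur]

lemma subset_satur {κ : Type*} (c : V → κ) (s : Finset V) : s ⊆ satur c s := by
  intro v hv
  rw [mem_satur]
  exact ⟨v, hv, rfl⟩

lemma satur_inv {κ : Type*} (c : V → κ) (s : Finset V) (v v' : V) (h : c v = c v') :
    v ∈ satur c s ↔ v' ∈ satur c s := by
  rw [mem_satur, mem_satur, h]

lemma card_satur {κ : Type*} (c : V → κ) (b : ℕ)
    (hb : ∀ (v : V) (t : Finset V), (∀ v' ∈ t, c v' = c v) → t.card ≤ b) (s : Finset V) :
    (satur c s).card ≤ b * s.card := by
  classical
  have h1 : satur c s ⊆ s.biUnion (fun v => univ.filter (fun v' => c v' = c v)) := by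
    intro v hv
    rw [mem_satur] at hv
    obtain ⟨v', hv', h⟩ := hv
    rw [Finset.mem_biUnion]
    exact ⟨v', hv', by simp [h]⟩
  refine (Finset.card_le_card h1).trans ?_
  refine Finset.card_biUnion_le.trans ?_
  refine (Finset.sum_le_sum (fun v _ => hb v _ (fun v' hv' => (Finset.mem_filter.1 hv').2))).trans ?_
  simp [mul_comm]

/-- Iterated neighbourhoods of a point, saturated for `cB`. -/
noncomputable def Rset (y : V) : ℕ → Finset V
  | 0 => satur cB {y}
  | n + 1 => satur cB (satur cA (Rset y n))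

lemma Rset_inv (y : V) (n : ℕ) (v v' : V) (h : cB v = cB v') :
    v ∈ Rset cA cB y n ↔ v' ∈ Rset cA cB y n := by
  cases n with
  | zero => exact satur_inv cB _ v v' h
  | succ n => exact satur_inv cB _ v v' h

lemma mem_Rset (y : V) (n : ℕ) : y ∈ Rset cA cB y n := by
  induction n with
  | zero => exact subset_satur cB _ (by simp)
  | succ n ih => exact subset_satur cB _ (subset_satur cA _ ih)

lemma card_Rset (b : ℕ) (hA : ∀ (v : V) (t : Finset V), (∀ v' ∈ t, cA v' = cA v) → t.card ≤ b)
    (hB : ∀ (v : V) (t : Finset V), (∀ v' ∈ t, cB v' = cB v) → t.card ≤ b) (y : V) (n : ℕ) :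
    (Rset cA cB y n).card ≤ b ^ (2 * n + 1) := by
  induction n with
  | zero =>
    have := card_satur cB b hB {y}
    simpa [Rset] using this
  | succ n ih =>
    have h1 := card_satur cB b hB (satur cA (Rset cA cB y n))
    have h2 := card_satur cA b hA (Rset cA cB y n)
    calc (Rset cA cB y (n + 1)).card ≤ b * (satur cA (Rset cA cB y n)).card := h1
      _ ≤ b * (b * (Rset cA cB y n).card) := by gcongr
      _ ≤ b * (b * b ^ (2 * n + 1)) := by gcongr
      _ = b ^ (2 * (n + 1) + 1) := by ring

open Classical in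
/-- the potential, constant on the classes of `cB` -/
noncomputable def psiB (K : ℕ) (y v : V) : ℝ :=
  ∑ n ∈ range K, if v ∈ Rset cA cB y n then 0 else 1

open Classical in
/-- the potential, constant on the classes of `cA` -/
noncomputable def psiA (K : ℕ) (y v : V) : ℝ :=
  ∑ n ∈ range K, if v ∈ satur cA (Rset cA cB y n) then 0 else 1

lemma psiB_nonneg (K : ℕ) (y v : V) : 0 ≤ psiB cA cB K y v :=
  Finset.sum_nonneg fun n _ => by split_ifs <;> norm_num

lemma psiA_nonneg (K : ℕ) (y v : V) : 0 ≤ psiA cA cB K y v :=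
  Finset.sum_nonneg fun n _ => by split_ifs <;> norm_num

lemma psiB_le (K : ℕ) (y v : V) : psiB cA cB K y v ≤ K := by
  have : psiB cA cB K y v ≤ ∑ n ∈ range K, (1 : ℝ) :=
    Finset.sum_le_sum fun n _ => by split_ifs <;> norm_num
  simpa using this

lemma psiA_le (K : ℕ) (y v : V) : psiA cA cB K y v ≤ K := by
  have : psiA cA cB K y v ≤ ∑ n ∈ range K, (1 : ℝ) :=
    Finset.sum_le_sum fun n _ => by split_ifs <;> norm_num
  simpa using this

lemma psiB_inv (K : ℕ) (y v v' : V) (h : cB v = cB v') :
    psiB cA cB K y v = psiB cA cB K y v' := by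
  refine Finset.sum_congr rfl fun n _ => ?_
  have := Rset_inv cA cB y n v v' h
  by_cases h1 : v ∈ Rset cA cB y n
  · rw [if_pos h1, if_pos (this.1 h1)]
  · rw [if_neg h1, if_neg (fun h2 => h1 (this.2 h2))]

lemma psiA_inv (K : ℕ) (y v v' : V) (h : cA v = cA v') :
    psiA cA cB K y v = psiA cA cB K y v' := by
  refine Finset.sum_congr rfl fun n _ => ?_
  have := satur_inv cA (Rset cA cB y n) v v' h
  by_cases h1 : v ∈ satur cA (Rset cA cB y n)
  · rw [if_pos h1, if_pos (this.1 h1)]
  · rw [if_neg h1, if_neg (fun h2 => h1 (this.2 h2))]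

lemma psiA_le_psiB (K : ℕ) (y v : V) : psiA cA cB K y v ≤ psiB cA cB K y v := by
  refine Finset.sum_le_sum fun n _ => ?_
  by_cases h : v ∈ Rset cA cB y n
  · have := subset_satur cA _ h
    simp [h, this]
  · simp only [h, if_false]
    split_ifs <;> norm_num

lemma psiB_le_psiA (K : ℕ) (y v : V) : psiB cA cB K y v ≤ psiA cA cB K y v + 1 := by
  classical
  have h1 : psiB cA cB K y v ≤ psiB cA cB (K + 1) y v := by
    unfold psiB
    rw [Finset.sum_range_succ]
    have : (0 : ℝ) ≤ if v ∈ Rset cA cB y K then 0 else 1 := by split_ifs <;> norm_num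
    simp only [le_add_iff_nonneg_right]
    split_ifs <;> norm_num
  refine h1.trans ?_
  unfold psiB psiA
  rw [Finset.sum_range_succ']
  have h2 : (if v ∈ Rset cA cB y 0 then (0 : ℝ) else 1) ≤ 1 := by split_ifs <;> norm_num
  have h3 : ∑ n ∈ range K, (if v ∈ Rset cA cB y (n + 1) then (0 : ℝ) else 1)
      ≤ ∑ n ∈ range K, (if v ∈ satur cA (Rset cA cB y n) then (0 : ℝ) else 1) := by
    refine Finset.sum_le_sum fun n _ => ?_
    by_cases h : v ∈ satur cA (Rset cA cB y n)
    · have : v ∈ Rset cA cB y (n + 1) := subset_satur cB _ h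
      simp [h, this]
    · simp only [h, if_false]
      split_ifs <;> norm_num
  linarith

lemma psiB_self (K : ℕ) (y : V) : psiB cA cB K y y = 0 := by
  refine Finset.sum_eq_zero fun n _ => ?_
  rw [if_pos (mem_Rset cA cB y n)]

lemma psiA_self (K : ℕ) (y : V) : psiA cA cB K y y = 0 := by
  refine Finset.sum_eq_zero fun n _ => ?_
  rw [if_pos (subset_satur cA _ (mem_Rset cA cB y n))]

lemma Rset_mono (y : V) {m n : ℕ} (h : m ≤ n) : Rset cA cB y m ⊆ Rset cA cB y n := by
  induction n, h using Nat.le_induction with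
  | base => exact subset_rfl
  | succ n _ ih =>
    refine ih.trans ?_
    exact (subset_satur cA _).trans (subset_satur cB _)

lemma psiA_far (K : ℕ) (y v : V) (h : v ∉ Rset cA cB y K) : psiA cA cB K y v = K := by
  classical
  unfold psiA
  have : ∀ n ∈ range K, (if v ∈ satur cA (Rset cA cB y n) then (0 : ℝ) else 1) = 1 := by
    intro n hn
    rw [if_neg]
    intro h2
    apply h
    have h3 : v ∈ Rset cA cB y (n + 1) := subset_satur cB _ h2
    exact Rset_mono cA cB y (by simpa using hn) h3
  rw [Finset.sum_congr rfl this]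
  simp

end

end Pool.Agent.Lib.MP_dbb15e_gt
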