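import Mathlib
import Pool.Agent.Lib.MP_dbb15e_gt.Reach
import Pool.Agent.Lib.MP_dbb15e_gt.Common
import Pool.Agent.Lib.MP_dbb15e_gt.Mixing

/-!
# Typical distances
-/

set_option autoImplicit false

namespace Pool.Agent.Lib.MP_dbb15e_gt

open Finset

section

variable {ι V U W Λ : Type*} [Fintype ι] [DecidableEq ι] [Fintype V] [Fintype U] [Fintype W]
  [Fintype Λ] {N q : ℕ}

omit [Fintype U] [Fintype W] in
lemma far_one (cA : V → U) (cB : V → W) (K : ℕ) (y : V)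
    (h : 2 * (Rset cA cB y K).card ≤ Fintype.card V) :
    (K : ℝ) ^ 2 / 2 * Fintype.card (Om V q) ≤ ∑ ω : Om V q, psiA cA cB K y ω.1 ^ 2 := by
  classical
  rw [Fintype.sum_prod_type]
  simp only [Finset.sum_const, Finset.card_univ, nsmul_eq_mul, ← Finset.mul_sum]
  have h1 : ((Fintype.card V : ℝ) / 2) * (K : ℝ) ^ 2 ≤ ∑ v, psiA cA cB K y v ^ 2 := by
    have h2 : ∑ v ∈ (univ \ Rset cA cB y K), psiA cA cB K y v ^ 2 ≤ ∑ v, psiA cA cB K y v ^ 2 :=
      Finset.sum_le_sum_of_subset_of_nonneg (Finset.subset_univ _) (fun _ _ _ => sq_nonneg _)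
    refine le_trans ?_ h2
    have h3 : ∑ v ∈ (univ \ Rset cA cB y K), psiA cA cB K y v ^ 2 =
        ∑ v ∈ (univ \ Rset cA cB y K), (K : ℝ) ^ 2 := by
      refine Finset.sum_congr rfl fun v hv => ?_
      rw [psiA_far cA cB K y v (Finset.mem_sdiff.1 hv).2]
    rw [h3, Finset.sum_const, nsmul_eq_mul]
    gcongr
    have h4 : (univ \ Rset cA cB y K).card = Fintype.card V - (Rset cA cB y K).card := by
      rw [Finset.card_sdiff_of_subset (Finset.subset_univ _), Finset.card_univ]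
    have h5 : (Rset cA cB y K).card ≤ Fintype.card V := by omega
    rw [h4, Nat.cast_sub h5]
    have h6 : (2 : ℝ) * (Rset cA cB y K).card ≤ Fintype.card V := by exact_mod_cast h
    linarith
  have h7 : (Fintype.card (Om V q) : ℝ) = Fintype.card V * Fintype.card (Fin 3 × Fin q) := by
    simp [Fintype.card_prod]
  rw [h7]
  have h8 : (0 : ℝ) ≤ Fintype.card (Fin 3 × Fin q) := by positivity
  nlinarith

omit [Fintype U] [Fintype W] in
lemma far_all (cA : V → U) (cB : V → W) (K : ℕ) (y : ι → V)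
    (h : ∀ y, 2 * (Rset cA cB y K).card ≤ Fintype.card V) :
    (K : ℝ) ^ 2 / 2 * Fintype.card ι * Fintype.card (ι → Om V q) ≤
      ∑ x : ι → Om V q, ∑ i, psiA cA cB K (y i) (x i).1 ^ 2 := by
  classical
  rw [Finset.sum_comm]
  have h1 : ∀ i, (K : ℝ) ^ 2 / 2 * Fintype.card (ι → Om V q) ≤
      ∑ x : ι → Om V q, psiA cA cB K (y i) (x i).1 ^ 2 := by
    intro i
    have h2 := fiber_le (Ω := Om V q) i (fun _ => (K : ℝ) ^ 2 / 2)
      (fun x => psiA cA cB K (y i) (x i).1 ^ 2) (fun x => by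
        simp only [Function.update_self]
        have := far_one (q := q) cA cB K (y i) (h (y i))
        refine le_trans (le_of_eq ?_) this
        rw [Finset.sum_const, Finset.card_univ, nsmul_eq_mul]
        ring)
    refine le_trans (le_of_eq ?_) h2
    rw [Finset.sum_const, Finset.card_univ, nsmul_eq_mul]
    ring
  have h3 := Finset.sum_le_sum (fun i (_ : i ∈ (univ : Finset ι)) => h1 i)
  refine le_trans (le_of_eq ?_) h3
  rw [Finset.sum_const, Finset.card_univ, nsmul_eq_mul]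
  ring

/-- The potential of a point of the product. -/
noncomputable def pot (cA : V → U) (cB : V → W) (K : ℕ) (y : ι → V) (x : ι → V × ℝ) :
    EuclideanSpace ℝ ι :=
  WithLp.toLp 2 fun i => (1 - pp (-1) (x i).2) * psiB cA cB K (y i) (x i).1 +
    pp (-1) (x i).2 * psiA cA cB K (y i) (x i).1

lemma pot_lipB (hN : 0 < N) (cA : V → U) (cB : V → W) (lB : V → Λ) (K : ℕ)
    (r : ι × Λ → Fin N → ℝ) (hr : GoodMat r) (θ' : ℝ) (hθ' : 0 ≤ θ') (y : ι → V)
    (x x' : ι → V × ℝ) (hx : ∀ i, |(x i).2| ≤ 1) (hx' : ∀ i, |(x' i).2| ≤ 1) :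
    ‖pot cA cB K y x - pot cA cB K y x'‖ ≤
      100 * dS K θ' (iS cB cA lB (-1) r x) (iS cB cA lB (-1) r x') := by
  obtain ⟨l1, _⟩ := dS_lower hN cB cA lB (-1) r hr K θ' (Nat.cast_nonneg K) hθ' x x'
  have h1 : ‖pot cA cB K y x - pot cA cB K y x'‖ ^ 2 ≤
      2 * (K : ℝ) ^ 2 * ‖phi cB cA (-1) x - phi cB cA (-1) x'‖ ^ 2 := by
    rw [phi_dist, EuclideanSpace.norm_sq_eq, Finset.mul_sum]
    refine Finset.sum_le_sum fun i _ => ?_
    have e1 := pp_add 1 (x i).2 (Or.inl rfl)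
    have e2 := pp_add 1 (x' i).2 (Or.inl rfl)
    have e3 := pp_nonneg 1 (x i).2
    have e4 := pp_nonneg 1 (x' i).2
    have e5 := hx i
    have e6 := hx' i
    have h := psi_lipB (cA (x i).1 = cA (x' i).1) (cB (x i).1 = cB (x' i).1) K
      (psiB cA cB K (y i) (x i).1) (psiB cA cB K (y i) (x' i).1)
      (psiA cA cB K (y i) (x i).1) (psiA cA cB K (y i) (x' i).1)
      (pp (-1) (x i).2) (pp (-1) (x' i).2) (pp_nonneg _ _) (pp_nonneg _ _)
      (by linarith) (by linarith) (psiB_nonneg _ _ _ _ _) (psiB_nonneg _ _ _ _ _)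
      (psiA_nonneg _ _ _ _ _) (psiA_nonneg _ _ _ _ _) (psiB_le _ _ _ _ _) (psiB_le _ _ _ _ _)
      (psiA_le _ _ _ _ _) (psiA_le _ _ _ _ _) (psiB_inv _ _ _ _ _ _) (psiA_inv _ _ _ _ _ _)
    refine le_trans (le_of_eq ?_) h
    rw [Real.norm_eq_abs, sq_abs]
    rfl
  have hd0 : 0 ≤ dS K θ' (iS cB cA lB (-1) r x) (iS cB cA lB (-1) r x') :=
    le_trans (by positivity) l1
  apply le_of_sq_le_sq _ (by positivity)
  have h2 := pow_le_pow_left₀ (by positivity) l1 2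
  rw [mul_pow] at h2
  nlinarith

lemma pot_lipA (hN : 0 < N) (cA : V → U) (cB : V → W) (lA : V → Λ) (K : ℕ) (hK : 1 ≤ K)
    (hA : ∀ v v', cA v = cA v' → lA v = lA v' → v = v')
    (r : ι × Λ → Fin N → ℝ) (hr : GoodMat r) (y : ι → V)
    (x x' : ι → V × ℝ) (hx : ∀ i, |(x i).2| ≤ 1) (hx' : ∀ i, |(x' i).2| ≤ 1) :
    ‖pot cA cB K y x - pot cA cB K y x'‖ ≤
      100 * dS K (Real.sqrt N) (iS cA cB lA 1 r x) (iS cA cB lA 1 r x') := by
  have hN0 : (0 : ℝ) < N := by exact_mod_cast hN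
  have hs : 0 < Real.sqrt N := Real.sqrt_pos.2 hN0
  have hK1 : (1 : ℝ) ≤ K := by exact_mod_cast hK
  obtain ⟨l1, l2⟩ := dS_lower hN cA cB lA 1 r hr K (Real.sqrt N) (Nat.cast_nonneg K) hs.le x x'
  have h1 : ‖pot cA cB K y x - pot cA cB K y x'‖ ^ 2 ≤
      6 * ((K : ℝ) ^ 2 * ‖phi cA cB 1 x - phi cA cB 1 x'‖ ^ 2 +
        ∑ k, (tv lA x k - tv lA x' k) ^ 2) := by
    rw [phi_dist, tv_dist, EuclideanSpace.norm_sq_eq, Finset.mul_sum, ← Finset.sum_add_distrib,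
      Finset.mul_sum]
    refine Finset.sum_le_sum fun i _ => ?_
    have e1 := pp_add 1 (x i).2 (Or.inl rfl)
    have e2 := pp_add 1 (x' i).2 (Or.inl rfl)
    have e3 := pp_nonneg 1 (x i).2
    have e4 := pp_nonneg 1 (x' i).2
    have e5 := hx i
    have e6 := hx' i
    have h := psi_lipA (cA (x i).1 = cA (x' i).1) (cB (x i).1 = cB (x' i).1)
      (lA (x i).1 = lA (x' i).1) K
      (psiB cA cB K (y i) (x i).1) (psiB cA cB K (y i) (x' i).1)
      (psiA cA cB K (y i) (x i).1) (psiA cA cB K (y i) (x' i).1)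
      (pp 1 (x i).2) (pp 1 (x' i).2)
      (pp (-1) (x i).2) (pp (-1) (x' i).2) (pp_nonneg _ _) (pp_nonneg _ _)
      (pp_nonneg _ _) (pp_nonneg _ _)
      (by linarith) (by linarith) (psiB_nonneg _ _ _ _ _) (psiB_nonneg _ _ _ _ _)
      (psiA_nonneg _ _ _ _ _) (psiA_nonneg _ _ _ _ _) (psiB_le _ _ _ _ _) (psiB_le _ _ _ _ _)
      (psiA_le _ _ _ _ _) (psiA_le _ _ _ _ _) hK1
      (psiA_le_psiB _ _ _ _ _) (psiB_le_psiA _ _ _ _ _)
      (psiA_le_psiB _ _ _ _ _) (psiB_le_psiA _ _ _ _ _)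
      (psiB_inv _ _ _ _ _ _) (psiA_inv _ _ _ _ _ _)
      (fun h1 h2 => by rw [hA _ _ h1 h2])
    have e7 : 1 - pp 1 (x i).2 - pp (-1) (x i).2 = 1 - |(x i).2| := by rw [← e1]; ring
    have e8 : 1 - pp 1 (x' i).2 - pp (-1) (x' i).2 = 1 - |(x' i).2| := by rw [← e2]; ring
    rw [e7, e8] at h
    refine le_trans (le_of_eq ?_) h
    rw [Real.norm_eq_abs, sq_abs]
    rfl
  have hd0 : 0 ≤ dS K (Real.sqrt N) (iS cA cB lA 1 r x) (iS cA cB lA 1 r x') :=
    le_trans (by positivity) l1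
  apply le_of_sq_le_sq _ (by positivity)
  have h2 := pow_le_pow_left₀ (by positivity) l1 2
  have h3 := pow_le_pow_left₀ (by positivity) l2 2
  have hs2 : 0 ≤ ∑ k, (tv lA x k - tv lA x' k) ^ 2 := Finset.sum_nonneg fun k _ => sq_nonneg _
  have e9 : Real.sqrt N / (40 * Real.sqrt N) = 1 / 40 := by field_simp
  rw [mul_pow] at h2
  rw [e9, mul_pow, Real.sq_sqrt hs2] at h3
  nlinarith

omit [Fintype U] [Fintype W] in
lemma pot_self (cA : V → U) (cB : V → W) (K : ℕ) (x : ι → V × ℝ) :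
    pot cA cB K (fun i => (x i).1) x = 0 := by
  apply PiLp.ext
  intro i
  simp [pot, psiA_self, psiB_self]

omit [Fintype U] [Fintype W] in
lemma pot_ge (cA : V → U) (cB : V → W) (K : ℕ) (y : ι → V) (x : ι → V × ℝ)
    (hx : ∀ i, |(x i).2| ≤ 1) :
    ∑ i, psiA cA cB K (y i) (x i).1 ^ 2 ≤ ‖pot cA cB K y x‖ ^ 2 := by
  rw [EuclideanSpace.norm_sq_eq]
  refine Finset.sum_le_sum fun i _ => ?_
  rw [Real.norm_eq_abs, sq_abs]
  apply pow_le_pow_left₀ (psiA_nonneg _ _ _ _ _)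
  have e1 := pp_add 1 (x i).2 (Or.inl rfl)
  have e3 := pp_nonneg 1 (x i).2
  have e5 := hx i
  have e6 := psiA_le_psiB cA cB K (y i) (x i).1
  have e7 : (0 : ℝ) ≤ 1 - pp (-1) (x i).2 := by linarith
  change _ ≤ (1 - pp (-1) (x i).2) * psiB cA cB K (y i) (x i).1 +
    pp (-1) (x i).2 * psiA cA cB K (y i) (x i).1
  nlinarith

end

end Pool.Agent.Lib.MP_dbb15e_gt
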