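import Mathlib
import Pool.Agent.Lib.MP_dbb15e_gt.Mix2

/-!
# The variance bound
-/

set_option autoImplicit false

namespace Pool.Agent.Lib.MP_dbb15e_gt

open Finset

section

variable {ι V : Type*} [Fintype ι] [DecidableEq ι] [Fintype V] {q : ℕ}
  {H : Type*} [NormedAddCommGroup H] [InnerProductSpace ℝ H]

lemma Pside_const {κ : Type*} (c : V → κ) (forb : Fin 3) (i : ι) (μ : H) :
    Pside (ι := ι) (q := q) c forb i (WithLp.toLp 2 (fun _ => μ)) = WithLp.toLp 2 (fun _ => μ) := by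
  classical
  apply PiLp.ext
  intro x
  simp only [Pside, site_apply]
  rw [← Finset.sum_smul, avk_sum, one_smul]

lemma Pall_const {κ : Type*} (c : V → κ) (forb : Fin 3) (μ : H) :
    Pall (ι := ι) (q := q) c forb (WithLp.toLp 2 (fun _ => μ)) = WithLp.toLp 2 (fun _ => μ) := by
  classical
  unfold Pall
  generalize (univ : Finset ι).toList = l
  induction l with
  | nil => simp
  | cons j l ih =>
    simp only [List.map_cons, List.prod_cons, Module.End.mul_apply]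
    rw [ih, Pside_const]

lemma Pall_norm_le {κ : Type*} (c : V → κ) (forb : Fin 3) (f : LS ι (Om V q) H) :
    ‖Pall c forb f‖ ≤ ‖f‖ := by
  classical
  unfold Pall
  generalize (univ : Finset ι).toList = l
  induction l with
  | nil => simp
  | cons j l ih =>
    simp only [List.map_cons, List.prod_cons, Module.End.mul_apply]
    exact ((Pside_proj c forb j).norm_le _).trans ih

theorem variance_bound {U W : Type*} (cA : V → U) (cB : V → W) (hq : 0 < q)
    (hexp : ∀ α β : V → ℝ, (∀ v v', cA v = cA v' → α v = α v') →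
      (∀ v v', cB v = cB v' → β v = β v') → ∑ v, α v = 0 →
      2 * ∑ v, α v * β v ≤ (1 / 3) * (∑ v, (α v) ^ 2 + ∑ v, (β v) ^ 2))
    (gA gB : (ι → Om V q) → H) (fA fB : LS ι (Om V q) H) (L : ℝ) (hL : 0 ≤ L)
    (h1 : ∀ x, ‖fA x - gA x‖ ≤ L) (h2 : ∀ x, ‖fB x - gB x‖ ≤ L) (h3 : ∀ x, ‖gA x - gB x‖ ≤ L)
    (h4 : ‖fA - Pall cA 2 fA‖ ^ 2 ≤ 208 * L ^ 2 * Fintype.card (ι → Om V q))
    (h5 : ‖fB - Pall cB 1 fB‖ ^ 2 ≤ 208 * L ^ 2 * Fintype.card (ι → Om V q)) :
    ∑ x, ∑ x', ‖gA x - gA x'‖ ^ 2 ≤ 1600000 * L ^ 2 * (Fintype.card (ι → Om V q) : ℝ) ^ 2 := by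
  classical
  rcases isEmpty_or_nonempty (ι → Om V q) with he | hne
  · simp
  set n : ℝ := (Fintype.card (ι → Om V q) : ℝ) with hn
  have hn0 : 0 < n := by rw [hn]; exact_mod_cast Fintype.card_pos
  set s : ℝ := Real.sqrt n with hs
  have hs0 : 0 < s := Real.sqrt_pos.2 hn0
  have hss : s ^ 2 = n := Real.sq_sqrt hn0.le
  set μ : H := n⁻¹ • ∑ x, fA x with hμ
  set cμ : LS ι (Om V q) H := WithLp.toLp 2 (fun _ => μ) with hcμ
  set f0 : LS ι (Om V q) H := fA - cμ with hf0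
  have hsum0 : ∑ x, f0 x = 0 := by
    have : ∀ x, f0 x = fA x - μ := fun x => rfl
    rw [Finset.sum_congr rfl (fun x _ => this x), Finset.sum_sub_distrib, Finset.sum_const,
      Finset.card_univ, ← Nat.cast_smul_eq_nsmul ℝ, ← hn, hμ, smul_smul,
      mul_inv_cancel₀ hn0.ne', one_smul, sub_self]
  have hmix := mixing cA cB hq hexp f0 hsum0
  have hA : ‖f0 - Pall cA 2 f0‖ ≤ 15 * L * s := by
    have e : f0 - Pall cA 2 f0 = fA - Pall cA 2 fA := by
      rw [hf0, map_sub, hcμ, Pall_const]; abel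
    rw [e]
    apply le_of_sq_le_sq _ (by positivity)
    calc ‖fA - Pall cA 2 fA‖ ^ 2 ≤ 208 * L ^ 2 * n := h4
      _ ≤ (15 * L * s) ^ 2 := by
        rw [mul_pow, hss]
        have : 0 ≤ L ^ 2 * n := by positivity
        nlinarith
  have hAB : ‖fA - fB‖ ≤ 3 * L * s := by
    apply le_of_sq_le_sq _ (by positivity)
    rw [PiLp.norm_sq_eq_of_L2]
    have : ∀ x, ‖(fA - fB) x‖ ^ 2 ≤ (3 * L) ^ 2 := by
      intro x
      apply pow_le_pow_left₀ (norm_nonneg _)
      have e : (fA - fB) x = (fA x - gA x) + (gA x - gB x) + (gB x - fB x) := by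
        rw [PiLp.sub_apply]; abel
      rw [e]
      refine (norm_add₃_le).trans ?_
      have h2' := h2 x
      rw [norm_sub_rev] at h2'
      have := h1 x
      have := h3 x
      linarith
    refine (Finset.sum_le_sum (fun x _ => this x)).trans ?_
    rw [Finset.sum_const, Finset.card_univ, nsmul_eq_mul, ← hn, mul_pow (3 * L) s, hss]
    linarith
  have hB : ‖f0 - Pall cB 1 f0‖ ≤ 21 * L * s := by
    have e : f0 - Pall cB 1 f0 = (fB - Pall cB 1 fB) + (fA - fB) - Pall cB 1 (fA - fB) := by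
      rw [hf0, map_sub, hcμ, Pall_const, map_sub]; abel
    rw [e]
    have e1 : ‖fB - Pall cB 1 fB‖ ≤ 15 * L * s := by
      apply le_of_sq_le_sq _ (by positivity)
      calc ‖fB - Pall cB 1 fB‖ ^ 2 ≤ 208 * L ^ 2 * n := h5
        _ ≤ (15 * L * s) ^ 2 := by
          rw [mul_pow, hss]
          have : 0 ≤ L ^ 2 * n := by positivity
          nlinarith
    have e2 := Pall_norm_le cB 1 (fA - fB)
    have e3 := norm_sub_le ((fB - Pall cB 1 fB) + (fA - fB)) (Pall cB 1 (fA - fB))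
    have e4 := norm_add_le (fB - Pall cB 1 fB) (fA - fB)
    linarith
  have hf0n : ‖f0‖ ^ 2 ≤ 190000 * L ^ 2 * n := by
    have e1 : ‖f0‖ ≤ 432 * (L * s) := by nlinarith
    have e2 := pow_le_pow_left₀ (norm_nonneg _) e1 2
    have e3 : (432 * (L * s)) ^ 2 = 186624 * (L ^ 2 * n) := by
      rw [mul_pow, mul_pow, hss]; ring
    have : 0 ≤ L ^ 2 * n := by positivity
    nlinarith
  have hpt : ∀ x x', ‖gA x - gA x'‖ ^ 2 ≤ 4 * ‖f0 x‖ ^ 2 + 4 * ‖f0 x'‖ ^ 2 + 8 * L ^ 2 := by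
    intro x x'
    have e : gA x - gA x' = (f0 x - f0 x') + ((gA x - fA x) + (fA x' - gA x')) := by
      have e1 : f0 x = fA x - μ := rfl
      have e2 : f0 x' = fA x' - μ := rfl
      rw [e1, e2]; abel
    have e1 : ‖gA x - gA x'‖ ≤ ‖f0 x‖ + ‖f0 x'‖ + 2 * L := by
      rw [e]
      have t1 := norm_add_le (f0 x - f0 x') ((gA x - fA x) + (fA x' - gA x'))
      have t2 := norm_sub_le (f0 x) (f0 x')
      have t3 := norm_add_le (gA x - fA x) (fA x' - gA x')
      have t4 := h1 x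
      rw [norm_sub_rev] at t4
      have t5 := h1 x'
      linarith
    have e2 := pow_le_pow_left₀ (norm_nonneg _) e1 2
    nlinarith [sq_nonneg (‖f0 x‖ - ‖f0 x'‖), sq_nonneg (‖f0 x‖ + ‖f0 x'‖ - 2 * L)]
  have hf0s : ∑ x, ‖f0 x‖ ^ 2 = ‖f0‖ ^ 2 := (PiLp.norm_sq_eq_of_L2 _ _).symm
  calc ∑ x, ∑ x', ‖gA x - gA x'‖ ^ 2
      ≤ ∑ x, ∑ x', (4 * ‖f0 x‖ ^ 2 + 4 * ‖f0 x'‖ ^ 2 + 8 * L ^ 2) :=
        Finset.sum_le_sum fun x _ => Finset.sum_le_sum fun x' _ => hpt x x'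
    _ = 8 * n * ‖f0‖ ^ 2 + 8 * L ^ 2 * n ^ 2 := by
        simp only [Finset.sum_add_distrib, ← Finset.mul_sum, Finset.sum_const, Finset.card_univ,
          nsmul_eq_mul, hf0s]
        rw [← hn]
        ring
    _ ≤ 1600000 * L ^ 2 * n ^ 2 := by
        have : 8 * n * ‖f0‖ ^ 2 ≤ 8 * n * (190000 * L ^ 2 * n) := by gcongr
        have h0 : 0 ≤ L ^ 2 * n ^ 2 := by positivity
        nlinarith

end

end Pool.Agent.Lib.MP_dbb15e_gt
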