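import Mathlib
import Pool.Agent.Lib.MP_dbb15e_gt.Typical
import Pool.Agent.Lib.MP_dbb15e_gt.Concrete
import Pool.Agent.Lib.MP_dbb15e_gt.Variance
import Pool.Agent.Lib.MP_dbb15e_gt.Poin
import Pool.Agent.Lib.MP_dbb15e_gt.Kashin

/-!
# The main construction
-/

set_option autoImplicit false

namespace Pool.Agent.Lib.MP_dbb15e_gt

open Finset

/-- The metric space structure of a metric. -/
@[reducible] noncomputable def IsMet.space {E : Type*} {d : E → E → ℝ} (h : IsMet d) :
    MetricSpace E where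
  dist := d
  dist_self := h.self
  dist_comm := h.symm
  dist_triangle := h.tri
  eq_of_dist_eq_zero := fun {x y} => h.pos x y

section lower

variable {EA EB S : Type*} {dA : EA → EA → ℝ} {dB : EB → EB → ℝ} {iA : S → EA} {iB : S → EB}
  {E : Type*} [NormedAddCommGroup E] [InnerProductSpace ℝ E]

lemma vec_le_gdist_left (s0 : S) (hB : IsMet dB) (hA : IsMet dA) (F : EA → E) (C : ℝ) (hC : 0 < C)
    (h1 : ∀ a a', ‖F a - F a'‖ ≤ C * dA a a')
    (h2 : ∀ s s', ‖F (iA s) - F (iA s')‖ ≤ C * dB (iB s) (iB s')) (a a' : EA) :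
    ‖F a - F a'‖ ≤ C * gdist dA dB iA iB (Sum.inl a) (Sum.inl a') := by
  rcases eq_or_ne (F a - F a') 0 with h0 | h0
  · rw [h0, norm_zero]
    have := le_gdist_left (iA := iA) (iB := iB) (dA := dA) s0 hB (fun _ => 0)
      (fun a a' => by simpa using hA.nonneg a a') (fun s s' => by simpa using hB.nonneg _ _) a a'
    simp only [sub_self, abs_zero] at this
    positivity
  · set e : E := ‖F a - F a'‖⁻¹ • (F a - F a') with he
    have hn : ‖F a - F a'‖ ≠ 0 := norm_ne_zero_iff.2 h0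
    have he1 : ‖e‖ = 1 := by rw [he, norm_smul, norm_inv, norm_norm, inv_mul_cancel₀ hn]
    have hbase : ∀ z z', |inner ℝ e (F z) / C - inner ℝ e (F z') / C| ≤ ‖F z - F z'‖ / C := by
      intro z z'
      rw [← sub_div, ← inner_sub_right, abs_div, abs_of_pos hC]
      gcongr
      have := abs_real_inner_le_norm e (F z - F z')
      rwa [he1, one_mul] at this
    have key := le_gdist_left (iA := iA) (iB := iB) (dA := dA) (dB := dB) s0 hB
      (fun z => inner ℝ e (F z) / C)
      (fun z z' => (hbase z z').trans (by rw [div_le_iff₀ hC, mul_comm]; exact h1 z z'))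
      (fun s s' => (hbase _ _).trans (by rw [div_le_iff₀ hC, mul_comm]; exact h2 s s')) a a'
    rw [← sub_div, ← inner_sub_right, abs_div, abs_of_pos hC, div_le_iff₀ hC, mul_comm] at key
    refine le_trans ?_ key
    rw [he, real_inner_smul_left, real_inner_self_eq_norm_sq]
    refine le_trans (le_of_eq ?_) (le_abs_self _)
    field_simp

lemma vec_le_gdist_right (s0 : S) (hA : IsMet dA) (hB : IsMet dB) (F : EB → E) (C : ℝ) (hC : 0 < C)
    (h1 : ∀ b b', ‖F b - F b'‖ ≤ C * dB b b')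
    (h2 : ∀ s s', ‖F (iB s) - F (iB s')‖ ≤ C * dA (iA s) (iA s')) (b b' : EB) :
    ‖F b - F b'‖ ≤ C * gdist dA dB iA iB (Sum.inr b) (Sum.inr b') := by
  rcases eq_or_ne (F b - F b') 0 with h0 | h0
  · rw [h0, norm_zero]
    have := le_gdist_right (iA := iA) (iB := iB) (dB := dB) s0 hA (fun _ => 0)
      (fun a a' => by simpa using hB.nonneg a a') (fun s s' => by simpa using hA.nonneg _ _) b b'
    simp only [sub_self, abs_zero] at this
    positivity
  · set e : E := ‖F b - F b'‖⁻¹ • (F b - F b') with he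
    have hn : ‖F b - F b'‖ ≠ 0 := norm_ne_zero_iff.2 h0
    have he1 : ‖e‖ = 1 := by rw [he, norm_smul, norm_inv, norm_norm, inv_mul_cancel₀ hn]
    have hbase : ∀ z z', |inner ℝ e (F z) / C - inner ℝ e (F z') / C| ≤ ‖F z - F z'‖ / C := by
      intro z z'
      rw [← sub_div, ← inner_sub_right, abs_div, abs_of_pos hC]
      gcongr
      have := abs_real_inner_le_norm e (F z - F z')
      rwa [he1, one_mul] at this
    have key := le_gdist_right (iA := iA) (iB := iB) (dA := dA) (dB := dB) s0 hA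
      (fun z => inner ℝ e (F z) / C)
      (fun z z' => (hbase z z').trans (by rw [div_le_iff₀ hC, mul_comm]; exact h1 z z'))
      (fun s s' => (hbase _ _).trans (by rw [div_le_iff₀ hC, mul_comm]; exact h2 s s')) b b'
    rw [← sub_div, ← inner_sub_right, abs_div, abs_of_pos hC, div_le_iff₀ hC, mul_comm] at key
    refine le_trans ?_ key
    rw [he, real_inner_smul_left, real_inner_self_eq_norm_sq]
    refine le_trans (le_of_eq ?_) (le_abs_self _)
    field_simp

end lower

lemma class_card {V κ : Type*} (c : V → κ) (l : V → Lab)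
    (h : ∀ v v', c v = c v' → l v = l v' → v = v') (v : V) (t : Finset V)
    (ht : ∀ v' ∈ t, c v' = c v) : t.card ≤ 4913 := by
  classical
  have h1 : t.card ≤ Fintype.card Lab := by
    refine Finset.card_le_card_of_injOn (t := (univ : Finset Lab)) l (fun _ _ => by simp) ?_
    intro a ha b hb hab
    exact h a b ((ht a ha).trans (ht b hb).symm) hab
  refine h1.trans (le_of_eq ?_)
  simp [Lab, Fintype.card_prod, ZMod.card]

lemma pos_le_one {ι V : Type*} {q : ℕ} (hq : 0 < q) (x : ι → Om V q) (i : ι) :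
    |(pos x i).2| ≤ 1 := by
  have hq0 : (0 : ℝ) < q := by exact_mod_cast hq
  have h1 : (pos x i).2 = sgl (x i).2.1 * ((((x i).2.2 : ℕ) : ℝ) + 1) / q := rfl
  rw [h1, mul_div_assoc, abs_mul]
  have h2 : |sgl (x i).2.1| ≤ 1 := by
    unfold sgl
    split_ifs <;> simp
  have h3 : |((((x i).2.2 : ℕ) : ℝ) + 1) / q| ≤ 1 := by
    rw [abs_of_nonneg (by positivity), div_le_one hq0]
    exact_mod_cast (x i).2.2.2
  calc |sgl (x i).2.1| * |((((x i).2.2 : ℕ) : ℝ) + 1) / q| ≤ 1 * 1 := by gcongr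
    _ = 1 := one_mul 1

/-- **The main construction.** -/
theorem big (m K : ℕ) (hm : 1 ≤ m) (hK : 1 ≤ K) (N : ℕ) (hNm : N = 982600 * m)
    (hKN : (K : ℝ) ≤ Real.sqrt N) :
    ∃ (EA EB : Type) (d : EA ⊕ EB → EA ⊕ EB → ℝ) (_ : IsMet d)
      (a b : ℕ) (fA : EA → EuclideanSpace ℝ (Fin a)) (fB : EB → EuclideanSpace ℝ (Fin b)),
      (∀ z z', d (Sum.inl z) (Sum.inl z') ≤ Real.sqrt 2 * ‖fA z - fA z'‖ ∧
        ‖fA z - fA z'‖ ≤ 620 * Real.sqrt N * d (Sum.inl z) (Sum.inl z')) ∧
      (∀ z z', d (Sum.inr z) (Sum.inr z') ≤ Real.sqrt 2 * ‖fB z - fB z'‖ ∧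
        ‖fB z - fB z'‖ ≤ 620 * K * d (Sum.inr z) (Sum.inr z')) ∧
      ∀ (H : Type) [NormedAddCommGroup H] [InnerProductSpace ℝ H] (g : EA ⊕ EB → H) (r D : ℝ),
        0 < r → (∀ x y, r * d x y ≤ ‖g x - g y‖ ∧ ‖g x - g y‖ ≤ D * (r * d x y)) →
        Real.sqrt m * K ≤ 200000 * D := by
  classical
  obtain ⟨V, hV, U, hU, W, hW, cA, cB, lA, lB, hcard, hA, hB, hexp⟩ :=
    exists_expander (2 * 4913 ^ (2 * K + 1))
  have hNpos : 0 < N := by omega
  have hN0 : (0 : ℝ) < N := by exact_mod_cast hNpos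
  have hN1 : (1 : ℝ) ≤ N := by exact_mod_cast hNpos
  have hs0 : 0 < Real.sqrt N := Real.sqrt_pos.2 hN0
  have hs1 : 1 ≤ Real.sqrt N := Real.one_le_sqrt.2 hN1
  have hK1 : (1 : ℝ) ≤ K := by exact_mod_cast hK
  have hK0 : (0 : ℝ) < K := by linarith
  have hVne : Nonempty V := by
    rw [← Fintype.card_pos_iff]
    exact lt_of_lt_of_le (by positivity) hcard
  have hcK : Fintype.card (Fin m × Lab) = m * 4913 := by
    simp [Lab, Fintype.card_prod, ZMod.card]
  have hne : Nonempty (Fin m × Lab) := ⟨(⟨0, hm⟩, 0)⟩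
  obtain ⟨r, hr1, hrl, hru, hrt⟩ := exists_kashin (K := Fin m × Lab) (N := N)
    (by rw [hcK, hNm]; ring)
  have hr : GoodMat r := ⟨hrl, hru⟩
  set S : Type := {x : Fin m → V × ℝ // ∀ i, |(x i).2| ≤ 1} with hS
  let iA : S → EuclideanSpace ℝ (Fin m × (U ⊕ W)) × (Fin N → ℝ) := fun s => iS cA cB lA 1 r s.1
  let iB : S → EuclideanSpace ℝ (Fin m × (W ⊕ U)) × (Fin N → ℝ) := fun s => iS cB cA lB (-1) r s.1
  have hmA : IsMet (dS (E := EuclideanSpace ℝ (Fin m × (U ⊕ W))) (N := N) K (Real.sqrt N)) :=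
    dS_isMet hNpos _ _ hK0 hs0.le
  have hmB : IsMet (dS (E := EuclideanSpace ℝ (Fin m × (W ⊕ U))) (N := N) K K) :=
    dS_isMet hNpos _ _ hK0 hK0.le
  let s0 : S := ⟨fun _ => (Classical.choice hVne, 0), fun i => by simp⟩
  have hmG := gdist_isMet (iA := iA) (iB := iB) s0 hmA hmB
  let eA := LinearIsometryEquiv.piLpCongrLeft 2 ℝ ℝ (Fintype.equivFin ((Fin m × (U ⊕ W)) ⊕ Fin N))
  let eB := LinearIsometryEquiv.piLpCongrLeft 2 ℝ ℝ (Fintype.equivFin ((Fin m × (W ⊕ U)) ⊕ Fin N))
  refine ⟨_, _, gdist (dS K (Real.sqrt N)) (dS K K) iA iB, hmG, _, _,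
    fun z => eA (FS K (Real.sqrt N) z), fun z => eB (FS K K z), ?_, ?_, ?_⟩
  · intro z z'
    rw [← map_sub, LinearIsometryEquiv.norm_map]
    constructor
    · exact (gdist_inl_le hmA hmB z z').trans (FS_lower hNpos K _ hK0 hs1 z z')
    · refine vec_le_gdist_left s0 hmB hmA (FS K (Real.sqrt N)) (620 * Real.sqrt N)
        (by positivity) ?_ ?_ z z'
      · intro a a'
        have h1 := FS_upper hNpos K (Real.sqrt N) hK0 hs1 a a'
        have h2 := hmA.nonneg a a'
        have h3 : 0 ≤ Real.sqrt N * dS K (Real.sqrt N) a a' := by positivity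
        linarith
      · intro s s'
        exact FS_other hNpos cA cB lA lB 1 (Or.inl rfl) hB r hr K (Real.sqrt N) K hK1 hs1 le_rfl
          hK0.le (by ring) s.1 s'.1 s.2 s'.2
  · intro z z'
    rw [← map_sub, LinearIsometryEquiv.norm_map]
    constructor
    · exact (gdist_inr_le hmA hmB z z').trans (FS_lower hNpos K _ hK0 hK1 z z')
    · refine vec_le_gdist_right s0 hmA hmB (FS K K) (620 * K)
        (by positivity) ?_ ?_ z z'
      · intro a a'
        have h1 := FS_upper hNpos K K hK0 hK1 a a'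
        have h2 := hmB.nonneg a a'
        have h3 : 0 ≤ (K : ℝ) * dS K K a a' := by positivity
        linarith
      · intro s s'
        have := FS_other hNpos cB cA lB lA (-1) (Or.inr rfl) hA r hr K K (Real.sqrt N) hK1 hK1 hKN
          hs0.le rfl s.1 s'.1 s.2 s'.2
        rw [neg_neg] at this
        exact this
  · intro H _ _ g ρ D hρ hg
    have hq : 0 < Fintype.card (Fin m × Lab) * N := by
      rw [hcK]; positivity
    set q : ℕ := Fintype.card (Fin m × Lab) * N with hqdef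
    have hqN : (Fintype.card (Fin m × Lab) : ℝ) * N ^ 2 ≤ (q : ℝ) ^ 2 := by
      rw [hqdef]
      push_cast
      have h1 : (1 : ℝ) ≤ Fintype.card (Fin m × Lab) := by
        have : 1 ≤ Fintype.card (Fin m × Lab) := Fintype.card_pos
        exact_mod_cast this
      rw [mul_pow]
      have h2 : (Fintype.card (Fin m × Lab) : ℝ) ≤ (Fintype.card (Fin m × Lab) : ℝ) ^ 2 := by
        nlinarith
      gcongr
    set G := gdist (dS K (Real.sqrt N)) (dS K K) iA iB with hG
    -- D is at least one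
    have hD1 : 1 ≤ D := by
      have h1 := hg (Sum.inl (iA s0)) (Sum.inr (iB s0))
      have h2 : 0 < G (Sum.inl (iA s0)) (Sum.inr (iB s0)) := by
        rcases (hmG.nonneg (Sum.inl (iA s0)) (Sum.inr (iB s0))).eq_or_lt with h | h
        · exact absurd (hmG.pos _ _ h.symm) (by simp)
        · exact h
      have h3 : 0 < ρ * G (Sum.inl (iA s0)) (Sum.inr (iB s0)) := by positivity
      have h4 := h1.1.trans h1.2
      by_contra hcon
      push Not at hcon
      nlinarith
    set L : ℝ := D * ρ with hL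
    have hL0 : 0 ≤ L := by positivity
    have hLip : ∀ x y, ‖g x - g y‖ ≤ L * G x y := by
      intro x y
      refine (hg x y).2.trans (le_of_eq ?_)
      rw [hL]; ring
    -- smoothing on both sides
    obtain ⟨fA, hfA1, hfA2⟩ := side_poincare hq hNpos cA cB lA 1 1 2 (Or.inl ⟨rfl, rfl⟩)
      (by simp [sgl]) r hr1 hrt K (Real.sqrt N) L hL0 hs0.le le_rfl (fun z => g (Sum.inl z))
      (fun z z' => (hLip _ _).trans (by gcongr; exact gdist_inl_le hmA hmB z z')) hqN
    obtain ⟨fB, hfB1, hfB2⟩ := side_poincare hq hNpos cB cA lB (-1) 2 1 (Or.inr ⟨rfl, rfl⟩)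
      (by simp [sgl]) r hr1 hrt K K L hL0 hK0.le hKN (fun z => g (Sum.inr z))
      (fun z z' => (hLip _ _).trans (by gcongr; exact gdist_inr_le hmA hmB z z')) hqN
    have hclose : ∀ x : Fin m → Om V q, ‖g (Sum.inl (iS cA cB lA 1 r (pos x))) -
        g (Sum.inr (iS cB cA lB (-1) r (pos x)))‖ ≤ L := by
      intro x
      refine (hLip _ _).trans ?_
      have h1 := gdist_close (iA := iA) (iB := iB) hmA hmB ⟨pos x, pos_le_one hq x⟩
      calc L * G _ _ ≤ L * 1 := by gcongr
        _ = L := mul_one L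
    have hvar := variance_bound cA cB hq hexp
      (fun x => g (Sum.inl (iS cA cB lA 1 r (pos x))))
      (fun x => g (Sum.inr (iS cB cA lB (-1) r (pos x)))) fA fB L hL0 hfA1 hfB1 hclose hfA2 hfB2
    -- lower bound
    set n : ℝ := (Fintype.card (Fin m → Om V q) : ℝ) with hn
    have hn0 : 0 < n := by
      have : Nonempty (Om V q) := ⟨(Classical.choice hVne, 0, ⟨0, hq⟩)⟩
      rw [hn]; exact_mod_cast Fintype.card_pos
    have hR : ∀ y, 2 * (Rset cA cB y K).card ≤ Fintype.card V := by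
      intro y
      have h1 := card_Rset cA cB 4913 (class_card cA lA hA) (class_card cB lB hB) y K
      omega
    have hlow : ∀ x x' : Fin m → Om V q,
        ρ ^ 2 / 10000 * ∑ i, psiA cA cB K ((x' i).1) (x i).1 ^ 2 ≤
        ‖g (Sum.inl (iS cA cB lA 1 r (pos x))) - g (Sum.inl (iS cA cB lA 1 r (pos x')))‖ ^ 2 := by
      intro x x'
      set y : Fin m → V := fun i => (x' i).1 with hy
      have h1 := le_gdist_common (iA := iA) (iB := iB) s0 hmA hmB
        (fun s : S => ‖pot cA cB K y s.1‖ / 100)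
        (fun s s' => by
          have h2 := pot_lipA hNpos cA cB lA K hK hA r hr y s.1 s'.1 s.2 s'.2
          have h3 := abs_norm_sub_norm_le (pot cA cB K y s.1) (pot cA cB K y s'.1)
          rw [← sub_div, abs_div, abs_of_pos (by norm_num : (0:ℝ) < 100), div_le_iff₀ (by norm_num)]
          refine (h3.trans h2).trans (le_of_eq ?_)
          ring)
        (fun s s' => by
          have h2 := pot_lipB hNpos cA cB lB K r hr K hK0.le y s.1 s'.1 s.2 s'.2
          have h3 := abs_norm_sub_norm_le (pot cA cB K y s.1) (pot cA cB K y s'.1)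
          rw [← sub_div, abs_div, abs_of_pos (by norm_num : (0:ℝ) < 100), div_le_iff₀ (by norm_num)]
          refine (h3.trans h2).trans (le_of_eq ?_)
          ring)
        ⟨pos x, pos_le_one hq x⟩ ⟨pos x', pos_le_one hq x'⟩
      simp only at h1
      have h2 : pot cA cB K y (pos x') = 0 := pot_self cA cB K (pos x')
      rw [h2, norm_zero, zero_div, sub_zero, abs_of_nonneg (by positivity)] at h1
      have h3 := pot_ge cA cB K y (pos x) (pos_le_one hq x)
      have h4 := (hg (Sum.inl (iS cA cB lA 1 r (pos x)))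
        (Sum.inl (iS cA cB lA 1 r (pos x')))).1
      have h5 : ρ * (‖pot cA cB K y (pos x)‖ / 100) ≤
          ‖g (Sum.inl (iS cA cB lA 1 r (pos x))) - g (Sum.inl (iS cA cB lA 1 r (pos x')))‖ := by
        refine le_trans ?_ h4
        gcongr
      have h6 := pow_le_pow_left₀ (by positivity) h5 2
      refine le_trans ?_ h6
      rw [mul_pow, div_pow]
      have h7 : ∑ i, psiA cA cB K ((x' i).1) (x i).1 ^ 2 ≤ ‖pot cA cB K y (pos x)‖ ^ 2 := h3
      calc ρ ^ 2 / 10000 * ∑ i, psiA cA cB K ((x' i).1) (x i).1 ^ 2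
          ≤ ρ ^ 2 / 10000 * ‖pot cA cB K y (pos x)‖ ^ 2 := by gcongr
        _ = _ := by ring
    have hfar : ∀ x' : Fin m → Om V q, ρ ^ 2 / 10000 * ((K : ℝ) ^ 2 / 2 * m * n) ≤
        ∑ x : Fin m → Om V q, ‖g (Sum.inl (iS cA cB lA 1 r (pos x))) -
          g (Sum.inl (iS cA cB lA 1 r (pos x')))‖ ^ 2 := by
      intro x'
      have h1 := far_all (q := q) cA cB K (fun i : Fin m => (x' i).1) hR
      rw [Fintype.card_fin, ← hn] at h1
      refine le_trans ?_ (Finset.sum_le_sum fun x _ => hlow x x')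
      rw [← Finset.mul_sum]
      gcongr
    have htot : ρ ^ 2 / 10000 * ((K : ℝ) ^ 2 / 2 * m * n) * n ≤ 1600000 * L ^ 2 * n ^ 2 := by
      rw [Finset.sum_comm] at hvar
      refine le_trans ?_ hvar
      have h1 := Finset.sum_le_sum (fun x' (_ : x' ∈ (univ : Finset (Fin m → Om V q))) => hfar x')
      rw [Finset.sum_const, Finset.card_univ, nsmul_eq_mul, ← hn] at h1
      refine le_trans (le_of_eq ?_) h1
      ring
    have hfin : ((K : ℝ) ^ 2 * m) ≤ (200000 * D) ^ 2 := by
      have h1 : (ρ ^ 2 * n ^ 2) * ((K : ℝ) ^ 2 * m) ≤ (ρ ^ 2 * n ^ 2) * (200000 * D) ^ 2 := by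
        rw [hL] at htot
        have h2 : 0 ≤ ρ ^ 2 * n ^ 2 * D ^ 2 := by positivity
        nlinarith
      exact le_of_mul_le_mul_left h1 (by positivity)
    have hm0 : (0 : ℝ) ≤ m := Nat.cast_nonneg m
    apply le_of_sq_le_sq _ (by positivity)
    rw [mul_pow, Real.sq_sqrt hm0]
    linarith

end Pool.Agent.Lib.MP_dbb15e_gt
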