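import Mathlib
import Pool.Agent.Lib.MP_dbb15e_gt.Defs
import Pool.Agent.Lib.MP_dbb15e_gt.Main
import Pool.Agent.Lib.MP_dbb15e_gt.Cube

/-!
# The lower bound for the distortion of a union
-/

set_option autoImplicit false

namespace Pool.Agent.Lib.MP_dbb15e_gt

open Finset
open scoped NNReal

lemma embedsWith_of {X Y : Type} [MetricSpace X] [MetricSpace Y] (f : X → Y) (K L D : ℝ)
    (hK : 0 ≤ K) (hL : 0 ≤ L) (h1 : ∀ x y, dist (f x) (f y) ≤ K * dist x y)
    (h2 : ∀ x y, dist x y ≤ L * dist (f x) (f y)) (h3 : K * L ≤ D) : EmbedsWith X Y D := by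
  refine ⟨f, ⟨K, hK⟩, ⟨L, hL⟩, ?_, ?_, h3⟩
  · exact LipschitzWith.of_dist_le_mul h1
  · exact AntilipschitzWith.of_le_mul_dist h2

lemma EmbedsWith.mono {X Y : Type} [MetricSpace X] [MetricSpace Y] {D D' : ℝ} (h : D ≤ D')
    (hX : EmbedsWith X Y D) : EmbedsWith X Y D' := by
  obtain ⟨f, K, L, h1, h2, h3⟩ := hX
  exact ⟨f, K, L, h1, h2, h3.trans h⟩

/-- Separable Hilbert space. -/
abbrev Hilb : Type := lp (fun _ : ℕ => ℝ) 2

/-- the statement for given values -/
def LowerAt (DA DB E : ℝ) : Prop :=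
  ∃ (X : Type) (_ : MetricSpace X) (A B : Set X), A ∪ B = Set.univ ∧
    (∃ a : ℕ, EmbedsWith A (EuclideanSpace ℝ (Fin a)) DA) ∧
    (∃ b : ℕ, EmbedsWith B (EuclideanSpace ℝ (Fin b)) DB) ∧
    ∀ D : ℝ, EmbedsWith X Hilb D → E ≤ D

lemma LowerAt.symm {DA DB E : ℝ} (h : LowerAt DA DB E) : LowerAt DB DA E := by
  obtain ⟨X, hX, A, B, h1, h2, h3, h4⟩ := h
  exact ⟨X, hX, B, A, by rw [Set.union_comm]; exact h1, h3, h2, h4⟩

lemma LowerAt.mono {DA DB E DA' DB' E' : ℝ} (h : LowerAt DA DB E) (hA : DA ≤ DA') (hB : DB ≤ DB')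
    (hE : E' ≤ E) : LowerAt DA' DB' E' := by
  obtain ⟨X, hX, A, B, h1, ⟨a, h2⟩, ⟨b, h3⟩, h4⟩ := h
  exact ⟨X, hX, A, B, h1, ⟨a, h2.mono hA⟩, ⟨b, h3.mono hB⟩, fun D hD => hE.trans (h4 D hD)⟩

/-- from an embedding to the form used in the construction -/
lemma to_form {X : Type} [MetricSpace X] {D : ℝ} (h : EmbedsWith X Hilb D) :
    ∃ (g : X → Hilb) (r : ℝ), 0 < r ∧ ∀ x y, r * dist x y ≤ ‖g x - g y‖ ∧
      ‖g x - g y‖ ≤ D * (r * dist x y) := by
  obtain ⟨f, K, L, h1, h2, h3⟩ := h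
  have a1 : ∀ x y, dist (f x) (f y) ≤ K * dist x y := fun x y => h1.dist_le_mul x y
  have a2 : ∀ x y, dist x y ≤ L * dist (f x) (f y) := fun x y => h2.le_mul_dist x y
  rcases eq_or_ne L 0 with hL | hL
  · refine ⟨f, 1, one_pos, fun x y => ?_⟩
    have h4 := a2 x y
    rw [hL] at h4
    simp only [NNReal.coe_zero, zero_mul] at h4
    have h5 : dist x y = 0 := le_antisymm h4 dist_nonneg
    have h6 := a1 x y
    rw [h5, mul_zero] at h6
    rw [← dist_eq_norm, h5]
    simp only [mul_zero]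
    exact ⟨dist_nonneg, h6⟩
  · have hL0 : (0 : ℝ) < L := by
      have : 0 < L := pos_iff_ne_zero.2 hL
      exact_mod_cast this
    refine ⟨f, (L : ℝ)⁻¹, by positivity, fun x y => ?_⟩
    rw [← dist_eq_norm]
    constructor
    · rw [inv_mul_le_iff₀ hL0]
      exact a2 x y
    · refine (a1 x y).trans ?_
      have h4 : (K : ℝ) ≤ D * (L : ℝ)⁻¹ := by
        rw [← div_eq_mul_inv, le_div_iff₀ hL0]
        exact h3
      calc (K : ℝ) * dist x y ≤ (D * (L : ℝ)⁻¹) * dist x y := by gcongr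
        _ = _ := by ring

/-- the cube case -/
lemma lower_cube (DA DB : ℝ) (hA : 1 ≤ DA) (hB : 1 ≤ DB) : LowerAt DA DB (DA / 2) := by
  set n : ℕ := ⌊DA ^ 2⌋₊ with hn
  have hA2 : 1 ≤ DA ^ 2 := by nlinarith
  have hn1 : 1 ≤ n := Nat.le_floor (by simpa using hA2)
  have hn2 : (n : ℝ) ≤ DA ^ 2 := Nat.floor_le (by positivity)
  have hn3 : DA ^ 2 < n + 1 := Nat.lt_floor_add_one _
  have hs : Real.sqrt n ≤ DA := by
    rw [Real.sqrt_le_left (by linarith)]; exact hn2
  have hs' : DA / 2 ≤ Real.sqrt n := by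
    apply Real.le_sqrt_of_sq_le
    have : (1 : ℝ) ≤ n := by exact_mod_cast hn1
    nlinarith
  let _ : MetricSpace (Fin n → Bool) := dH_isMet.space
  have hd : ∀ x y : Fin n → Bool, dist x y = dH x y := fun x y => rfl
  refine ⟨Fin n → Bool, dH_isMet.space, Set.univ, {fun _ => true}, by simp, ⟨n, ?_⟩, ⟨0, ?_⟩, ?_⟩
  · refine embedsWith_of (fun x => cubeEmb x.1) 1 (Real.sqrt n) DA (by norm_num) (by positivity)
      ?_ ?_ (by linarith)
    · intro x y
      rw [dist_eq_norm, one_mul]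
      exact (cubeEmb_bounds x.1 y.1).2
    · intro x y
      rw [dist_eq_norm]
      exact (cubeEmb_bounds x.1 y.1).1
  · refine embedsWith_of (fun _ => 0) 1 1 DB (by norm_num) (by norm_num) ?_ ?_ (by linarith)
    · intro x y
      simp
    · intro x y
      have hx : x = y := Subtype.ext (by
        have h1 : x.1 = fun _ => true := x.2
        have h2 : y.1 = fun _ => true := y.2
        rw [h1, h2])
      rw [hx]
      simp
  · intro D hD
    obtain ⟨g, r, hr, hg⟩ := to_form hD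
    exact hs'.trans (cube_lower hn1 g r D hr hg)

/-- the main case -/
lemma lower_main (m K : ℕ) (hm : 1 ≤ m) (hK : 1 ≤ K)
    (hKN : (K : ℝ) ≤ Real.sqrt ((982600 * m : ℕ) : ℝ)) :
    LowerAt (877 * Real.sqrt ((982600 * m : ℕ) : ℝ)) (877 * K) (Real.sqrt m * K / 200000) := by
  obtain ⟨EA, EB, d, hd, a, b, fA, fB, hA, hB, hlow⟩ := big m K hm hK _ rfl hKN
  set s : ℝ := Real.sqrt ((982600 * m : ℕ) : ℝ) with hs
  have hs0 : 0 ≤ s := Real.sqrt_nonneg _
  have h2 : 620 * Real.sqrt 2 ≤ 877 := by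
    have : Real.sqrt 2 ≤ 877 / 620 := by
      rw [Real.sqrt_le_left (by norm_num)]; norm_num
    linarith
  have hK0 : (0 : ℝ) ≤ K := Nat.cast_nonneg K
  refine ⟨EA ⊕ EB, hd.space, Set.range Sum.inl, Set.range Sum.inr, ?_, ⟨a, ?_⟩, ⟨b, ?_⟩, ?_⟩
  · exact Set.range_inl_union_range_inr
  · let _ := hd.space
    refine embedsWith_of (fun x => Sum.elim fA (fun _ => 0) x.1) (620 * s) (Real.sqrt 2) _
      (by positivity) (by positivity) ?_ ?_ (by nlinarith)
    · rintro ⟨_, z, rfl⟩ ⟨_, z', rfl⟩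
      rw [dist_eq_norm]
      exact (hA z z').2
    · rintro ⟨_, z, rfl⟩ ⟨_, z', rfl⟩
      rw [dist_eq_norm]
      exact (hA z z').1
  · let _ := hd.space
    refine embedsWith_of (fun x => Sum.elim (fun _ => 0) fB x.1) (620 * K) (Real.sqrt 2) _
      (by positivity) (by positivity) ?_ ?_ (by nlinarith)
    · rintro ⟨_, z, rfl⟩ ⟨_, z', rfl⟩
      rw [dist_eq_norm]
      exact (hB z z').2
    · rintro ⟨_, z, rfl⟩ ⟨_, z', rfl⟩
      rw [dist_eq_norm]
      exact (hB z z').1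
  · intro D hD
    let _ := hd.space
    obtain ⟨g, r, hr, hg⟩ := to_form hD
    have := hlow Hilb g r D hr hg
    linarith

/-- the lower bound when the first distortion is the larger one -/
lemma lower_ordered (DA DB : ℝ) (hB : 1 ≤ DB) (hAB : DB ≤ DA) :
    LowerAt DA DB (1 / 10 ^ 15 * DA * DB) := by
  have hA : 1 ≤ DA := hB.trans hAB
  by_cases hc : DB < 870000
  · refine (lower_cube DA DB hA hB).mono le_rfl le_rfl ?_
    have : DA * DB ≤ DA * 870000 := by gcongr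
    nlinarith
  · push Not at hc
    set K : ℕ := ⌊DB / 1754⌋₊ with hK
    have hK1 : (1 : ℝ) ≤ DB / 1754 := by
      rw [le_div_iff₀ (by norm_num)]; linarith
    have hKn : 1 ≤ K := Nat.le_floor (by simpa using hK1)
    have hK2 : (K : ℝ) ≤ DB / 1754 := Nat.floor_le (by positivity)
    have hK3 : DB / 1754 < K + 1 := Nat.lt_floor_add_one _
    have hKr : (1 : ℝ) ≤ K := by exact_mod_cast hKn
    set T : ℝ := DA ^ 2 / (877 ^ 2 * 982600) with hT
    set m : ℕ := ⌊T⌋₊ with hm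
    have hT1 : (1 : ℝ) ≤ T := by
      rw [hT, le_div_iff₀ (by norm_num)]
      nlinarith
    have hmn : 1 ≤ m := Nat.le_floor (by simpa using hT1)
    have hm2 : (m : ℝ) ≤ T := Nat.floor_le (by positivity)
    have hm3 : T < m + 1 := Nat.lt_floor_add_one _
    have hmr : (1 : ℝ) ≤ m := by exact_mod_cast hmn
    have hT0 : DA ^ 2 = 877 ^ 2 * 982600 * T := by
      rw [hT]; field_simp
    have hcast : ((982600 * m : ℕ) : ℝ) = 982600 * (m : ℝ) := by push_cast; ring
    have hs1 : 877 * Real.sqrt ((982600 * m : ℕ) : ℝ) ≤ DA := by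
      have h1 : Real.sqrt ((982600 * m : ℕ) : ℝ) ≤ DA / 877 := by
        rw [Real.sqrt_le_left (by positivity), hcast, div_pow, hT0]
        linarith
      linarith
    have hs2 : DA / 1754 ≤ Real.sqrt ((982600 * m : ℕ) : ℝ) := by
      apply Real.le_sqrt_of_sq_le
      rw [hcast, div_pow, hT0]
      nlinarith
    have hs3 : DA / 1754000 ≤ Real.sqrt m := by
      apply Real.le_sqrt_of_sq_le
      rw [div_pow, hT0]
      nlinarith
    have hKN : (K : ℝ) ≤ Real.sqrt ((982600 * m : ℕ) : ℝ) := by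
      refine hK2.trans (le_trans ?_ hs2)
      gcongr
    refine (lower_main m K hmn hKn hKN).mono hs1 (by linarith) ?_
    have hK4 : DB / 3508 ≤ K := by linarith
    have h1 : (DA / 1754000) * (DB / 3508) ≤ Real.sqrt m * K := by gcongr
    have h2 : 0 ≤ DA * DB := by positivity
    nlinarith

/-- **The lower bound.** -/
theorem lower_all (DA DB : ℝ) (hA : 1 ≤ DA) (hB : 1 ≤ DB) :
    LowerAt DA DB (1 / 10 ^ 15 * DA * DB) := by
  rcases le_total DB DA with h | h
  · exact lower_ordered DA DB hB h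
  · have := (lower_ordered DB DA hA h).symm
    refine this.mono le_rfl le_rfl (le_of_eq ?_)
    ring

end Pool.Agent.Lib.MP_dbb15e_gt
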