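import Mathlib

/-!
# Separable Hilbert space contains sums of two copies of itself
-/

set_option autoImplicit false

namespace Pool.Agent.Lib.MP_dbb15e_gt

open Finset

/-- interleaving of two sequences -/
noncomputable def ilv (u v : ℕ → ℝ) (n : ℕ) : ℝ := if Even n then u (n / 2) else v (n / 2)

lemma ilv_even (u v : ℕ → ℝ) (k : ℕ) : ilv u v (2 * k) = u k := by
  unfold ilv
  rw [if_pos (even_two_mul k)]
  simp

lemma ilv_odd (u v : ℕ → ℝ) (k : ℕ) : ilv u v (2 * k + 1) = v k := by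
  unfold ilv
  rw [if_neg (by simp)]
  congr 1
  omega

lemma l2_hasSum (u : lp (fun _ : ℕ => ℝ) 2) : HasSum (fun i => ‖u i‖ ^ 2) (‖u‖ ^ 2) := by
  have h := lp.hasSum_norm (p := 2) (by norm_num) u
  simpa using h

lemma ilv_hasSum (u v : lp (fun _ : ℕ => ℝ) 2) :
    HasSum (fun n => ‖ilv u v n‖ ^ 2) (‖u‖ ^ 2 + ‖v‖ ^ 2) := by
  apply HasSum.even_add_odd
  · simp only [ilv_even]
    exact l2_hasSum u
  · simp only [ilv_odd]
    exact l2_hasSum v

/-- interleaving in `ℓ₂` -/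
noncomputable def Jmap (u v : lp (fun _ : ℕ => ℝ) 2) : lp (fun _ : ℕ => ℝ) 2 :=
  ⟨ilv u v, by
    apply memℓp_gen
    have h := (ilv_hasSum u v).summable
    simpa using h⟩

lemma Jmap_sub (u v u' v' : lp (fun _ : ℕ => ℝ) 2) :
    Jmap u v - Jmap u' v' = Jmap (u - u') (v - v') := by
  ext n
  change ilv u v n - ilv u' v' n = ilv (u - u') (v - v') n
  unfold ilv
  split_ifs <;> simp

lemma Jmap_norm (u v : lp (fun _ : ℕ => ℝ) 2) : ‖Jmap u v‖ ^ 2 = ‖u‖ ^ 2 + ‖v‖ ^ 2 := by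
  have h1 := l2_hasSum (Jmap u v)
  exact h1.unique (ilv_hasSum u v)

lemma Jmap_dist (u v u' v' : lp (fun _ : ℕ => ℝ) 2) :
    ‖Jmap u v - Jmap u' v'‖ ^ 2 = ‖u - u'‖ ^ 2 + ‖v - v'‖ ^ 2 := by
  rw [Jmap_sub, Jmap_norm]

/-- the line in `ℓ₂` -/
noncomputable def lineMap (t : ℝ) : lp (fun _ : ℕ => ℝ) 2 := lp.single 2 0 t

lemma lineMap_dist (s t : ℝ) : ‖lineMap s - lineMap t‖ = |s - t| := by
  have h : lineMap s - lineMap t = lp.single 2 0 (s - t) := by
    ext n
    simp only [lineMap, AddSubgroupClass.coe_sub, lp.coeFn_single]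
    by_cases h : n = 0
    · subst h; simp
    · simp [Pi.single_eq_of_ne h]
  rw [h, lp.norm_single (by norm_num), Real.norm_eq_abs]

/-- Euclidean space in `ℓ₂` -/
noncomputable def eucMap (a : ℕ) (x : EuclideanSpace ℝ (Fin a)) : lp (fun _ : ℕ => ℝ) 2 :=
  ∑ i ∈ Finset.range a, lp.single 2 i (if h : i < a then x ⟨i, h⟩ else 0)

lemma eucMap_dist (a : ℕ) (x y : EuclideanSpace ℝ (Fin a)) :
    ‖eucMap a x - eucMap a y‖ = ‖x - y‖ := by
  have h : eucMap a x - eucMap a y = eucMap a (x - y) := by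
    unfold eucMap
    rw [← Finset.sum_sub_distrib]
    refine Finset.sum_congr rfl fun i hi => ?_
    have hi' : i < a := Finset.mem_range.1 hi
    ext n
    simp only [hi', dif_pos, AddSubgroupClass.coe_sub, lp.coeFn_single]
    by_cases h : n = i
    · subst h; simp
    · simp [Pi.single_eq_of_ne h]
  rw [h]
  have h2 := lp.norm_sum_single (p := 2) (by norm_num)
    (fun i : ℕ => if h : i < a then (x - y) ⟨i, h⟩ else 0) (Finset.range a)
  have h3 : ‖eucMap a (x - y)‖ ^ 2 = ‖x - y‖ ^ 2 := by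
    have h4 : ‖eucMap a (x - y)‖ ^ 2 =
        ∑ i ∈ Finset.range a, ‖(if h : i < a then (x - y) ⟨i, h⟩ else (0 : ℝ))‖ ^ 2 := by
      unfold eucMap
      simpa using h2
    rw [h4, EuclideanSpace.norm_sq_eq, Finset.sum_range]
    refine Finset.sum_congr rfl fun i _ => ?_
    rw [dif_pos i.2]
  have := congrArg Real.sqrt h3
  rwa [Real.sqrt_sq (norm_nonneg _), Real.sqrt_sq (norm_nonneg _)] at this

end Pool.Agent.Lib.MP_dbb15e_gt
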