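import Mathlib

/-!
# Kirszbraun's theorem
-/

set_option autoImplicit false

namespace Pool.Agent.Lib.MP_dbb15e_gt

open Finset

section finite

variable {ι E F : Type*} [Fintype ι] [NormedAddCommGroup E] [InnerProductSpace ℝ E]
  [NormedAddCommGroup F] [InnerProductSpace ℝ F]

/-- Variance identity for weights. -/
lemma weight_identity (lam : ι → ℝ) (v : ι → E) :
    ∑ i, ∑ j, lam i * lam j * ‖v i - v j‖ ^ 2 =
      2 * (∑ i, lam i) * (∑ i, lam i * ‖v i‖ ^ 2) - 2 * ‖∑ i, lam i • v i‖ ^ 2 := by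
  have h1 : ‖∑ i, lam i • v i‖ ^ 2 = ∑ i, ∑ j, lam i * lam j * inner ℝ (v i) (v j) := by
    rw [← real_inner_self_eq_norm_sq, sum_inner]
    refine Finset.sum_congr rfl fun i _ => ?_
    rw [inner_sum]
    refine Finset.sum_congr rfl fun j _ => ?_
    rw [real_inner_smul_left, real_inner_smul_right]
    ring
  have h2 : ∀ i j, lam i * lam j * ‖v i - v j‖ ^ 2 =
      lam j * (lam i * ‖v i‖ ^ 2) + lam i * (lam j * ‖v j‖ ^ 2)
        - 2 * (lam i * lam j * inner ℝ (v i) (v j)) := by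
    intro i j
    rw [norm_sub_sq_real]
    ring
  simp_rw [h2]
  simp only [Finset.sum_sub_distrib, Finset.sum_add_distrib, ← Finset.mul_sum, ← Finset.sum_mul]
  rw [h1]
  ring

lemma weight_compare (lam : ι → ℝ) (hlam : ∀ i, 0 ≤ lam i) (hpos : 0 < ∑ i, lam i) (x : ι → E)
    (y : ι → F) (h : ∀ i j, ‖y i - y j‖ ≤ ‖x i - x j‖) (p : E) :
    ∑ i, lam i * ‖(∑ k, lam k)⁻¹ • (∑ k, lam k • y k) - y i‖ ^ 2 ≤ ∑ i, lam i * ‖p - x i‖ ^ 2 := by
  set Λ : ℝ := ∑ k, lam k with hΛ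
  set q : F := Λ⁻¹ • (∑ k, lam k • y k) with hq
  have h1 := weight_identity lam (fun i => q - y i)
  have h2 := weight_identity lam (fun i => p - x i)
  have h3 : ∑ i, lam i • (q - y i) = 0 := by
    simp only [smul_sub, Finset.sum_sub_distrib, ← Finset.sum_smul]
    rw [← hΛ, hq, smul_smul, mul_inv_cancel₀ hpos.ne', one_smul, sub_self]
  rw [h3, norm_zero] at h1
  have h4 : ∑ i, ∑ j, lam i * lam j * ‖(q - y i) - (q - y j)‖ ^ 2 ≤
      ∑ i, ∑ j, lam i * lam j * ‖(p - x i) - (p - x j)‖ ^ 2 := by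
    refine Finset.sum_le_sum fun i _ => Finset.sum_le_sum fun j _ => ?_
    have e1 : (q - y i) - (q - y j) = y j - y i := by abel
    have e2 : (p - x i) - (p - x j) = x j - x i := by abel
    rw [e1, e2]
    have := hlam i
    have := hlam j
    have := h j i
    gcongr
  rw [h1, h2] at h4
  have h5 : 0 ≤ ‖∑ i, lam i • (p - x i)‖ ^ 2 := by positivity
  have h6 : 2 * Λ * (∑ i, lam i * ‖q - y i‖ ^ 2) ≤ 2 * Λ * (∑ i, lam i * ‖p - x i‖ ^ 2) := by
    rw [← hΛ] at h4
    nlinarith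
  exact le_of_mul_le_mul_left h6 (by positivity)

/-- Approximate finite one point extension. -/
lemma kirsz_finite (x : ι → E) (y : ι → F) (h : ∀ i j, ‖y i - y j‖ ≤ ‖x i - x j‖) (p : E)
    (ε : ℝ) (hε : 0 < ε) : ∃ q : F, ∀ i, ‖q - y i‖ ^ 2 ≤ ‖p - x i‖ ^ 2 + ε := by
  classical
  by_contra hcon
  push Not at hcon
  set C : Set (ι → ℝ) := {z | ∃ q : F, ∀ i, ‖q - y i‖ ^ 2 - ‖p - x i‖ ^ 2 ≤ z i} with hC
  set O : Set (ι → ℝ) := {z | ∀ i, z i < ε} with hO
  have hOc : Convex ℝ O := by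
    intro z hz z' hz' a b ha hb hab i
    have h1 := hz i
    have h2 := hz' i
    simp only [Pi.add_apply, Pi.smul_apply, smul_eq_mul]
    rcases ha.eq_or_lt with ha0 | ha0
    · have hb1 : b = 1 := by linarith
      rw [← ha0, hb1]; linarith
    · have e1 : a * z i < a * ε := by gcongr
      have e2 : b * z' i ≤ b * ε := by gcongr
      calc a * z i + b * z' i < a * ε + b * ε := by linarith
        _ = (a + b) * ε := by ring
        _ = ε := by rw [hab, one_mul]
  have hOo : IsOpen O := by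
    have : O = ⋂ i, {z : ι → ℝ | z i < ε} := by
      ext z; simp [hO]
    rw [this]
    exact isOpen_iInter_of_finite fun i => isOpen_lt (continuous_apply i) continuous_const
  have hCc : Convex ℝ C := by
    rintro z ⟨q, hq⟩ z' ⟨q', hq'⟩ a b ha hb hab
    refine ⟨a • q + b • q', fun i => ?_⟩
    have h1 := hq i
    have h2 := hq' i
    have h3 : ‖(a • q + b • q') - y i‖ ^ 2 ≤ a * ‖q - y i‖ ^ 2 + b * ‖q' - y i‖ ^ 2 := by
      have e : (a • q + b • q') - y i = a • (q - y i) + b • (q' - y i) := by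
        rw [smul_sub, smul_sub]
        have : y i = a • y i + b • y i := by rw [← add_smul, hab, one_smul]
        conv_lhs => rw [this]
        abel
      rw [e, norm_add_sq_real, norm_smul, norm_smul, real_inner_smul_left, real_inner_smul_right,
        Real.norm_of_nonneg ha, Real.norm_of_nonneg hb]
      have h4 := real_inner_le_norm (q - y i) (q' - y i)
      have h5 : 0 ≤ a * b := mul_nonneg ha hb
      have h6 : b = 1 - a := by linarith
      have h7 : a * b * inner ℝ (q - y i) (q' - y i) ≤ a * b * (‖q - y i‖ * ‖q' - y i‖) := by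
        gcongr
      have h8 : 0 ≤ a * b * (‖q - y i‖ - ‖q' - y i‖) ^ 2 := by positivity
      have h9 : a * ‖q - y i‖ ^ 2 + b * ‖q' - y i‖ ^ 2 - ((a * ‖q - y i‖) ^ 2 +
          2 * (a * b * (‖q - y i‖ * ‖q' - y i‖)) + (b * ‖q' - y i‖) ^ 2) =
          a * b * (‖q - y i‖ - ‖q' - y i‖) ^ 2 := by
        rw [h6]; ring
      linarith
    simp only [Pi.add_apply, Pi.smul_apply, smul_eq_mul]
    have e3 : ‖p - x i‖ ^ 2 = a * ‖p - x i‖ ^ 2 + b * ‖p - x i‖ ^ 2 := by
      rw [← add_mul, hab, one_mul]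
    have e4 : a * (‖q - y i‖ ^ 2 - ‖p - x i‖ ^ 2) ≤ a * z i := by gcongr
    have e5 : b * (‖q' - y i‖ ^ 2 - ‖p - x i‖ ^ 2) ≤ b * z' i := by gcongr
    linarith
  have hdisj : Disjoint O C := by
    rw [Set.disjoint_left]
    rintro z hz ⟨q, hq⟩
    obtain ⟨i, hi⟩ := hcon q
    have h1 := hz i
    have h2 := hq i
    linarith
  obtain ⟨f, u, hf1, hf2⟩ := geometric_hahn_banach_open hOc hOo hCc hdisj
  set lam : ι → ℝ := fun i => f (Pi.single i 1) with hlam
  have hf : ∀ z : ι → ℝ, f z = ∑ i, lam i * z i := by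
    intro z
    have : z = ∑ i, z i • (Pi.single i 1 : ι → ℝ) := by
      rw [← pi_eq_sum_univ' z]
    conv_lhs => rw [this]
    rw [map_sum]
    refine Finset.sum_congr rfl fun i _ => ?_
    rw [map_smul, smul_eq_mul, mul_comm]
  have hlam0 : ∀ i, 0 ≤ lam i := by
    intro i
    by_contra hneg
    push Not at hneg
    -- take a very negative multiple
    have h0 : (0 : ι → ℝ) ∈ O := fun _ => hε
    have hu0 : 0 < u := by
      have := hf1 0 h0
      rwa [map_zero] at this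
    set t : ℝ := u / (-lam i) with ht
    have ht0 : 0 ≤ t := by
      apply div_nonneg hu0.le; linarith
    have hmem : (-t) • (Pi.single i 1 : ι → ℝ) ∈ O := by
      intro j
      simp only [Pi.smul_apply, smul_eq_mul]
      by_cases hj : j = i
      · subst hj; rw [Pi.single_eq_same]; linarith
      · rw [Pi.single_eq_of_ne hj]; linarith
    have h1 := hf1 _ hmem
    rw [map_smul, smul_eq_mul] at h1
    have h2 : -t * lam i = u := by
      have hne : -lam i ≠ 0 := by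
        have : 0 < -lam i := by linarith
        exact this.ne'
      have e : t * (-lam i) = u := div_mul_cancel₀ _ hne
      linarith
    have h3 : f (Pi.single i 1) = lam i := rfl
    rw [h3, h2] at h1
    exact lt_irrefl _ h1
  have hΛ : 0 < ∑ i, lam i := by
    rcases (Finset.sum_nonneg fun i _ => hlam0 i).eq_or_lt with h0 | h0
    · exfalso
      have h1 : ∀ i, lam i = 0 := fun i =>
        (Finset.sum_eq_zero_iff_of_nonneg (fun i _ => hlam0 i)).1 h0.symm i (mem_univ i)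
      have h2 : ∀ z, f z = 0 := by
        intro z; rw [hf]; simp [h1]
      have h3 := hf1 0 (fun _ => hε)
      have h4 := hf2 (fun i => ‖(0 : F) - y i‖ ^ 2 - ‖p - x i‖ ^ 2) ⟨0, fun i => le_rfl⟩
      rw [h2] at h3 h4
      linarith
    · exact h0
  have h1 := hf2 (fun i => ‖(∑ k, lam k)⁻¹ • (∑ k, lam k • y k) - y i‖ ^ 2 - ‖p - x i‖ ^ 2)
    ⟨(∑ k, lam k)⁻¹ • (∑ k, lam k • y k), fun i => le_rfl⟩
  rw [hf] at h1
  have h2 := weight_compare lam hlam0 hΛ x y h p
  have h3 : ∑ i, lam i * (‖(∑ k, lam k)⁻¹ • (∑ k, lam k • y k) - y i‖ ^ 2 - ‖p - x i‖ ^ 2) ≤ 0 := by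
    simp only [mul_sub, Finset.sum_sub_distrib]
    linarith
  have h4 := hf1 (fun _ => ε / 2) (fun _ => by linarith)
  rw [hf] at h4
  simp only [← Finset.sum_mul] at h4
  have h5 : 0 < (∑ i, lam i) * (ε / 2) := by positivity
  linarith

end finite

section centred

variable {ι F : Type*} [NormedAddCommGroup F] [InnerProductSpace ℝ F] [CompleteSpace F]

/-- A centred family of closed convex sets, one of them bounded, has a common point. -/
lemma centred_inter (C : ι → Set F) (hcl : ∀ i, IsClosed (C i)) (hcv : ∀ i, Convex ℝ (C i))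
    (i0 : ι) (R : ℝ) (hR : ∀ v ∈ C i0, ‖v‖ ≤ R)
    (hfip : ∀ s : Finset ι, ∃ v, ∀ i ∈ s, v ∈ C i) : ∃ v, ∀ i, v ∈ C i := by
  classical
  set K : Finset ι → Set F := fun s => ⋂ i ∈ insert i0 s, C i with hK
  have hKmem : ∀ s v, v ∈ K s ↔ ∀ i ∈ insert i0 s, v ∈ C i := by
    intro s v; simp [hK]
  have hKne : ∀ s, (K s).Nonempty := by
    intro s
    obtain ⟨v, hv⟩ := hfip (insert i0 s)
    exact ⟨v, (hKmem s v).2 hv⟩
  have hKcl : ∀ s, IsClosed (K s) := fun s =>
    isClosed_biInter fun i _ => hcl i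
  have hKcv : ∀ s, Convex ℝ (K s) := fun s =>
    convex_iInter₂ fun i _ => hcv i
  have hmono : ∀ s t, s ⊆ t → K t ⊆ K s := by
    intro s t hst v hv
    rw [hKmem] at hv ⊢
    exact fun i hi => hv i (Finset.insert_subset_insert i0 hst hi)
  have hmin : ∀ s, ∃ v ∈ K s, ∀ w ∈ K s, ‖v‖ ≤ ‖w‖ := by
    intro s
    obtain ⟨v, hv, h⟩ := exists_norm_eq_iInf_of_complete_convex (hKne s) (hKcl s).isComplete
      (hKcv s) 0
    refine ⟨v, hv, fun w hw => ?_⟩
    rw [zero_sub, norm_neg] at h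
    rw [h]
    have := ciInf_le (f := fun w : K s => ‖(0 : F) - w‖) ⟨0, by rintro _ ⟨w, rfl⟩; positivity⟩ ⟨w, hw⟩
    simpa using this
  choose p hp1 hp2 using hmin
  have hpR : ∀ s, ‖p s‖ ≤ R := fun s => hR _ ((hKmem s _).1 (hp1 s) i0 (Finset.mem_insert_self _ _))
  have hR0 : 0 ≤ R := (norm_nonneg _).trans (hpR ∅)
  have hpar : ∀ s t, s ⊆ t → ‖p t - p s‖ ^ 2 ≤ 2 * (‖p t‖ ^ 2 - ‖p s‖ ^ 2) := by
    intro s t hst
    have hmid : (1 / 2 : ℝ) • p s + (1 / 2 : ℝ) • p t ∈ K s :=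
      hKcv s (hp1 s) (hmono s t hst (hp1 t)) (by norm_num) (by norm_num) (by norm_num)
    have h1 := hp2 s _ hmid
    rw [← smul_add, norm_smul] at h1
    have h2 : ‖p s‖ ≤ 1 / 2 * ‖p s + p t‖ := by simpa using h1
    have h3 := parallelogram_law_with_norm ℝ (p t) (p s)
    have h4 : ‖p s‖ ^ 2 ≤ (1 / 2 * ‖p s + p t‖) ^ 2 := pow_le_pow_left₀ (norm_nonneg _) h2 2
    have h5 : ‖p t + p s‖ = ‖p s + p t‖ := by rw [add_comm]
    rw [h5] at h3
    nlinarith
  -- supremum of the squared norms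
  have hbdd : BddAbove (Set.range fun s => ‖p s‖ ^ 2) := by
    refine ⟨R ^ 2, ?_⟩
    rintro _ ⟨s, rfl⟩
    exact pow_le_pow_left₀ (norm_nonneg _) (hpR s) 2
  have hcau : CauchySeq p := by
    rw [Metric.cauchySeq_iff']
    intro ε hε
    obtain ⟨s, hs⟩ := exists_lt_of_lt_ciSup (f := fun s => ‖p s‖ ^ 2)
      (b := (⨆ s, ‖p s‖ ^ 2) - ε ^ 2 / 2) (by linarith [sq_pos_of_pos hε])
    refine ⟨s, fun t hst => ?_⟩
    have h1 := hpar s t hst
    have h2 := le_ciSup hbdd t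
    rw [dist_eq_norm]
    have h3 : ‖p t - p s‖ ^ 2 < ε ^ 2 := by linarith
    exact lt_of_pow_lt_pow_left₀ 2 hε.le h3
  obtain ⟨v, hv⟩ := cauchySeq_tendsto_of_complete hcau
  refine ⟨v, fun i => ?_⟩
  refine (hcl i).mem_of_tendsto hv ?_
  filter_upwards [Filter.eventually_ge_atTop {i}] with s hs
  exact (hKmem s _).1 (hp1 s) i (Finset.mem_insert_of_mem (hs (Finset.mem_singleton_self i)))

end centred

section kirszbraun

variable {E F : Type*} [NormedAddCommGroup E] [InnerProductSpace ℝ E]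
  [NormedAddCommGroup F] [InnerProductSpace ℝ F] [CompleteSpace F]

/-- nonexpansive graphs -/
def NonExp (G : Set (E × F)) : Prop := ∀ a ∈ G, ∀ b ∈ G, ‖a.2 - b.2‖ ≤ ‖a.1 - b.1‖

/-- One point extension. -/
lemma kirsz_one (G : Set (E × F)) (hG : NonExp G) (p : E) :
    ∃ q : F, ∀ a ∈ G, ‖q - a.2‖ ≤ ‖p - a.1‖ := by
  classical
  rcases G.eq_empty_or_nonempty with rfl | ⟨a0, ha0⟩
  · exact ⟨0, by simp⟩
  let C : G × ℕ → Set F := fun k => Metric.closedBall (k.1.1.2)
    (Real.sqrt (‖p - k.1.1.1‖ ^ 2 + 1 / ((k.2 : ℝ) + 1)))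
  obtain ⟨q, hq⟩ := centred_inter C (fun _ => Metric.isClosed_closedBall)
    (fun _ => convex_closedBall _ _) (⟨a0, ha0⟩, 0)
    (‖a0.2‖ + Real.sqrt (‖p - a0.1‖ ^ 2 + 1 / ((0 : ℕ) + 1)))
    (by
      intro v hv
      have h1 : ‖v - a0.2‖ ≤ _ := mem_closedBall_iff_norm.1 hv
      have h2 : ‖v‖ ≤ ‖a0.2‖ + ‖v - a0.2‖ := by
        have := norm_add_le a0.2 (v - a0.2)
        rwa [add_sub_cancel] at this
      linarith)
    (by
      intro s
      -- a common lower bound for the tolerances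
      obtain ⟨N, hN⟩ : ∃ N : ℕ, ∀ k ∈ s, k.2 ≤ N :=
        ⟨s.sup (fun k => k.2), fun k hk => Finset.le_sup (f := fun k => k.2) hk⟩
      obtain ⟨q, hq⟩ := kirsz_finite (ι := s) (fun k => k.1.1.1.1) (fun k => k.1.1.1.2)
        (fun i j => hG _ i.1.1.2 _ j.1.1.2) p (1 / ((N : ℝ) + 1)) (by positivity)
      refine ⟨q, fun k hk => ?_⟩
      have h1 := hq ⟨k, hk⟩
      simp only at h1
      change q ∈ Metric.closedBall _ _
      rw [mem_closedBall_iff_norm]
      apply Real.le_sqrt_of_sq_le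
      refine h1.trans ?_
      have h2 : (k.2 : ℝ) ≤ N := by exact_mod_cast hN k hk
      gcongr)
  refine ⟨q, fun a ha => ?_⟩
  have h1 : ∀ n : ℕ, ‖q - a.2‖ ^ 2 ≤ ‖p - a.1‖ ^ 2 + 1 / ((n : ℝ) + 1) := by
    intro n
    have h2 := mem_closedBall_iff_norm.1 (hq (⟨a, ha⟩, n))
    have h3 := pow_le_pow_left₀ (norm_nonneg _) h2 2
    rwa [Real.sq_sqrt (by positivity)] at h3
  have h2 : ‖q - a.2‖ ^ 2 ≤ ‖p - a.1‖ ^ 2 := by
    have h3 : Filter.Tendsto (fun n : ℕ => ‖p - a.1‖ ^ 2 + 1 / ((n : ℝ) + 1)) Filter.atTop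
        (nhds (‖p - a.1‖ ^ 2 + 0)) :=
      tendsto_const_nhds.add tendsto_one_div_add_atTop_nhds_zero_nat
    rw [add_zero] at h3
    exact ge_of_tendsto' h3 h1
  exact (pow_le_pow_iff_left₀ (norm_nonneg _) (norm_nonneg _) two_ne_zero).1 h2

/-- **Kirszbraun's theorem** for nonexpansive graphs. -/
theorem kirszbraun_graph (G : Set (E × F)) (hG : NonExp G) :
    ∃ f : E → F, (∀ p q, ‖f p - f q‖ ≤ ‖p - q‖) ∧ ∀ a ∈ G, f a.1 = a.2 := by
  obtain ⟨M, hGM, hM⟩ := zorn_subset_nonempty {G : Set (E × F) | NonExp G} (by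
    intro c hc hchain hne
    refine ⟨⋃₀ c, ?_, fun s hs => Set.subset_sUnion_of_mem hs⟩
    intro a ha b hb
    obtain ⟨s, hs, has⟩ := ha
    obtain ⟨t, ht, hbt⟩ := hb
    rcases hchain.total hs ht with h | h
    · exact hc ht a (h has) b hbt
    · exact hc hs a has b (h hbt)) G hG
  have hMn : NonExp M := hM.prop
  have hex : ∀ p : E, ∃ q : F, (p, q) ∈ M := by
    intro p
    obtain ⟨q, hq⟩ := kirsz_one M hMn p
    refine ⟨q, ?_⟩
    have h1 : NonExp (insert (p, q) M) := by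
      intro a ha b hb
      rcases ha with rfl | ha <;> rcases hb with rfl | hb
      · simp
      · exact hq b hb
      · have := hq a ha
        rw [norm_sub_rev, norm_sub_rev a.1]
        exact this
      · exact hMn a ha b hb
    have h2 := hM.eq_of_subset h1 (Set.subset_insert _ _)
    rw [h2]
    exact Set.mem_insert _ _
  choose f hf using hex
  refine ⟨f, fun p q => hMn _ (hf p) _ (hf q), fun a ha => ?_⟩
  have h1 := hMn _ (hf a.1) _ (hGM ha)
  simp only [sub_self, norm_zero] at h1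
  exact sub_eq_zero.1 (norm_eq_zero.1 (le_antisymm h1 (norm_nonneg _)))

/-- Kirszbraun's theorem for maps with a Lipschitz constant. -/
theorem kirszbraun {T : Type*} (x : T → E) (y : T → F) (L : ℝ) (hL : 0 < L)
    (h : ∀ s t, ‖y s - y t‖ ≤ L * ‖x s - x t‖) :
    ∃ f : E → F, (∀ p q, ‖f p - f q‖ ≤ L * ‖p - q‖) ∧ ∀ t, f (x t) = y t := by
  obtain ⟨f, hf1, hf2⟩ := kirszbraun_graph (Set.range fun t => (x t, L⁻¹ • y t)) (by
    rintro _ ⟨s, rfl⟩ _ ⟨t, rfl⟩
    simp only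
    rw [← smul_sub, norm_smul, Real.norm_of_nonneg (by positivity), inv_mul_le_iff₀ hL]
    exact h s t)
  refine ⟨fun p => L • f p, fun p q => ?_, fun t => ?_⟩
  · rw [← smul_sub, norm_smul, Real.norm_of_nonneg hL.le]
    gcongr
    exact hf1 p q
  · have := hf2 _ ⟨t, rfl⟩
    simp only at this
    simp only [this, smul_smul, mul_inv_cancel₀ hL.ne', one_smul]

end kirszbraun

end Pool.Agent.Lib.MP_dbb15e_gt
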