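import Mathlib
import Pool.Agent.Lib.MP_dbb15e_gt.Kirsz

/-!
# The upper bound: extension of the two embeddings
-/

set_option autoImplicit false

namespace Pool.Agent.Lib.MP_dbb15e_gt

open Finset

section

variable {X H : Type*} [MetricSpace X] [NormedAddCommGroup H] [InnerProductSpace ℝ H]
  [CompleteSpace H]

/-- `f` is an embedding with distortion `D` on the set `A`. -/
def EmbOn (f : X → H) (A : Set X) (D : ℝ) : Prop :=
  ∀ x ∈ A, ∀ y ∈ A, dist x y ≤ ‖f x - f y‖ ∧ ‖f x - f y‖ ≤ D * dist x y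

omit [InnerProductSpace ℝ H] in
/-- Extension of an embedding to the closure. -/
lemma closure_ext (f : X → H) (B : Set X) (D : ℝ) (hD : 0 ≤ D) (hf : EmbOn f B D) :
    ∃ g : X → H, EmbOn g (closure B) D := by
  classical
  have h1 : ∀ x : X, ∃ b : ℕ → X, x ∈ closure B → (∀ n, b n ∈ B) ∧
      Filter.Tendsto b Filter.atTop (nhds x) := by
    intro x
    by_cases hx : x ∈ closure B
    · obtain ⟨b, hb1, hb2⟩ := mem_closure_iff_seq_limit.1 hx
      exact ⟨b, fun _ => ⟨hb1, hb2⟩⟩
    · exact ⟨fun _ => x, fun h => absurd h hx⟩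
  choose b hb using h1
  have h2 : ∀ x : X, ∃ v : H, x ∈ closure B →
      Filter.Tendsto (fun n => f (b x n)) Filter.atTop (nhds v) := by
    intro x
    by_cases hx : x ∈ closure B
    · obtain ⟨hb1, hb2⟩ := hb x hx
      have hc : CauchySeq (fun n => f (b x n)) := by
        rw [Metric.cauchySeq_iff]
        intro ε hε
        have hc' := Metric.cauchySeq_iff.1 hb2.cauchySeq (ε / (D + 1)) (by positivity)
        obtain ⟨N, hN⟩ := hc'
        refine ⟨N, fun m hm n hn => ?_⟩
        rw [dist_eq_norm]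
        have h3 := (hf _ (hb1 m) _ (hb1 n)).2
        have h4 := hN m hm n hn
        rw [lt_div_iff₀ (by positivity)] at h4
        have h5 : 0 ≤ dist (b x m) (b x n) := dist_nonneg
        nlinarith
      obtain ⟨v, hv⟩ := cauchySeq_tendsto_of_complete hc
      exact ⟨v, fun _ => hv⟩
    · exact ⟨0, fun h => absurd h hx⟩
  choose g hg using h2
  refine ⟨g, fun x hx y hy => ?_⟩
  have hx2 := hg x hx
  have hy2 := hg y hy
  obtain ⟨hbx1, hbx2⟩ := hb x hx
  obtain ⟨hby1, hby2⟩ := hb y hy
  have t1 : Filter.Tendsto (fun n => dist (b x n) (b y n)) Filter.atTop (nhds (dist x y)) :=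
    hbx2.dist hby2
  have t2 : Filter.Tendsto (fun n => ‖f (b x n) - f (b y n)‖) Filter.atTop
      (nhds ‖g x - g y‖) := (hx2.sub hy2).norm
  exact ⟨le_of_tendsto_of_tendsto' t1 t2 (fun n => (hf _ (hbx1 n) _ (hby1 n)).1),
    le_of_tendsto_of_tendsto' t2 (t1.const_mul D) (fun n => (hf _ (hbx1 n) _ (hby1 n)).2)⟩

/-- The nets relative to the distance to the other set. -/
lemma exists_rel_net (A : Set X) (R : X → ℝ) (hR : ∀ x, 0 ≤ R x) :
    ∃ T : Set X, T ⊆ A ∧ (∀ x ∈ T, ∀ y ∈ T, x ≠ y → min (R x) (R y) ≤ dist x y) ∧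
      ∀ a ∈ A, ∃ t ∈ T, dist a t ≤ R a := by
  obtain ⟨T, _, hT⟩ := zorn_subset_nonempty
    {T : Set X | T ⊆ A ∧ ∀ x ∈ T, ∀ y ∈ T, x ≠ y → min (R x) (R y) ≤ dist x y} (by
      intro c hc hchain hne
      refine ⟨⋃₀ c, ⟨Set.sUnion_subset fun s hs => (hc hs).1, ?_⟩,
        fun s hs => Set.subset_sUnion_of_mem hs⟩
      rintro x ⟨s, hs, hxs⟩ y ⟨t, ht, hyt⟩ hxy
      rcases hchain.total hs ht with h | h
      · exact (hc ht).2 x (h hxs) y hyt hxy
      · exact (hc hs).2 x hxs y (h hyt) hxy) ∅ ⟨Set.empty_subset _, by simp⟩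
  obtain ⟨hTA, hTs⟩ := hT.prop
  refine ⟨T, hTA, hTs, fun a ha => ?_⟩
  by_contra hcon
  push Not at hcon
  have haT : a ∉ T := by
    intro haT
    have := hcon a haT
    rw [dist_self] at this
    exact absurd this (not_lt.2 (hR a))
  have h1 : insert a T ∈ {T : Set X | T ⊆ A ∧
      ∀ x ∈ T, ∀ y ∈ T, x ≠ y → min (R x) (R y) ≤ dist x y} := by
    refine ⟨Set.insert_subset ha hTA, ?_⟩
    intro x hx y hy hxy
    rcases hx with rfl | hx <;> rcases hy with rfl | hy
    · exact absurd rfl hxy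
    · exact (min_le_left _ _).trans (hcon y hy).le
    · rw [dist_comm]
      exact (min_le_right _ _).trans (hcon x hx).le
    · exact hTs x hx y hy hxy
  have h2 := hT.eq_of_subset h1 (Set.subset_insert _ _)
  rw [h2] at haT
  exact haT (Set.mem_insert _ _)

/-- Extension of the embedding of `B` to the whole space. -/
lemma extend_side (A B : Set X) (hAB : A ∪ B = Set.univ) (hB : IsClosed B) (hBne : B.Nonempty)
    (fA fB : X → H) (DA DB : ℝ) (hDA : 1 ≤ DA) (hDB : 1 ≤ DB) (hfA : EmbOn fA A DA)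
    (hfB : EmbOn fB B DB) :
    ∃ F : X → H, (∀ x ∈ B, F x = fB x) ∧ ∀ x y, ‖F x - F y‖ ≤ 13 * (DA * DB) * dist x y := by
  classical
  set R : X → ℝ := fun x => Metric.infDist x B with hR
  have hR0 : ∀ x, 0 ≤ R x := fun x => Metric.infDist_nonneg
  have hRlip : ∀ x y, R x ≤ R y + dist x y := fun x y => Metric.infDist_le_infDist_add_dist
  have hRle : ∀ x, ∀ y ∈ B, R x ≤ dist x y := fun x y hy => Metric.infDist_le_dist_of_mem hy
  have hg : ∀ x, ∃ b ∈ B, dist x b ≤ 2 * R x := by
    intro x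
    rcases (hR0 x).eq_or_lt with h | h
    · have hx : x ∈ B := by
        rw [hB.mem_iff_infDist_zero hBne]; exact h.symm
      exact ⟨x, hx, by rw [dist_self]; linarith⟩
    · have h1 : Metric.infDist x B < 2 * R x := by
        have : Metric.infDist x B = R x := rfl
        rw [this]; linarith
      obtain ⟨b, hb, h2⟩ := (Metric.infDist_lt_iff hBne).1 h1
      exact ⟨b, hb, h2.le⟩
  choose g hgB hg2 using hg
  obtain ⟨T, hTA, hTs, hTc⟩ := exists_rel_net A R hR0
  have hgg : ∀ s ∈ T, ∀ t ∈ T, dist (g s) (g t) ≤ 7 * dist s t := by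
    intro s hs t ht
    by_cases hst : s = t
    · subst hst; simp
    · have h1 := hTs s hs t ht hst
      have h2 := hRlip s t
      have h3 := hRlip t s
      rw [dist_comm t s] at h3
      have h4 := hg2 s
      have h5 := hg2 t
      have h6 : dist (g s) (g t) ≤ dist (g s) s + dist s t + dist t (g t) := by
        have e1 := dist_triangle (g s) s (g t)
        have e2 := dist_triangle s t (g t)
        linarith
      rw [dist_comm (g s) s] at h6
      rcases min_cases (R s) (R t) with ⟨e, _⟩ | ⟨e, _⟩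
      · rw [e] at h1; linarith
      · rw [e] at h1; linarith
  obtain ⟨k, hk1, hk2⟩ := kirszbraun (T := T) (fun t => fA t.1) (fun t => fB (g t.1)) (7 * DB)
    (by positivity) (by
      intro s t
      have h1 := (hfB _ (hgB s.1) _ (hgB t.1)).2
      have h2 := hgg s.1 s.2 t.1 t.2
      have h3 := (hfA _ (hTA s.2) _ (hTA t.2)).1
      calc ‖fB (g s.1) - fB (g t.1)‖ ≤ DB * dist (g s.1) (g t.1) := h1
        _ ≤ DB * (7 * dist s.1 t.1) := by gcongr
        _ ≤ DB * (7 * ‖fA s.1 - fA t.1‖) := by gcongr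
        _ = _ := by ring)
  have hcross : ∀ a ∈ A, ∀ b ∈ B, ‖k (fA a) - fB b‖ ≤ 13 * (DA * DB) * dist a b := by
    intro a ha b hb
    obtain ⟨t, ht, hat⟩ := hTc a ha
    have h1 : ‖k (fA a) - k (fA t)‖ ≤ 7 * DB * (DA * dist a t) :=
      (hk1 _ _).trans (by
        have := (hfA a ha t (hTA ht)).2
        gcongr)
    have h2 : k (fA t) = fB (g t) := hk2 ⟨t, ht⟩
    have h3 : ‖fB (g t) - fB b‖ ≤ DB * dist (g t) b := (hfB _ (hgB t) _ hb).2
    have h4 : dist (g t) b ≤ dist (g t) t + dist t a + dist a b := by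
      have e1 := dist_triangle (g t) t b
      have e2 := dist_triangle t a b
      linarith
    rw [dist_comm (g t) t, dist_comm t a] at h4
    have h5 := hg2 t
    have h6 := hRlip t a
    rw [dist_comm t a] at h6
    have h7 := hRle a b hb
    have h8 : dist (g t) b ≤ 6 * dist a b := by linarith
    have h9 : ‖k (fA a) - fB b‖ ≤ ‖k (fA a) - k (fA t)‖ + ‖fB (g t) - fB b‖ := by
      rw [h2]
      have : k (fA a) - fB b = (k (fA a) - fB (g t)) + (fB (g t) - fB b) := by abel
      rw [this]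
      exact norm_add_le _ _
    have h10 : 7 * DB * (DA * dist a t) ≤ 7 * DB * (DA * dist a b) := by
      have : dist a t ≤ dist a b := by linarith
      gcongr
    have h11 : DB * dist (g t) b ≤ DB * (6 * dist a b) := by gcongr
    have h12 : DB * (6 * dist a b) ≤ DA * DB * (6 * dist a b) := by
      have : DB ≤ DA * DB := by nlinarith
      gcongr
    calc ‖k (fA a) - fB b‖ ≤ 7 * DB * (DA * dist a b) + DA * DB * (6 * dist a b) := by linarith
      _ = _ := by ring
  have hnB : ∀ x, x ∉ B → x ∈ A := by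
    intro x hx
    have : x ∈ A ∪ B := by rw [hAB]; trivial
    exact this.resolve_right hx
  refine ⟨fun x => if x ∈ B then fB x else k (fA x), fun x hx => if_pos hx, fun x y => ?_⟩
  have hd : 0 ≤ dist x y := dist_nonneg
  have hDD : 0 ≤ DA * DB := by positivity
  by_cases hx : x ∈ B
  · by_cases hy : y ∈ B
    · simp only [hx, hy, if_true]
      refine (hfB x hx y hy).2.trans ?_
      have : DB ≤ 13 * (DA * DB) := by nlinarith
      gcongr
    · simp only [hx, hy, if_true, if_false]
      rw [norm_sub_rev, dist_comm]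
      exact hcross y (hnB y hy) x hx
  · by_cases hy : y ∈ B
    · simp only [hx, hy, if_true, if_false]
      exact hcross x (hnB x hx) y hy
    · simp only [hx, hy, if_false]
      refine (hk1 _ _).trans ?_
      have h1 := (hfA x (hnB x hx) y (hnB y hy)).2
      calc 7 * DB * ‖fA x - fA y‖ ≤ 7 * DB * (DA * dist x y) := by gcongr
        _ ≤ 13 * (DA * DB) * dist x y := by nlinarith [mul_nonneg hDD hd]

/-- The three maps together. -/
lemma three_maps (A B : Set X) (hAB : A ∪ B = Set.univ) (hA : IsClosed A) (hB : IsClosed B)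
    (hAne : A.Nonempty) (hBne : B.Nonempty)
    (fA fB : X → H) (DA DB : ℝ) (hDA : 1 ≤ DA) (hDB : 1 ≤ DB) (hfA : EmbOn fA A DA)
    (hfB : EmbOn fB B DB) :
    ∃ (F G : X → H) (ρ : X → ℝ), ∀ x y,
      (‖F x - F y‖ ≤ 13 * (DA * DB) * dist x y ∧ ‖G x - G y‖ ≤ 13 * (DA * DB) * dist x y ∧
        |ρ x - ρ y| ≤ 28 * (DA * DB) * dist x y) ∧
      dist x y ≤ ‖F x - F y‖ + ‖G x - G y‖ + |ρ x - ρ y| := by
  obtain ⟨G, hG1, hG2⟩ := extend_side A B hAB hB hBne fA fB DA DB hDA hDB hfA hfB
  obtain ⟨F, hF1, hF2⟩ := extend_side B A (by rw [Set.union_comm]; exact hAB) hA hAne fB fA DB DA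
    hDB hDA hfB hfA
  have hDD : 1 ≤ DA * DB := by nlinarith
  have hcross : ∀ x ∈ A, ∀ y ∈ B, dist x y ≤ ‖G x - G y‖ +
      |28 * (DA * DB) * Metric.infDist x B - 28 * (DA * DB) * Metric.infDist y B| := by
    intro x _ y hy
    have h0 : Metric.infDist y B = 0 := Metric.infDist_zero_of_mem hy
    rw [h0, mul_zero, sub_zero, abs_of_nonneg (by have := Metric.infDist_nonneg (x := x) (s := B); positivity)]
    set r := Metric.infDist x B with hr
    have hr0 : 0 ≤ r := Metric.infDist_nonneg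
    have hb : ∃ b ∈ B, dist x b ≤ 2 * r := by
      rcases hr0.eq_or_lt with h | h
      · have hx : x ∈ B := by
          rw [hB.mem_iff_infDist_zero hBne]; exact h.symm
        exact ⟨x, hx, by rw [dist_self]; linarith⟩
      · have h1 : Metric.infDist x B < 2 * r := by linarith
        obtain ⟨b, hb, h2⟩ := (Metric.infDist_lt_iff hBne).1 h1
        exact ⟨b, hb, h2.le⟩
    obtain ⟨b, hb, hxb⟩ := hb
    have h1 := (hfB b hb y hy).1
    rw [← hG1 b hb, ← hG1 y hy] at h1
    have h2 := hG2 x b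
    have h3 : ‖G b - G y‖ ≤ ‖G x - G b‖ + ‖G x - G y‖ := by
      have e : G b - G y = (G x - G y) - (G x - G b) := by abel
      rw [e]
      have := norm_sub_le (G x - G y) (G x - G b)
      linarith
    have h4 := dist_triangle x b y
    have h5 : 13 * (DA * DB) * dist x b ≤ 13 * (DA * DB) * (2 * r) := by gcongr
    have h6 : 2 * r ≤ 2 * (DA * DB) * r := by nlinarith
    nlinarith
  refine ⟨F, G, fun x => 28 * (DA * DB) * Metric.infDist x B, fun x y => ⟨⟨?_, hG2 x y, ?_⟩, ?_⟩⟩
  · have := hF2 x y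
    rwa [mul_comm DB DA] at this
  · rw [← mul_sub, abs_mul, abs_of_nonneg (by positivity)]
    have h1 := Metric.infDist_le_infDist_add_dist (s := B) (x := x) (y := y)
    have h2 := Metric.infDist_le_infDist_add_dist (s := B) (x := y) (y := x)
    rw [dist_comm y x] at h2
    have h3 : |Metric.infDist x B - Metric.infDist y B| ≤ dist x y := by
      rw [abs_le]; constructor <;> linarith
    gcongr
  · have hx : x ∈ A ∪ B := by rw [hAB]; trivial
    have hy : y ∈ A ∪ B := by rw [hAB]; trivial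
    have n1 : 0 ≤ ‖F x - F y‖ := norm_nonneg _
    have n2 : 0 ≤ ‖G x - G y‖ := norm_nonneg _
    have n3 := abs_nonneg (28 * (DA * DB) * Metric.infDist x B -
      28 * (DA * DB) * Metric.infDist y B)
    rcases hx with hx | hx <;> rcases hy with hy | hy
    · have h1 := (hfA x hx y hy).1
      rw [← hF1 x hx, ← hF1 y hy] at h1
      linarith
    · have := hcross x hx y hy
      linarith
    · have h1 := hcross y hy x hx
      rw [dist_comm, norm_sub_rev, abs_sub_comm] at h1
      linarith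
    · have h1 := (hfB x hx y hy).1
      rw [← hG1 x hx, ← hG1 y hy] at h1
      linarith

end

end Pool.Agent.Lib.MP_dbb15e_gt
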