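import Mathlib
import Pool.Agent.Lib.MP_dbb15e_gt.Final
import Pool.Agent.Lib.MP_dbb15e_gt.Upper
import Pool.Agent.Lib.MP_dbb15e_gt.Interleave

/-!
# Both bounds for the union distortion
-/

set_option autoImplicit false

namespace Pool.Agent.Lib.MP_dbb15e_gt

open scoped NNReal

lemma embedsWith_hilb {X : Type} [MetricSpace X] {D : ℝ} (h : EuclideanEmbeds X D) :
    EmbedsWith X Hilb D := by
  rcases h with ⟨a, f, K, L, h1, h2, h3⟩ | h
  · refine embedsWith_of (fun x => eucMap a (f x)) K L D K.2 L.2 ?_ ?_ h3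
    · intro x y
      rw [dist_eq_norm, eucMap_dist, ← dist_eq_norm]
      exact h1.dist_le_mul x y
    · intro x y
      rw [dist_eq_norm, eucMap_dist, ← dist_eq_norm]
      exact h2.le_mul_dist x y
  · exact h

/-- total version of an embedding of a subset -/
lemma total_emb {X : Type} [MetricSpace X] (A : Set X) {D : ℝ} (h : EmbedsWith A Hilb D) :
    ∃ f : X → Hilb, EmbOn f A D := by
  classical
  obtain ⟨f, K, L, h1, h2, h3⟩ := h
  refine ⟨fun x => if hx : x ∈ A then (L : ℝ) • f ⟨x, hx⟩ else 0, fun x hx y hy => ?_⟩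
  simp only [hx, hy, dif_pos]
  rw [← smul_sub, norm_smul, Real.norm_of_nonneg L.coe_nonneg, ← dist_eq_norm]
  have a1 := h1.dist_le_mul ⟨x, hx⟩ ⟨y, hy⟩
  have a2 := h2.le_mul_dist ⟨x, hx⟩ ⟨y, hy⟩
  have e : dist (⟨x, hx⟩ : A) ⟨y, hy⟩ = dist x y := rfl
  rw [e] at a1 a2
  refine ⟨a2, ?_⟩
  have hL : (0 : ℝ) ≤ L := L.2
  calc (L : ℝ) * dist (f ⟨x, hx⟩) (f ⟨y, hy⟩) ≤ L * (K * dist x y) := by gcongr
    _ = (K * L) * dist x y := by ring
    _ ≤ D * dist x y := by gcongr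

lemma EmbOn.of_univ {X : Type} [MetricSpace X] {f : X → Hilb} {D : ℝ} (hD : 0 ≤ D)
    (h : EmbOn f Set.univ D) : EmbedsWith X Hilb D := by
  refine embedsWith_of f D 1 D hD zero_le_one ?_ ?_ (by linarith)
  · intro x y
    rw [dist_eq_norm]
    exact (h x trivial y trivial).2
  · intro x y
    rw [dist_eq_norm, one_mul]
    exact (h x trivial y trivial).1

/-- **The upper bound.** -/
theorem upper_bound (DA DB : ℝ) (hDA : 1 ≤ DA) (hDB : 1 ≤ DB) :
    UnionProperty DA DB (162 * DA * DB) := by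
  intro X _ A B hAB hA hB
  have hDD : 1 ≤ DA * DB := by nlinarith
  obtain ⟨fA0, hfA0⟩ := total_emb A (embedsWith_hilb hA)
  obtain ⟨fB0, hfB0⟩ := total_emb B (embedsWith_hilb hB)
  obtain ⟨fA, hfA⟩ := closure_ext fA0 A DA (by linarith) hfA0
  obtain ⟨fB, hfB⟩ := closure_ext fB0 B DB (by linarith) hfB0
  have hAB' : closure A ∪ closure B = Set.univ := by
    apply Set.eq_univ_of_subset _ hAB
    exact Set.union_subset_union subset_closure subset_closure
  rcases (closure A).eq_empty_or_nonempty with hAe | hAne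
  · rw [hAe, Set.empty_union] at hAB'
    rw [hAB'] at hfB
    exact (EmbOn.of_univ (by linarith) hfB).mono (by nlinarith)
  rcases (closure B).eq_empty_or_nonempty with hBe | hBne
  · rw [hBe, Set.union_empty] at hAB'
    rw [hAB'] at hfA
    exact (EmbOn.of_univ (by linarith) hfA).mono (by nlinarith)
  obtain ⟨F, G, ρ, h⟩ := three_maps (closure A) (closure B) hAB' isClosed_closure isClosed_closure
    hAne hBne fA fB DA DB hDA hDB hfA hfB
  refine embedsWith_of (fun x => Jmap (Jmap (F x) (G x)) (lineMap (ρ x))) (54 * (DA * DB)) 3 _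
    (by positivity) (by norm_num) ?_ ?_ (le_of_eq (by ring))
  · intro x y
    obtain ⟨⟨h1, h2, h3⟩, _⟩ := h x y
    rw [dist_eq_norm]
    apply le_of_sq_le_sq _ (by positivity)
    rw [Jmap_dist, Jmap_dist, lineMap_dist]
    have n1 : 0 ≤ ‖F x - F y‖ := norm_nonneg _
    have n2 : 0 ≤ ‖G x - G y‖ := norm_nonneg _
    have n3 := abs_nonneg (ρ x - ρ y)
    have h4 : ‖F x - F y‖ + ‖G x - G y‖ + |ρ x - ρ y| ≤ 54 * (DA * DB) * dist x y := by linarith
    have h5 := pow_le_pow_left₀ (by positivity) h4 2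
    nlinarith [mul_nonneg n1 n2, mul_nonneg n1 n3, mul_nonneg n2 n3]
  · intro x y
    obtain ⟨_, h4⟩ := h x y
    have n1 : 0 ≤ ‖F x - F y‖ := norm_nonneg _
    have n2 : 0 ≤ ‖G x - G y‖ := norm_nonneg _
    have n3 := abs_nonneg (ρ x - ρ y)
    rw [dist_eq_norm]
    set J := ‖Jmap (Jmap (F x) (G x)) (lineMap (ρ x)) -
      Jmap (Jmap (F y) (G y)) (lineMap (ρ y))‖ with hJ
    have hJ2 : J ^ 2 = ‖F x - F y‖ ^ 2 + ‖G x - G y‖ ^ 2 + |ρ x - ρ y| ^ 2 := by
      rw [hJ, Jmap_dist, Jmap_dist, lineMap_dist]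
    have hJ0 : 0 ≤ J := norm_nonneg _
    have e1 : ‖F x - F y‖ ≤ J := le_of_sq_le_sq (by rw [hJ2]; nlinarith) hJ0
    have e2 : ‖G x - G y‖ ≤ J := le_of_sq_le_sq (by rw [hJ2]; nlinarith) hJ0
    have e3 : |ρ x - ρ y| ≤ J := le_of_sq_le_sq (by rw [hJ2]; nlinarith) hJ0
    linarith

lemma lower_property (DA DB : ℝ) (hDA : 1 ≤ DA) (hDB : 1 ≤ DB) (D : ℝ)
    (h : UnionProperty DA DB D) : 1 / 10 ^ 15 * DA * DB ≤ D := by
  obtain ⟨X, hX, A, B, h1, ⟨a, h2⟩, ⟨b, h3⟩, h4⟩ := lower_all DA DB hDA hDB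
  exact h4 D (h X A B h1 (Or.inl ⟨a, h2⟩) (Or.inl ⟨b, h3⟩))

/-- **Both bounds.** -/
theorem two_sided (DA DB : ℝ) (hDA : 1 ≤ DA) (hDB : 1 ≤ DB) :
    1 / 10 ^ 15 * DA * DB ≤ unionDistortion DA DB ∧ unionDistortion DA DB ≤ 162 * DA * DB := by
  have hmem : 162 * DA * DB ∈ {D : ℝ | UnionProperty DA DB D} := upper_bound DA DB hDA hDB
  constructor
  · exact le_csInf ⟨_, hmem⟩ (fun D hD => lower_property DA DB hDA hDB D hD)
  · exact csInf_le ⟨1 / 10 ^ 15 * DA * DB, fun D hD => lower_property DA DB hDA hDB D hD⟩ hmem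

end Pool.Agent.Lib.MP_dbb15e_gt
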